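import Mathlib
set_option autoImplicit false
set_option linter.unusedSectionVars false
open NumberField Ideal FractionalIdeal nonZeroDivisors

namespace Pool.Agent.H471R2

attribute [local instance] RingHomInvPair.of_ringEquiv in
theorem mulEquiv_mk0 {R S : Type*} [CommRing R] [IsDedekindDomain R] [CommRing S] [IsDedekindDomain S]
    (g : R ≃+* S) (I : (Ideal R)⁰) (J : (Ideal S)⁰) (h : (J : Ideal S) = (I : Ideal R).map (g : R →+* S)) :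
    ClassGroup.mulEquiv g (ClassGroup.mk0 I) = ClassGroup.mk0 J := by
  apply (ClassGroup.equiv (R := S) (FractionRing S)).injective
  rw [ClassGroup.equiv_mk0]
  simp only [ClassGroup.mulEquiv, MulEquiv.trans_apply, MulEquiv.apply_symm_apply]
  rw [ClassGroup.equiv_mk0]
  change (QuotientGroup.mk' (toPrincipalIdeal S (FractionRing S)).range)
    (Units.mapEquiv (↑(ringEquivOfRingEquiv (FractionRing R) (FractionRing S) g)) (FractionalIdeal.mk0 (FractionRing R) I)) = _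
  congr 1
  rw [← Units.val_inj]
  simp only [Units.coe_mapEquiv, FractionalIdeal.coe_mk0]
  rw [← FractionalIdeal.coeToSubmodule_inj]
  change Submodule.map (IsFractionRing.semilinearEquivOfRingEquiv (FractionRing R) (FractionRing S) g).toLinearMap ((I : Ideal R) : FractionalIdeal R⁰ (FractionRing R)).val = _
  rw [h]
  ext x
  simp only [Submodule.mem_map, FractionalIdeal.coe_coeIdeal, IsLocalization.mem_coeSubmodule, FractionalIdeal.val_eq_coe]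
  constructor
  · rintro ⟨y, ⟨z, hz, rfl⟩, rfl⟩
    refine ⟨g z, Ideal.mem_map_of_mem _ hz, ?_⟩
    simp [IsFractionRing.semilinearEquivOfRingEquiv]
  · rintro ⟨y, hy, rfl⟩
    rw [Ideal.mem_map_iff_of_surjective (g : R →+* S) g.surjective] at hy
    obtain ⟨z, hz, rfl⟩ := hy
    refine ⟨_, ⟨z, hz, rfl⟩, ?_⟩
    simp [IsFractionRing.semilinearEquivOfRingEquiv]

variable {K : Type*} [Field K] [NumberField K]

/-- The automorphism of the ring of integers induced by a field automorphism. -/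
noncomputable abbrev ra (σ : K ≃ₐ[ℚ] K) : 𝓞 K ≃+* 𝓞 K :=
  RingOfIntegers.mapRingEquiv (σ : K ≃+* K)

@[simp] theorem ra_coe (σ : K ≃ₐ[ℚ] K) (x : 𝓞 K) : ((ra σ x : 𝓞 K) : K) = σ (x : K) := rfl

theorem ra_mul (σ τ : K ≃ₐ[ℚ] K) (x : 𝓞 K) : ra (σ * τ) x = ra σ (ra τ x) := rfl

theorem ra_one (x : 𝓞 K) : ra (1 : K ≃ₐ[ℚ] K) x = x := rfl

/-- Action on ideals. -/
noncomputable def ia (σ : K ≃ₐ[ℚ] K) (I : Ideal (𝓞 K)) : Ideal (𝓞 K) :=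
  I.map (ra σ : 𝓞 K →+* 𝓞 K)

theorem mem_ia (σ : K ≃ₐ[ℚ] K) (I : Ideal (𝓞 K)) {x : 𝓞 K} :
    x ∈ ia σ I ↔ ∃ y ∈ I, ra σ y = x := by
  unfold ia
  rw [Ideal.mem_map_iff_of_surjective (ra σ : 𝓞 K →+* 𝓞 K) (ra σ).surjective]
  rfl

theorem ra_mem_ia (σ : K ≃ₐ[ℚ] K) {I : Ideal (𝓞 K)} {x : 𝓞 K} (h : x ∈ I) : ra σ x ∈ ia σ I :=
  (mem_ia σ I).2 ⟨x, h, rfl⟩

theorem ia_mul (σ : K ≃ₐ[ℚ] K) (I J : Ideal (𝓞 K)) : ia σ (I * J) = ia σ I * ia σ J :=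
  Ideal.map_mul _ _ _

theorem ia_pow (σ : K ≃ₐ[ℚ] K) (I : Ideal (𝓞 K)) (n : ℕ) : ia σ (I ^ n) = ia σ I ^ n :=
  Ideal.map_pow _ _ _

theorem ia_sup (σ : K ≃ₐ[ℚ] K) (I J : Ideal (𝓞 K)) : ia σ (I ⊔ J) = ia σ I ⊔ ia σ J :=
  Ideal.map_sup _ _ _

theorem ia_span (σ : K ≃ₐ[ℚ] K) (x : 𝓞 K) : ia σ (span {x}) = span {ra σ x} := by
  unfold ia
  rw [Ideal.map_span, Set.image_singleton]
  rfl

theorem ia_ia (σ τ : K ≃ₐ[ℚ] K) (I : Ideal (𝓞 K)) : ia σ (ia τ I) = ia (σ * τ) I := by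
  ext x
  simp only [mem_ia]
  constructor
  · rintro ⟨y, ⟨z, hz, rfl⟩, rfl⟩
    exact ⟨z, hz, ra_mul σ τ z⟩
  · rintro ⟨z, hz, rfl⟩
    exact ⟨ra τ z, ⟨z, hz, rfl⟩, (ra_mul σ τ z).symm⟩

theorem ia_one (I : Ideal (𝓞 K)) : ia (1 : K ≃ₐ[ℚ] K) I = I := by
  ext x
  simp only [mem_ia, ra_one]
  simp

theorem ia_ne_bot (σ : K ≃ₐ[ℚ] K) {I : Ideal (𝓞 K)} (h : I ≠ ⊥) : ia σ I ≠ ⊥ := by
  intro h0
  apply h
  rw [eq_bot_iff]
  intro x hx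
  have := ra_mem_ia σ hx
  rw [h0, Ideal.mem_bot] at this
  rw [Ideal.mem_bot]
  exact (map_eq_zero_iff (ra σ) (ra σ).injective).1 this

theorem ia_top (σ : K ≃ₐ[ℚ] K) : ia σ (⊤ : Ideal (𝓞 K)) = ⊤ := Ideal.map_top _

/-- Action on the ideal class group. -/
noncomputable abbrev ca (σ : K ≃ₐ[ℚ] K) : ClassGroup (𝓞 K) ≃* ClassGroup (𝓞 K) :=
  ClassGroup.mulEquiv (ra σ)

/-- The class of a nonzero integral ideal. -/
noncomputable def cl (I : Ideal (𝓞 K)) (h : I ≠ ⊥) : ClassGroup (𝓞 K) :=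
  ClassGroup.mk0 ⟨I, mem_nonZeroDivisors_iff_ne_zero.2 h⟩

theorem ca_cl (σ : K ≃ₐ[ℚ] K) (I : Ideal (𝓞 K)) (h : I ≠ ⊥) :
    ca σ (cl I h) = cl (ia σ I) (ia_ne_bot σ h) :=
  mulEquiv_mk0 _ _ _ rfl

theorem cl_mul (I J : Ideal (𝓞 K)) (hI : I ≠ ⊥) (hJ : J ≠ ⊥) :
    cl (I * J) (mul_ne_zero hI hJ) = cl I hI * cl J hJ := by
  unfold cl
  rw [← map_mul]
  rfl

theorem cl_congr {I J : Ideal (𝓞 K)} (h : I = J) (hI : I ≠ ⊥) : cl I hI = cl J (h ▸ hI) := by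
  subst h; rfl

theorem cl_surj (x : ClassGroup (𝓞 K)) : ∃ (I : Ideal (𝓞 K)) (h : I ≠ ⊥), x = cl I h := by
  obtain ⟨⟨I, hI⟩, rfl⟩ := ClassGroup.mk0_surjective x
  exact ⟨I, mem_nonZeroDivisors_iff_ne_zero.1 hI, rfl⟩

theorem cl_eq_one_iff (I : Ideal (𝓞 K)) (h : I ≠ ⊥) :
    cl I h = 1 ↔ ∃ x : 𝓞 K, x ≠ 0 ∧ I = span {x} := by
  unfold cl
  rw [ClassGroup.mk0_eq_one_iff]
  constructor
  · rintro ⟨x, hx⟩
    refine ⟨x, ?_, hx⟩
    rintro rfl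
    apply h
    rw [hx]
    simp
  · rintro ⟨x, _, hx⟩
    exact ⟨x, hx⟩

theorem cl_eq_cl_iff (I J : Ideal (𝓞 K)) (hI : I ≠ ⊥) (hJ : J ≠ ⊥) :
    cl I hI = cl J hJ ↔ ∃ x y : 𝓞 K, x ≠ 0 ∧ y ≠ 0 ∧ span {x} * I = span {y} * J := by
  unfold cl
  rw [ClassGroup.mk0_eq_mk0_iff]
  constructor
  · rintro ⟨x, y, hx, hy, h⟩
    exact ⟨x, y, hx, hy, h⟩
  · rintro ⟨x, y, hx, hy, h⟩
    exact ⟨x, y, hx, hy, h⟩

theorem cl_span {x : 𝓞 K} (hx : x ≠ 0) (h : span {x} ≠ ⊥) : cl (span {x}) h = 1 :=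
  (cl_eq_one_iff _ _).2 ⟨x, hx, rfl⟩

theorem span_ne_bot {x : 𝓞 K} (hx : x ≠ 0) : span {x} ≠ (⊥ : Ideal (𝓞 K)) := by
  simpa using hx

theorem absNorm_ia (σ : K ≃ₐ[ℚ] K) (I : Ideal (𝓞 K)) : absNorm (ia σ I) = absNorm I := by
  have h := Ideal.relNorm_map_algEquiv (R := ℤ) ((ra σ).toIntAlgEquiv) I
  rw [Ideal.relNorm_int, Ideal.relNorm_int] at h
  have h2 : Ideal.map ((ra σ).toIntAlgEquiv) I = ia σ I := rfl
  rw [h2] at h
  have h3 := congrArg Ideal.absNorm h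
  simpa using h3

theorem intNorm_eq_prod [IsGalois ℚ K] (x : 𝓞 K) :
    algebraMap ℤ (𝓞 K) (Algebra.intNorm ℤ (𝓞 K) x) = ∏ σ : K ≃ₐ[ℚ] K, ra σ x := by
  apply RingOfIntegers.ext
  have h1 : ((algebraMap ℤ (𝓞 K) (Algebra.intNorm ℤ (𝓞 K) x) : 𝓞 K) : K) =
      algebraMap ℚ K (algebraMap ℤ ℚ (Algebra.intNorm ℤ (𝓞 K) x)) := by
    simp
  rw [h1, Algebra.algebraMap_intNorm (A := ℤ) (K := ℚ) (L := K) (B := 𝓞 K),
    Algebra.norm_eq_prod_automorphisms]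
  simp

/-- The product of all conjugates of an ideal is generated by its absolute norm. -/
theorem prod_ia [IsGalois ℚ K] (I : Ideal (𝓞 K)) :
    ∏ σ : K ≃ₐ[ℚ] K, ia σ I = span {((absNorm I : ℕ) : 𝓞 K)} := by
  by_cases hI : I = ⊥
  · subst hI
    have h1 : ia (1 : K ≃ₐ[ℚ] K) (⊥ : Ideal (𝓞 K)) = 0 := by rw [ia_one]; rfl
    rw [Finset.prod_eq_zero (Finset.mem_univ 1) h1]
    simp
  have hle : span {((absNorm I : ℕ) : 𝓞 K)} ≤ ∏ σ : K ≃ₐ[ℚ] K, ia σ I := by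
    have h1 : span {((absNorm I : ℕ) : 𝓞 K)} = map (algebraMap ℤ (𝓞 K)) (relNorm ℤ I) := by
      rw [relNorm_int, Ideal.map_span, Set.image_singleton]
      simp
    rw [h1, map_relNorm, Ideal.span_le]
    rintro _ ⟨x, hx, rfl⟩
    simp only [Function.comp_apply, SetLike.mem_coe]
    rw [intNorm_eq_prod]
    exact Ideal.prod_mem_prod (fun σ _ => ra_mem_ia σ hx)
  obtain ⟨C, hC⟩ := Ideal.dvd_iff_le.2 hle
  have hn := congrArg Ideal.absNorm hC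
  rw [map_mul, absNorm_span_natCast, map_prod] at hn
  simp only [absNorm_ia, Finset.prod_const, Finset.card_univ] at hn
  rw [← Nat.card_eq_fintype_card, IsGalois.card_aut_eq_finrank, RingOfIntegers.rank] at hn
  have h0 : absNorm I ^ Module.finrank ℚ K ≠ 0 := pow_ne_zero _ (by
    rwa [Ne, Ideal.absNorm_eq_zero_iff])
  have h1 : absNorm C = 1 := by
    have : absNorm I ^ Module.finrank ℚ K * 1 = absNorm I ^ Module.finrank ℚ K * absNorm C := by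
      rw [mul_one]; exact hn
    exact (Nat.eq_of_mul_eq_mul_left (Nat.pos_of_ne_zero h0) this).symm
  rw [Ideal.absNorm_eq_one_iff] at h1
  rw [hC, h1, mul_top]

end Pool.Agent.H471R2
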