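import Pool.Agent.H471R2.Bq.Roots
set_option autoImplicit false
set_option linter.all false
open NumberField Ideal nonZeroDivisors

namespace Pool.Agent.H471R2

variable {K : Type*} [Field K] [NumberField K] [IsGalois ℚ K] {σ τ : K ≃ₐ[ℚ] K}

theorem V4.finrank_eq (hv : V4 σ τ) : Module.finrank ℚ K = 4 := by
  classical
  rw [← IsGalois.card_aut_eq_finrank, Nat.card_eq_fintype_card, ← Finset.card_univ, hv.univ_eq]
  rw [Finset.card_insert_of_notMem, Finset.card_insert_of_notMem, Finset.card_insert_of_notMem,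
    Finset.card_singleton]
  · simp only [Finset.mem_singleton]
    intro h1
    apply hv.s1
    have : σ * τ = 1 * τ := by rw [one_mul]; exact h1.symm
    exact mul_right_cancel this
  · simp only [Finset.mem_insert, Finset.mem_singleton, not_or]
    refine ⟨hv.st, ?_⟩
    intro h1
    apply hv.t1
    have : σ * τ = σ * 1 := by rw [mul_one]; exact h1.symm
    exact mul_left_cancel this
  · simp only [Finset.mem_insert, Finset.mem_singleton, not_or]
    exact ⟨hv.s1.symm, hv.t1.symm, hv.st1.symm⟩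

theorem rank_le (hv : V4 σ τ) : Units.rank K ≤ 3 := by
  unfold Units.rank
  have h1 := InfinitePlace.card_add_two_mul_card_eq_rank K
  rw [hv.finrank_eq] at h1
  have h2 : Fintype.card (InfinitePlace K) = InfinitePlace.nrRealPlaces K + InfinitePlace.nrComplexPlaces K := by
    rw [InfinitePlace.card_eq_nrRealPlaces_add_nrComplexPlaces]
  omega

theorem rank_le_imag (hv : V4 σ τ) (h : InfinitePlace.nrRealPlaces K = 0) : Units.rank K ≤ 1 := by
  unfold Units.rank
  have h1 := InfinitePlace.card_add_two_mul_card_eq_rank K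
  rw [hv.finrank_eq] at h1
  have h2 : Fintype.card (InfinitePlace K) = InfinitePlace.nrRealPlaces K + InfinitePlace.nrComplexPlaces K := by
    rw [InfinitePlace.card_eq_nrRealPlaces_add_nrComplexPlaces]
  omega

theorem card_le_of_subset_list {G : Type*} [Group G] (H : Subgroup G) (L : List G)
    (h : ∀ x ∈ H, x ∈ L) : Finite H ∧ Nat.card H ≤ L.length := by
  classical
  have hsub : (H : Set G) ⊆ (L.toFinset : Set G) := by
    intro x hx
    simpa using h x hx
  have hfin : (H : Set G).Finite := Set.Finite.subset (Finset.finite_toSet _) hsub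
  refine ⟨hfin.to_subtype, ?_⟩
  have h1 : Nat.card H = (H : Set G).ncard := rfl
  rw [h1]
  refine (Set.ncard_le_ncard hsub (Finset.finite_toSet _)).trans ?_
  rw [Set.ncard_coe_finset]
  exact List.toFinset_card_le L

theorem map_ker_le4 (hv : V4 σ τ) : Finite ((hb (K := K)).ker.map (ha (K := K))) ∧
    Nat.card ((hb (K := K)).ker.map (ha (K := K))) ≤ 4 := by
  obtain ⟨D1, s1, h1⟩ := exists_rt hv
  obtain ⟨D2, s2, h2⟩ := exists_rt hv.symm
  obtain ⟨D3, s3, h3⟩ := exists_rt hv.right.symm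
  have := card_le_of_subset_list ((hb (K := K)).ker.map (ha (K := K))) [1, sc s1, sc s2, sc s3] (by
    intro x hx
    rcases map_ker_subset hv h1 h2 h3 hx with h | ⟨h, _⟩ | ⟨h, _⟩ | ⟨h, _⟩ <;> simp [h])
  exact this

/-- real embedding from two positive `D`'s. -/
theorem exists_real (hv : V4 σ τ) {D1 D2 D3 : ℤ} {s1 s2 s3 : 𝓞 K} (h1 : Rt σ τ D1 s1)
    (h2 : Rt τ σ D2 s2) (h3 : Rt (σ * τ) σ D3 s3) (p1 : 0 < D1) (p2 : 0 < D2) :
    InfinitePlace.nrRealPlaces K ≠ 0 := by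
  obtain ⟨φ⟩ : Nonempty (K →+* ℂ) := inferInstance
  have real_of : ∀ (D : ℤ) (s : 𝓞 K), 0 < D → s * s = ((D : ℤ) : 𝓞 K) →
      (starRingEnd ℂ) (φ (s : K)) = φ (s : K) := by
    intro D s hD hs
    have h4 : (φ (s : K)) ^ 2 = (((Real.sqrt D : ℝ) : ℂ)) ^ 2 := by
      have h5 : (s : K) * (s : K) = ((D : ℤ) : K) := by
        have := congrArg (algebraMap (𝓞 K) K) hs
        rw [map_mul] at this
        simpa using this
      rw [sq, ← map_mul, h5, map_intCast, ← Complex.ofReal_pow, Real.sq_sqrt (by exact_mod_cast hD.le)]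
      simp
    rcases sq_eq_sq_iff_eq_or_eq_neg.1 h4 with h6 | h6
    · rw [h6, Complex.conj_ofReal]
    · rw [h6, map_neg, Complex.conj_ofReal]
  have c1 := real_of D1 s1 p1 h1.sq
  have c2 := real_of D2 s2 p2 h2.sq
  -- s1 * s2 is a rational multiple of s3
  have c3 : (starRingEnd ℂ) (φ (s3 : K)) = φ (s3 : K) := by
    have hσ : σ ((s1 : K) * (s2 : K)) = -((s1 : K) * (s2 : K)) := by
      rw [map_mul, ← ra_coe, h1.fs, ← ra_coe, h2.ft]; push_cast; ring
    have hρ : (σ * τ) ((s1 : K) * (s2 : K)) = (s1 : K) * (s2 : K) := by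
      change σ (τ ((s1 : K) * (s2 : K))) = _
      rw [map_mul τ, ← ra_coe τ, h1.ft, ← ra_coe τ, h2.fs, map_mul, ← ra_coe σ, map_neg, h1.fs,
        ← ra_coe σ, h2.ft]; push_cast; ring
    obtain ⟨b, hb⟩ := anti_K hv.right.symm h3 hρ hσ
    have hs3 : (s1 : K) * (s2 : K) ≠ 0 := by
      apply mul_ne_zero
      · have := h1.s_ne_zero; simpa using this
      · have := h2.s_ne_zero; simpa using this
    have hb0 : b ≠ 0 := by
      rintro rfl
      rw [hb] at hs3
      simp at hs3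
    have h7 : (s3 : K) = ((b⁻¹ : ℚ) : K) * ((s1 : K) * (s2 : K)) := by
      rw [hb]
      have : (b : K) ≠ 0 := by exact_mod_cast hb0
      push_cast
      field_simp
    rw [h7, map_mul, map_mul, map_mul, map_mul, c1, c2, map_ratCast, map_ratCast]
  have hreal : ComplexEmbedding.IsReal φ := by
    rw [ComplexEmbedding.isReal_iff]
    ext x
    rw [ComplexEmbedding.conjugate_coe_eq]
    obtain ⟨a, b, c, d, hx⟩ := decomp hv h1 h2 h3 x
    rw [hx]
    simp only [map_add, map_mul, c1, c2, c3, map_ratCast]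
  classical
  have : Nonempty {w : InfinitePlace K // w.IsReal} :=
    ⟨⟨InfinitePlace.mk φ, ⟨φ, hreal, rfl⟩⟩⟩
  unfold InfinitePlace.nrRealPlaces
  exact (Fintype.card_pos_iff.2 this).ne'

theorem map_ker_le2 (hv : V4 σ τ) (him : InfinitePlace.nrRealPlaces K = 0) :
    Nat.card ((hb (K := K)).ker.map (ha (K := K))) ≤ 2 := by
  obtain ⟨D1, s1, h1⟩ := exists_rt hv
  obtain ⟨D2, s2, h2⟩ := exists_rt hv.symm
  obtain ⟨D3, s3, h3⟩ := exists_rt hv.right.symm
  have n12 : ¬ (0 < D1 ∧ 0 < D2) := fun h => exists_real hv h1 h2 h3 h.1 h.2 him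
  have e3 : Rt (σ * τ) τ D3 s3 := ⟨h3.sq, h3.fs, by
    have := rho_neg hv.right.symm h3
    have h5 : (σ * τ) * σ = τ := by
      rw [mul_assoc, ← hv.comm, hv.sts]
    rwa [h5] at this, h3.sf⟩
  have h1' : Rt σ (σ * τ) D1 s1 := ⟨h1.sq, h1.fs, rho_neg hv h1, h1.sf⟩
  have n13 : ¬ (0 < D1 ∧ 0 < D3) := fun h => by
    -- use V4 σ (στ): roots s1, s3, s2
    have hv' := hv.right
    have h2' : Rt (σ * (σ * τ)) σ D2 s2 := by
      rw [hv.sts]; exact h2
    exact exists_real hv' h1' h3 h2' h.1 h.2 him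
  have n23 : ¬ (0 < D2 ∧ 0 < D3) := fun h => by
    have hv' := hv.symm.right
    have h2' : Rt τ (τ * σ) D2 s2 := ⟨h2.sq, h2.fs, rho_neg hv.symm h2, h2.sf⟩
    have h3' : Rt (τ * σ) τ D3 s3 := by rw [← hv.comm]; exact e3
    have h1'' : Rt (τ * (τ * σ)) τ D1 s1 := by
      rw [hv.symm.sts]; exact h1
    exact exists_real hv' h2' h3' h1'' h.1 h.2 him
  by_cases q1 : 0 < D1
  · refine (card_le_of_subset_list ((hb (K := K)).ker.map (ha (K := K))) [1, sc s1] (by
      intro x hx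
      rcases map_ker_subset hv h1 h2 h3 hx with h | ⟨h, _⟩ | ⟨h, p⟩ | ⟨h, p⟩
      · simp [h]
      · simp [h]
      · exact absurd ⟨q1, p⟩ n12
      · exact absurd ⟨q1, p⟩ n13)).2
  · by_cases q2 : 0 < D2
    · refine (card_le_of_subset_list ((hb (K := K)).ker.map (ha (K := K))) [1, sc s2] (by
        intro x hx
        rcases map_ker_subset hv h1 h2 h3 hx with h | ⟨h, p⟩ | ⟨h, p⟩ | ⟨h, p⟩
        · simp [h]
        · exact absurd p q1
        · simp [h]
        · exact absurd ⟨q2, p⟩ n23)).2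
    · refine (card_le_of_subset_list ((hb (K := K)).ker.map (ha (K := K))) [1, sc s3] (by
        intro x hx
        rcases map_ker_subset hv h1 h2 h3 hx with h | ⟨h, p⟩ | ⟨h, p⟩ | ⟨h, p⟩
        · simp [h]
        · exact absurd p q1
        · exact absurd p q2
        · simp [h])).2

/-- a real embedding as a ring hom to ℝ -/
theorem exists_real_emb (h : InfinitePlace.nrRealPlaces K ≠ 0) : Nonempty (K →+* ℝ) := by
  classical
  unfold InfinitePlace.nrRealPlaces at h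
  obtain ⟨w, hw⟩ := Fintype.card_pos_iff.1 (Nat.pos_of_ne_zero h)
  exact ⟨InfinitePlace.embedding_of_isReal hw⟩

theorem sg_of_HH (φ : K →+* ℝ) {p : Kˣ × (𝓞 K)ˣ} (hp : p ∈ HH K) : sg φ p.2 = 1 := by
  obtain ⟨r, hr, h⟩ := hp
  apply sg_eq_one
  have h1 := congrArg φ h
  rw [map_pow, map_mul, map_ratCast] at h1
  have h2 : 0 < (φ (p.1 : K)) ^ 2 := by
    have : φ (p.1 : K) ≠ 0 := by
      rw [Ne, map_eq_zero]; exact p.1.ne_zero
    positivity
  rw [h1] at h2
  have h3 : (0 : ℝ) < (r : ℝ) := by exact_mod_cast hr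
  exact (mul_pos_iff_of_pos_left h3).1 h2

theorem range_hb_le (φ : K →+* ℝ) : (hb (K := K)).range ≤ (sgQ φ).ker := by
  rintro _ ⟨⟨p, hp⟩, rfl⟩
  rw [MonoidHom.mem_ker]
  exact sg_of_HH φ hp

/-- A unit of norm -1 in the fixed field of `σ`. -/
def UU (σ τ : K ≃ₐ[ℚ] K) : Prop :=
  ∃ ε : (𝓞 K)ˣ, ra σ (ε : 𝓞 K) = ε ∧ (ε : 𝓞 K) * ra τ (ε : 𝓞 K) = -1

theorem UU_right (hv : V4 σ τ) : UU σ τ ↔ UU σ (σ * τ) := by
  constructor
  · rintro ⟨ε, h1, h2⟩
    refine ⟨ε, h1, ?_⟩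
    rw [hv.comm, ra_mul, h1, h2]
  · rintro ⟨ε, h1, h2⟩
    refine ⟨ε, h1, ?_⟩
    rw [hv.comm, ra_mul, h1] at h2
    exact h2

variable (K) in
theorem card_UQ16 (hv : V4 σ τ) : Finite (UQ K) ∧ Nat.card (UQ K) ≤ 16 := by
  obtain ⟨h1, h2⟩ := card_UQ K
  refine ⟨h1, h2.trans ?_⟩
  have := rank_le hv
  calc 2 ^ (Units.rank K + 1) ≤ 2 ^ 4 := Nat.pow_le_pow_right (by norm_num) (by omega)
    _ = 16 := by norm_num

theorem units_int_cases (x : ℤˣ) : x = 1 ∨ x = -1 := Int.units_eq_one_or x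

theorem sg_mul_eq {φ : K →+* ℝ} {ε : (𝓞 K)ˣ} (g : K ≃ₐ[ℚ] K)
    (h : (ε : 𝓞 K) * ra g (ε : 𝓞 K) = -1) : sg (φ.comp (g : K →+* K)) ε = - sg φ ε := by
  have h1 : φ ((ε : 𝓞 K) : K) * φ (g ((ε : 𝓞 K) : K)) = -1 := by
    rw [← map_mul]
    have h2 : ((ε : 𝓞 K) : K) * g ((ε : 𝓞 K) : K) = -1 := by
      have := congrArg (algebraMap (𝓞 K) K) h
      rw [map_mul, map_neg, map_one] at this
      exact this
    rw [h2, map_neg, map_one]
  by_cases hp : 0 < φ ((ε : 𝓞 K) : K)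
  · rw [sg_eq_one hp]
    apply sg_eq_neg_one
    change ¬ 0 < φ (g ((ε : 𝓞 K) : K))
    intro hq
    have := mul_pos hp hq
    rw [h1] at this
    linarith
  · rw [sg_eq_neg_one hp, neg_neg]
    apply sg_eq_one
    change 0 < φ (g ((ε : 𝓞 K) : K))
    by_contra hq
    push Not at hp hq
    have := mul_nonneg_of_nonpos_of_nonpos hp hq
    rw [h1] at this
    linarith

theorem sg_fix {φ : K →+* ℝ} {ε : (𝓞 K)ˣ} (g : K ≃ₐ[ℚ] K)
    (h : ra g (ε : 𝓞 K) = ε) : sg (φ.comp (g : K →+* K)) ε = sg φ ε := by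
  have h2 : g ((ε : 𝓞 K) : K) = ((ε : 𝓞 K) : K) := by
    rw [← ra_coe, h]
  by_cases hp : 0 < φ ((ε : 𝓞 K) : K)
  · rw [sg_eq_one hp]
    apply sg_eq_one
    change 0 < φ (g ((ε : 𝓞 K) : K))
    rwa [h2]
  · rw [sg_eq_neg_one hp]
    apply sg_eq_neg_one
    change ¬ 0 < φ (g ((ε : 𝓞 K) : K))
    rwa [h2]

theorem card_ker_bound' {Q T : Type*} [Group Q] [Group T] [Finite Q] (S : Q →* T)
    (hS : Function.Surjective S) (B : Subgroup Q) (hB : B ≤ S.ker) :
    Nat.card B * Nat.card T ≤ Nat.card Q := by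
  have h1 : Nat.card Q = Nat.card S.ker * Nat.card S.range := by
    rw [← Subgroup.index_ker, Subgroup.card_mul_index]
  have h2 : Nat.card S.range = Nat.card T := by
    rw [MonoidHom.range_eq_top.2 hS]
    exact Nat.card_congr (Subgroup.topEquiv.toEquiv)
  rw [h1, h2]
  exact Nat.mul_le_mul_right _ (Nat.card_le_card_of_injective _ (Subgroup.inclusion_injective hB))

theorem aux_mul {a b c t m n : ℕ} (h1 : a ≤ c) (h2 : b * t ≤ m) (ht : 0 < t) (h3 : c * m = n * t) :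
    a * b ≤ n := by
  have : a * b * t ≤ n * t := by
    rw [← h3, mul_assoc]
    exact Nat.mul_le_mul h1 h2
  exact Nat.le_of_mul_le_mul_right this ht


end Pool.Agent.H471R2
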