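import Pool.Agent.H471R2.Bq.Bound1
set_option autoImplicit false
set_option linter.all false
open NumberField Ideal nonZeroDivisors

namespace Pool.Agent.H471R2

variable {K : Type*} [Field K] [NumberField K] [IsGalois ℚ K] {σ τ : K ≃ₐ[ℚ] K}

/-- real case: `|N| ≤ 32`. -/
theorem NN_le32 (hv : V4 σ τ) (φ : K →+* ℝ) : Finite (NN K) ∧ Nat.card (NN K) ≤ 32 := by
  obtain ⟨i1, i2⟩ := card_UQ16 K hv
  obtain ⟨j1, j2⟩ := map_ker_le4 hv
  obtain ⟨k1, k2⟩ := card_NN (K := K) j1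
  refine ⟨k1, ?_⟩
  have hS : Function.Surjective (sgQ φ) := by
    intro x
    rcases units_int_cases x with rfl | rfl
    · exact ⟨1, map_one _⟩
    · exact ⟨QuotientGroup.mk (-1), by rw [sgQ_mk, sg_neg_one]⟩
  have h1 : Nat.card (hb (K := K)).range * Nat.card ℤˣ ≤ Nat.card (UQ K) :=
    card_ker_bound' (sgQ φ) hS (hb (K := K)).range (range_hb_le φ)
  have h2 : Nat.card ℤˣ = 2 := by simp
  rw [h2] at h1
  rw [k2]
  exact aux_mul j2 (h1.trans i2) (by norm_num) (by norm_num)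

theorem sg_neg (φ : K →+* ℝ) (x : (𝓞 K)ˣ) : sg φ (-x) = - sg φ x := by
  rw [← neg_one_mul x, map_mul, sg_neg_one, neg_one_mul]

theorem two_signs (a : ℤˣ) (x y : ℤˣ) : ∃ i j : Bool,
    ((if i then (-1 : ℤˣ) else 1) * (if j then a else 1) = x) ∧
    ((if i then (-1 : ℤˣ) else 1) * (if j then -a else 1) = y) := by
  revert a x y
  decide

/-- real case with one unit of norm `-1`: `|N| ≤ 16`. -/
theorem NN_le16 (hv : V4 σ τ) (φ : K →+* ℝ) (hU : UU σ τ) : Nat.card (NN K) ≤ 16 := by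
  obtain ⟨i1, i2⟩ := card_UQ16 K hv
  obtain ⟨j1, j2⟩ := map_ker_le4 hv
  obtain ⟨k1, k2⟩ := card_NN (K := K) j1
  obtain ⟨ε, e1, e2⟩ := hU
  have hS : Function.Surjective ((sgQ φ).prod (sgQ (φ.comp (τ : K →+* K)))) := by
    rintro ⟨x, y⟩
    have a1 := sg_mul_eq (φ := φ) τ e2
    obtain ⟨i, j, h1, h2⟩ := two_signs (sg φ ε) x y
    refine ⟨QuotientGroup.mk ((if i then -1 else 1) * (if j then ε else 1)), ?_⟩
    rw [MonoidHom.prod_apply, sgQ_mk, sgQ_mk]
    refine Prod.ext ?_ ?_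
    · rw [← h1, map_mul]
      cases i <;> cases j <;> simp [sg_neg_one, sg_neg]
    · rw [← h2, map_mul]
      cases i <;> cases j <;> simp [sg_neg_one, sg_neg, a1]
  have hB : (hb (K := K)).range ≤ ((sgQ φ).prod (sgQ (φ.comp (τ : K →+* K)))).ker := by
    intro x hx
    rw [MonoidHom.mem_ker, MonoidHom.prod_apply]
    rw [MonoidHom.mem_ker.1 (range_hb_le φ hx), MonoidHom.mem_ker.1 (range_hb_le _ hx)]
    rfl
  have h1 : Nat.card (hb (K := K)).range * Nat.card (ℤˣ × ℤˣ) ≤ Nat.card (UQ K) :=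
    card_ker_bound' _ hS (hb (K := K)).range hB
  have h2 : Nat.card (ℤˣ × ℤˣ) = 4 := by simp
  rw [h2] at h1
  rw [k2]
  exact aux_mul j2 (h1.trans i2) (by norm_num) (by norm_num)

theorem three_signs (a b : ℤˣ) (x y z : ℤˣ) : ∃ i j k : Bool,
    ((if i then (-1 : ℤˣ) else 1) * (if j then a else 1) * (if k then b else 1) = x) ∧
    ((if i then (-1 : ℤˣ) else 1) * (if j then -a else 1) * (if k then b else 1) = y) ∧
    ((if i then (-1 : ℤˣ) else 1) * (if j then a else 1) * (if k then -b else 1) = z) := by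
  revert a b x y z
  decide

/-- real case with two units of norm `-1`: `|N| ≤ 8`. -/
theorem NN_le8 (hv : V4 σ τ) (φ : K →+* ℝ) (hU : UU σ τ) (hU' : UU τ σ) : Nat.card (NN K) ≤ 8 := by
  obtain ⟨i1, i2⟩ := card_UQ16 K hv
  obtain ⟨j1, j2⟩ := map_ker_le4 hv
  obtain ⟨k1, k2⟩ := card_NN (K := K) j1
  obtain ⟨ε, e1, e2⟩ := hU
  obtain ⟨ε', e1', e2'⟩ := hU'
  have hS : Function.Surjective ((sgQ φ).prod ((sgQ (φ.comp (τ : K →+* K))).prod
      (sgQ (φ.comp (σ : K →+* K))))) := by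
    rintro ⟨x, y, z⟩
    have a1 := sg_mul_eq (φ := φ) τ e2
    have a2 := sg_fix (φ := φ) σ e1
    have b1 := sg_mul_eq (φ := φ) σ e2'
    have b2 := sg_fix (φ := φ) τ e1'
    obtain ⟨i, j, k, h1, h2, h3⟩ := three_signs (sg φ ε) (sg φ ε') x y z
    refine ⟨QuotientGroup.mk ((if i then -1 else 1) * (if j then ε else 1) * (if k then ε' else 1)), ?_⟩
    rw [MonoidHom.prod_apply, MonoidHom.prod_apply, sgQ_mk, sgQ_mk, sgQ_mk]
    refine Prod.ext ?_ (Prod.ext ?_ ?_)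
    · rw [← h1, map_mul, map_mul]
      cases i <;> cases j <;> cases k <;> simp [sg_neg_one, sg_neg]
    · rw [← h2, map_mul, map_mul]
      cases i <;> cases j <;> cases k <;> simp [sg_neg_one, sg_neg, a1, b2]
    · rw [← h3, map_mul, map_mul]
      cases i <;> cases j <;> cases k <;> simp [sg_neg_one, sg_neg, a2, b1]
  have hB : (hb (K := K)).range ≤ ((sgQ φ).prod ((sgQ (φ.comp (τ : K →+* K))).prod
      (sgQ (φ.comp (σ : K →+* K))))).ker := by
    intro x hx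
    rw [MonoidHom.mem_ker, MonoidHom.prod_apply, MonoidHom.prod_apply]
    rw [MonoidHom.mem_ker.1 (range_hb_le φ hx), MonoidHom.mem_ker.1 (range_hb_le _ hx),
      MonoidHom.mem_ker.1 (range_hb_le _ hx)]
    rfl
  have h1 : Nat.card (hb (K := K)).range * Nat.card (ℤˣ × ℤˣ × ℤˣ) ≤ Nat.card (UQ K) :=
    card_ker_bound' _ hS (hb (K := K)).range hB
  have h2 : Nat.card (ℤˣ × ℤˣ × ℤˣ) = 8 := by simp
  rw [h2] at h1
  rw [k2]
  exact aux_mul j2 (h1.trans i2) (by norm_num) (by norm_num)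

/-- imaginary case: `|N| ≤ 8`. -/
theorem NN_imag (hv : V4 σ τ) (him : InfinitePlace.nrRealPlaces K = 0) :
    Finite (NN K) ∧ Nat.card (NN K) ≤ 8 := by
  obtain ⟨i1, i2⟩ := card_UQ K
  obtain ⟨j1, _⟩ := map_ker_le4 hv
  have j2 := map_ker_le2 hv him
  obtain ⟨k1, k2⟩ := card_NN (K := K) j1
  refine ⟨k1, ?_⟩
  have h1 : Nat.card (hb (K := K)).range ≤ Nat.card (UQ K) :=
    Nat.card_le_card_of_injective _ Subtype.val_injective
  have h2 : Nat.card (UQ K) ≤ 4 := by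
    refine i2.trans ?_
    have := rank_le_imag hv him
    calc 2 ^ (Units.rank K + 1) ≤ 2 ^ 2 := Nat.pow_le_pow_right (by norm_num) (by omega)
      _ = 4 := by norm_num
  rw [k2]
  calc _ ≤ 2 * 4 := Nat.mul_le_mul j2 (by omega)
    _ = 8 := by norm_num

/-- intersection of the three groups has at most two elements. -/
theorem inter_card {D1 D2 D3 : ℤ} (hD : ∀ p : ℕ, p.Prime → p ≠ 2 → (p : ℤ) ∣ D1 → (p : ℤ) ∣ D2 →
    (p : ℤ) ∣ D3 → False) : Finite (MM K D1 ⊓ MM K D2 ⊓ MM K D3 : Subgroup _) ∧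
    Nat.card (MM K D1 ⊓ MM K D2 ⊓ MM K D3 : Subgroup _) ≤ 2 := by
  classical
  -- parity of the valuation at 2 is injective
  have hch : ∀ x : (MM K D1 ⊓ MM K D2 ⊓ MM K D3 : Subgroup _), ∃ b : Bool, ∃ (J : FI K) (r : ℚˣ),
      x.1 = QuotientGroup.mk J ∧ J ^ 2 = pq K r ∧ (∀ p : ℕ, p.Prime → p ≠ 2 → Even (padicValRat p r)) ∧
      (b = true ↔ Even (padicValRat 2 (r : ℚ))) := by
    intro x
    obtain ⟨J, r, h1, h2, h3⟩ := inter_MM hD x.2
    exact ⟨decide (Even (padicValRat 2 (r : ℚ))), J, r, h1, h2, h3, by simp⟩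
  choose f hf using hch
  have hinj : Function.Injective f := by
    intro x y hxy
    obtain ⟨J, r, h1, h2, h3, h4⟩ := hf x
    obtain ⟨J', r', h1', h2', h3', h4'⟩ := hf y
    apply Subtype.ext
    rw [h1, h1']
    have hr0 : (r : ℚ) ≠ 0 := r.ne_zero
    have hr0' : (r' : ℚ) ≠ 0 := r'.ne_zero
    haveI : Fact (Nat.Prime 2) := ⟨Nat.prime_two⟩
    have hev : ∀ p : ℕ, p.Prime → Even (padicValRat p ((r / r' : ℚˣ) : ℚ)) := by
      intro p hp
      haveI : Fact p.Prime := ⟨hp⟩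
      rw [Units.val_div_eq_div_val, padicValRat.div hr0 hr0']
      by_cases hp2 : p = 2
      · subst hp2
        rw [Int.even_sub, ← h4, ← h4', hxy]
      · exact (h3 p hp hp2).sub (h3' p hp hp2)
    obtain ⟨c, hc, hcc⟩ := rat_sq_of_even (Units.ne_zero (r / r')) hev
    have h5 : (J / J') ^ 2 = pq K (r / r') := by rw [div_pow, h2, h2', map_div]
    have h6 := pq_sq_of h5 hc hcc
    symm
    rw [QuotientGroup.eq]
    refine ⟨Units.mk0 c hc, ?_⟩
    rw [← h6]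
    rw [div_eq_mul_inv, mul_comm]
  have hfin := Finite.of_injective f hinj
  refine ⟨hfin, ?_⟩
  have := Nat.card_le_card_of_injective f hinj
  simpa using this

end Pool.Agent.H471R2
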