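import Mathlib
set_option autoImplicit false
set_option linter.style.haveILetI false

namespace Pool.Agent.H471R2

/-- Abstract counting inequality. -/
theorem count_ineq {G C : Type*} [CommGroup G] [CommGroup C] (θ : G →* C)
    (M1 M2 M3 N : Subgroup G) [Finite N] [Finite (M1 ⊓ M2 ⊓ M3 : Subgroup G)]
    (hN : ∀ x ∈ N, θ x = 1)
    (h12 : ∀ x ∈ M1, ∀ y ∈ M2, θ x = θ y → x / y ∈ N)
    (h13 : ∀ x ∈ M1, ∀ y ∈ M3, θ x = θ y → x / y ∈ N) :
    Nat.card (M1.map θ ⊓ M2.map θ ⊓ M3.map θ : Subgroup C) *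
      (Nat.card (M1 ⊓ N : Subgroup G) * Nat.card (M2 ⊓ N : Subgroup G) *
        Nat.card (M3 ⊓ N : Subgroup G)) ≤
    Nat.card (M1 ⊓ M2 ⊓ M3 : Subgroup G) * (Nat.card N * Nat.card N) := by
  classical
  -- the group P
  let P : Subgroup (G × G × G) :=
    { carrier := {x | x.1 ∈ M1 ∧ x.2.1 ∈ M2 ∧ x.2.2 ∈ M3 ∧ θ x.1 = θ x.2.1 ∧ θ x.1 = θ x.2.2}
      mul_mem' := by
        rintro x y ⟨a1, a2, a3, a4, a5⟩ ⟨b1, b2, b3, b4, b5⟩
        refine ⟨M1.mul_mem a1 b1, M2.mul_mem a2 b2, M3.mul_mem a3 b3, ?_, ?_⟩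
        · simp only [Prod.fst_mul, Prod.snd_mul, map_mul, a4, b4]
        · simp only [Prod.fst_mul, Prod.snd_mul, map_mul, a5, b5]
      one_mem' := ⟨M1.one_mem, M2.one_mem, M3.one_mem, rfl, rfl⟩
      inv_mem' := by
        rintro x ⟨a1, a2, a3, a4, a5⟩
        refine ⟨M1.inv_mem a1, M2.inv_mem a2, M3.inv_mem a3, ?_, ?_⟩
        · simp only [Prod.fst_inv, Prod.snd_inv, map_inv, a4]
        · simp only [Prod.fst_inv, Prod.snd_inv, map_inv, a5] }
  let f : P →* C := θ.comp ((MonoidHom.fst G (G × G)).comp P.subtype)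
  let g : P →* N × N := MonoidHom.mk'
    (fun x => (⟨x.1.1 / x.1.2.1, h12 _ x.2.1 _ x.2.2.1 x.2.2.2.2.1⟩,
      ⟨x.1.1 / x.1.2.2, h13 _ x.2.1 _ x.2.2.2.1 x.2.2.2.2.2⟩))
    (by
      rintro ⟨x, hx⟩ ⟨y, hy⟩
      apply Prod.ext
      · apply Subtype.ext
        simp [mul_div_mul_comm]
      · apply Subtype.ext
        simp [mul_div_mul_comm])
  -- kernel of g
  have hg : Nat.card g.ker ≤ Nat.card (M1 ⊓ M2 ⊓ M3 : Subgroup G) := by
    apply Nat.card_le_card_of_injective (fun x : g.ker =>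
      (⟨x.1.1.1, by
        obtain ⟨⟨x, hx⟩, hx2⟩ := x
        rw [MonoidHom.mem_ker] at hx2
        have e1 : x.1 / x.2.1 = 1 := congrArg Subtype.val (congrArg Prod.fst hx2)
        have e2 : x.1 / x.2.2 = 1 := congrArg Subtype.val (congrArg Prod.snd hx2)
        rw [div_eq_one] at e1 e2
        refine ⟨⟨hx.1, ?_⟩, ?_⟩
        · change x.1 ∈ M2
          rw [e1]; exact hx.2.1
        · change x.1 ∈ M3
          rw [e2]; exact hx.2.2.1⟩ : (M1 ⊓ M2 ⊓ M3 : Subgroup G)))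
    rintro ⟨⟨x, hx⟩, hx2⟩ ⟨⟨y, hy⟩, hy2⟩ h
    rw [MonoidHom.mem_ker] at hx2 hy2
    have e1 : x.1 / x.2.1 = 1 := congrArg Subtype.val (congrArg Prod.fst hx2)
    have e2 : x.1 / x.2.2 = 1 := congrArg Subtype.val (congrArg Prod.snd hx2)
    have e3 : y.1 / y.2.1 = 1 := congrArg Subtype.val (congrArg Prod.fst hy2)
    have e4 : y.1 / y.2.2 = 1 := congrArg Subtype.val (congrArg Prod.snd hy2)
    rw [div_eq_one] at e1 e2 e3 e4
    have h' : x.1 = y.1 := congrArg Subtype.val h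
    apply Subtype.ext
    apply Subtype.ext
    refine Prod.ext h' (Prod.ext ?_ ?_)
    · change x.2.1 = y.2.1
      rw [← e1, ← e3, h']
    · change x.2.2 = y.2.2
      rw [← e2, ← e4, h']
  haveI : Finite g.ker := by
    apply Finite.of_injective (fun x : g.ker =>
      (⟨x.1.1.1, by
        obtain ⟨⟨x, hx⟩, hx2⟩ := x
        rw [MonoidHom.mem_ker] at hx2
        have e1 : x.1 / x.2.1 = 1 := congrArg Subtype.val (congrArg Prod.fst hx2)
        have e2 : x.1 / x.2.2 = 1 := congrArg Subtype.val (congrArg Prod.snd hx2)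
        rw [div_eq_one] at e1 e2
        refine ⟨⟨hx.1, ?_⟩, ?_⟩
        · change x.1 ∈ M2
          rw [e1]; exact hx.2.1
        · change x.1 ∈ M3
          rw [e2]; exact hx.2.2.1⟩ : (M1 ⊓ M2 ⊓ M3 : Subgroup G)))
    rintro ⟨⟨x, hx⟩, hx2⟩ ⟨⟨y, hy⟩, hy2⟩ h
    rw [MonoidHom.mem_ker] at hx2 hy2
    have e1 : x.1 / x.2.1 = 1 := congrArg Subtype.val (congrArg Prod.fst hx2)
    have e2 : x.1 / x.2.2 = 1 := congrArg Subtype.val (congrArg Prod.snd hx2)
    have e3 : y.1 / y.2.1 = 1 := congrArg Subtype.val (congrArg Prod.fst hy2)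
    have e4 : y.1 / y.2.2 = 1 := congrArg Subtype.val (congrArg Prod.snd hy2)
    rw [div_eq_one] at e1 e2 e3 e4
    have h' : x.1 = y.1 := congrArg Subtype.val h
    apply Subtype.ext
    apply Subtype.ext
    refine Prod.ext h' (Prod.ext ?_ ?_)
    · change x.2.1 = y.2.1
      rw [← e1, ← e3, h']
    · change x.2.2 = y.2.2
      rw [← e2, ← e4, h']
  have hgc : Nat.card P = Nat.card g.ker * Nat.card g.range := by
    rw [← Subgroup.index_ker, Subgroup.card_mul_index]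
  have hgr : Nat.card g.range ≤ Nat.card N * Nat.card N := by
    rw [← Nat.card_prod]
    exact Nat.card_le_card_of_injective _ Subtype.val_injective
  have hle : Nat.card P ≤ Nat.card (M1 ⊓ M2 ⊓ M3 : Subgroup G) * (Nat.card N * Nat.card N) := by
    rw [hgc]; exact Nat.mul_le_mul hg hgr
  haveI hPfin : Finite P := by
    haveI : Finite (P ⧸ g.ker) := Finite.of_equiv _ (QuotientGroup.quotientKerEquivRange g).symm.toEquiv
    exact Finite.of_subgroup_quotient g.ker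
  have hfc : Nat.card P = Nat.card f.ker * Nat.card f.range := by
    rw [← Subgroup.index_ker, Subgroup.card_mul_index]
  have hfr : Nat.card (M1.map θ ⊓ M2.map θ ⊓ M3.map θ : Subgroup C) ≤ Nat.card f.range := by
    have hle2 : (M1.map θ ⊓ M2.map θ ⊓ M3.map θ : Subgroup C) ≤ f.range := by
      rintro c ⟨⟨⟨x, hx, hxc⟩, ⟨y, hy, hyc⟩⟩, ⟨z, hz, hzc⟩⟩
      exact ⟨⟨(x, y, z), ⟨hx, hy, hz, hxc.trans hyc.symm, hxc.trans hzc.symm⟩⟩, hxc⟩
    haveI : Finite f.range := Finite.of_surjective f.rangeRestrict f.rangeRestrict_surjective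
    exact Nat.card_le_card_of_injective _ (Subgroup.inclusion_injective hle2)
  have hfk : Nat.card (M1 ⊓ N : Subgroup G) * Nat.card (M2 ⊓ N : Subgroup G) *
        Nat.card (M3 ⊓ N : Subgroup G) ≤ Nat.card f.ker := by
    rw [← Nat.card_prod, ← Nat.card_prod]
    apply Nat.card_le_card_of_injective (fun p : ((M1 ⊓ N : Subgroup G) × (M2 ⊓ N : Subgroup G)) ×
        (M3 ⊓ N : Subgroup G) => (⟨⟨(p.1.1.1, p.1.2.1, p.2.1),
          ⟨p.1.1.2.1, p.1.2.2.1, p.2.2.1, by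
            rw [hN _ p.1.1.2.2, hN _ p.1.2.2.2], by
            rw [hN _ p.1.1.2.2, hN _ p.2.2.2]⟩⟩, by
            rw [MonoidHom.mem_ker]
            exact hN _ p.1.1.2.2⟩ : f.ker))
    rintro ⟨⟨x, y⟩, z⟩ ⟨⟨x', y'⟩, z'⟩ h
    have h1 := congrArg Subtype.val (congrArg Subtype.val h)
    simp only [Prod.mk.injEq] at h1
    obtain ⟨h2, h3, h4⟩ := h1
    rw [Subtype.ext h2, Subtype.ext h3, Subtype.ext h4]
  calc _ ≤ Nat.card f.range * Nat.card f.ker := Nat.mul_le_mul hfr hfk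
    _ = Nat.card P := by rw [hfc, mul_comm]
    _ ≤ _ := hle

end Pool.Agent.H471R2
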