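import Pool.Agent.H471R2.Bq.H90
import Pool.Agent.H471R2.Bq.Count
set_option autoImplicit false
set_option linter.unusedSectionVars false
set_option linter.style.haveILetI false
open NumberField Ideal nonZeroDivisors

namespace Pool.Agent.H471R2

variable (K : Type*) [Field K] [NumberField K]

/-- the group of fractional ideals -/
abbrev FI := (FractionalIdeal (𝓞 K)⁰ K)ˣ

/-- principal fractional ideals generated by rational numbers. -/
noncomputable def pq : ℚˣ →* FI K :=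
  (toPrincipalIdeal (𝓞 K) K).comp (Units.map (algebraMap ℚ K).toMonoidHom)

/-- subgroup of rational principal ideals. -/
noncomputable def PQ : Subgroup (FI K) := (pq K).range

variable {K}

theorem mk_tpi (x : Kˣ) : ClassGroup.mk K (toPrincipalIdeal (𝓞 K) K x) = 1 := by
  rw [ClassGroup.mk_eq_one_iff]
  rw [coe_toPrincipalIdeal]
  exact ⟨⟨(x : K), by simp [FractionalIdeal.coe_spanSingleton]⟩⟩

theorem exists_tpi {J : FI K} (h : ClassGroup.mk K J = 1) :
    ∃ x : Kˣ, J = toPrincipalIdeal (𝓞 K) K x := by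
  rw [ClassGroup.mk_eq_one_iff] at h
  obtain ⟨⟨x, hx⟩⟩ := h
  have hJ : (J : FractionalIdeal (𝓞 K)⁰ K) = FractionalIdeal.spanSingleton (𝓞 K)⁰ x := by
    apply FractionalIdeal.coeToSubmodule_injective
    change ((J : FractionalIdeal (𝓞 K)⁰ K) : Submodule (𝓞 K) K) =
      ((FractionalIdeal.spanSingleton (𝓞 K)⁰ x : FractionalIdeal (𝓞 K)⁰ K) : Submodule (𝓞 K) K)
    rw [hx, FractionalIdeal.coe_spanSingleton]
  have hx0 : x ≠ 0 := by
    rintro rfl
    rw [FractionalIdeal.spanSingleton_zero] at hJ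
    exact J.ne_zero hJ
  refine ⟨Units.mk0 x hx0, ?_⟩
  symm
  rw [toPrincipalIdeal_eq_iff]
  simp [hJ]

/-- a fractional ideal class map -/
noncomputable def θ : (FI K ⧸ PQ K) →* ClassGroup (𝓞 K) :=
  QuotientGroup.lift (PQ K) (ClassGroup.mk K) (by
    rintro _ ⟨q, rfl⟩
    exact mk_tpi _)

theorem θ_mk (J : FI K) : θ (QuotientGroup.mk J : FI K ⧸ PQ K) = ClassGroup.mk K J := rfl

/-- integral ideals as fractional ideals -/
noncomputable def toFI (I : Ideal (𝓞 K)) (h : I ≠ ⊥) : FI K :=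
  FractionalIdeal.mk0 K ⟨I, mem_nonZeroDivisors_iff_ne_zero.2 h⟩

theorem mk_toFI (I : Ideal (𝓞 K)) (h : I ≠ ⊥) : ClassGroup.mk K (toFI I h) = cl I h :=
  ClassGroup.mk_mk0 K _

theorem toFI_mul (I J : Ideal (𝓞 K)) (hI : I ≠ ⊥) (hJ : J ≠ ⊥) :
    toFI (I * J) (mul_ne_zero hI hJ) = toFI I hI * toFI J hJ := by
  unfold toFI
  rw [← map_mul]
  rfl

theorem toFI_congr {I J : Ideal (𝓞 K)} (h : I = J) (hI : I ≠ ⊥) : toFI I hI = toFI J (h ▸ hI) := by
  subst h; rfl

theorem toFI_inj {I J : Ideal (𝓞 K)} {hI : I ≠ ⊥} {hJ : J ≠ ⊥} (h : toFI I hI = toFI J hJ) :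
    I = J := by
  unfold toFI at h
  have := congrArg (fun x : FI K => (x : FractionalIdeal (𝓞 K)⁰ K)) h
  simp only [FractionalIdeal.coe_mk0] at this
  exact FractionalIdeal.coeIdeal_injective this

theorem toFI_span {x : 𝓞 K} (hx : x ≠ 0) (h : span {x} ≠ ⊥) :
    toFI (span {x}) h = toPrincipalIdeal (𝓞 K) K (Units.mk0 (x : K) (by simpa using hx)) := by
  symm
  rw [toPrincipalIdeal_eq_iff]
  unfold toFI
  rw [FractionalIdeal.coe_mk0]
  simp [FractionalIdeal.coeIdeal_span_singleton]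

theorem toFI_span_int {n : ℤ} (hn : n ≠ 0) (h : span {(n : 𝓞 K)} ≠ ⊥) :
    toFI (span {(n : 𝓞 K)}) h = pq K (Units.mk0 (n : ℚ) (by exact_mod_cast hn)) := by
  rw [toFI_span (by exact_mod_cast hn)]
  unfold pq
  rw [MonoidHom.comp_apply]
  congr 1
  apply Units.ext
  simp

theorem FI_exists_int (J : FI K) : ∃ (a : 𝓞 K) (ha : a ≠ 0) (I : Ideal (𝓞 K)) (hI : I ≠ ⊥),
    toFI (span {a}) (span_ne_bot ha) * J = toFI I hI := by
  obtain ⟨a, I, ha, hI⟩ := FractionalIdeal.exists_eq_spanSingleton_mul (J : FractionalIdeal (𝓞 K)⁰ K)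
  have hI0 : I ≠ ⊥ := by
    rintro rfl
    apply J.ne_zero
    rw [hI]
    simp
  refine ⟨a, ha, I, hI0, ?_⟩
  apply Units.ext
  rw [Units.val_mul]
  unfold toFI
  rw [FractionalIdeal.coe_mk0, FractionalIdeal.coe_mk0, hI]
  rw [FractionalIdeal.coeIdeal_span_singleton, ← mul_assoc,
    FractionalIdeal.spanSingleton_mul_spanSingleton, mul_inv_cancel₀,
    FractionalIdeal.spanSingleton_one, one_mul]
  simpa using ha

theorem toFI_sq (I : Ideal (𝓞 K)) (hI : I ≠ ⊥) (h2 : I ^ 2 ≠ ⊥) : toFI (I ^ 2) h2 = toFI I hI ^ 2 := by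
  unfold toFI
  rw [← map_pow]
  rfl

theorem FI_sq_one {Z : FI K} (h : Z ^ 2 = 1) : Z = 1 := by
  obtain ⟨a, ha, I, hI, h1⟩ := FI_exists_int Z
  have e1 : toFI I hI ^ 2 = toFI (span {a}) (span_ne_bot ha) ^ 2 := by
    rw [← h1, mul_pow, h, mul_one]
  have hI2 : I ^ 2 ≠ ⊥ := pow_ne_zero 2 hI
  have ha2 : (span {a} : Ideal (𝓞 K)) ^ 2 ≠ ⊥ := pow_ne_zero 2 (span_ne_bot ha)
  rw [← toFI_sq I hI hI2, ← toFI_sq _ _ ha2] at e1
  have e2 := ideal_sq_inj (toFI_inj e1)
  subst e2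
  exact mul_eq_left.1 h1

/-- the group of fractional ideals has no 2-torsion. -/
theorem FI_sq_inj {J J' : FI K} (h : J ^ 2 = J' ^ 2) : J = J' := by
  have : J / J' = 1 := by
    apply FI_sq_one
    rw [div_pow, h, div_self']
  exact div_eq_one.1 this

theorem pq_neg (r : ℚˣ) : pq K (-r) = pq K r := by
  have h : pq K (-1) = 1 := by
    have h2 : (pq K (-1)) ^ 2 = 1 ^ 2 := by
      rw [← map_pow]
      simp
    exact FI_sq_inj h2
  rw [← neg_one_mul, map_mul, h, one_mul]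

/-- rational numbers whose odd valuations away from `D` are even. -/
def EvenAt (D : ℤ) (r : ℚ) : Prop :=
  ∀ p : ℕ, p.Prime → p ≠ 2 → ¬ (p : ℤ) ∣ D → Even (padicValRat p r)

theorem EvenAt.mul {D : ℤ} {r s : ℚ} (hr : r ≠ 0) (hs : s ≠ 0) (h1 : EvenAt D r)
    (h2 : EvenAt D s) : EvenAt D (r * s) := by
  intro p hp hp2 hpD
  haveI : Fact p.Prime := ⟨hp⟩
  rw [padicValRat.mul hr hs]
  exact (h1 p hp hp2 hpD).add (h2 p hp hp2 hpD)

theorem EvenAt.inv {D : ℤ} {r : ℚ} (h1 : EvenAt D r) : EvenAt D r⁻¹ := by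
  intro p hp hp2 hpD
  haveI : Fact p.Prime := ⟨hp⟩
  rw [padicValRat.inv]
  exact (h1 p hp hp2 hpD).neg

variable (K) in
/-- ideals with rational square, even away from `D`. -/
noncomputable def MJ (D : ℤ) : Subgroup (FI K) where
  carrier := {J | ∃ r : ℚˣ, J ^ 2 = pq K r ∧ EvenAt D r}
  one_mem' := ⟨1, by simp, by intro p _ _ _; simp⟩
  mul_mem' := by
    rintro x y ⟨r, h1, h2⟩ ⟨s, h3, h4⟩
    exact ⟨r * s, by rw [mul_pow, h1, h3, map_mul], by
      rw [Units.val_mul]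
      exact h2.mul r.ne_zero s.ne_zero h4⟩
  inv_mem' := by
    rintro x ⟨r, h1, h2⟩
    exact ⟨r⁻¹, by rw [inv_pow, h1, map_inv], by
      rw [Units.val_inv_eq_inv_val]
      exact h2.inv⟩

variable (K) in
/-- its image modulo rational ideals. -/
noncomputable def MM (D : ℤ) : Subgroup (FI K ⧸ PQ K) := (MJ K D).map (QuotientGroup.mk' (PQ K))

variable (K) in
/-- principal ideals with rational square. -/
noncomputable def NJ : Subgroup (FI K) :=
  ((PQ K).comap (powMonoidHom 2)) ⊓ (ClassGroup.mk K).ker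

variable (K) in
/-- its image modulo rational ideals. -/
noncomputable def NN : Subgroup (FI K ⧸ PQ K) := (NJ K).map (QuotientGroup.mk' (PQ K))

theorem θ_NN {x : FI K ⧸ PQ K} (hx : x ∈ NN K) : θ x = 1 := by
  obtain ⟨J, ⟨_, hJ⟩, rfl⟩ := hx
  exact hJ

theorem MM_div_MM {D D' : ℤ} {x y : FI K ⧸ PQ K} (hx : x ∈ MM K D) (hy : y ∈ MM K D')
    (h : θ x = θ y) : x / y ∈ NN K := by
  obtain ⟨J, ⟨r, h1, _⟩, rfl⟩ := hx
  obtain ⟨J', ⟨s, h2, _⟩, rfl⟩ := hy
  refine ⟨J / J', ⟨?_, ?_⟩, ?_⟩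
  · change (J / J') ^ 2 ∈ PQ K
    rw [div_pow, h1, h2, ← map_div]
    exact ⟨_, rfl⟩
  · change ClassGroup.mk K (J / J') = 1
    rw [map_div]
    have h3 : ClassGroup.mk K J = ClassGroup.mk K J' := h
    rw [h3, div_self']
  · rw [map_div]

/-- a rational number with all valuations even is a square up to sign. -/
theorem rat_sq_of_even {r : ℚ} (hr : r ≠ 0) (h : ∀ p : ℕ, p.Prime → Even (padicValRat p r)) :
    ∃ c : ℚ, c ≠ 0 ∧ (r = c ^ 2 ∨ r = -c ^ 2) := by
  -- natural number case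
  have hnat : ∀ n : ℕ, n ≠ 0 → (∀ p : ℕ, p.Prime → Even (padicValNat p n)) → ∃ c : ℕ, n = c ^ 2 := by
    intro n hn hp
    obtain ⟨a, b, hab, hsf⟩ := Nat.sq_mul_squarefree n
    have ha : a = 1 := by
      by_contra hne
      obtain ⟨p, hpp, hpa⟩ := Nat.exists_prime_and_dvd hne
      haveI : Fact p.Prime := ⟨hpp⟩
      have hb0 : b ≠ 0 := by rintro rfl; simp at hab; exact hn hab.symm
      have ha0 : a ≠ 0 := by rintro rfl; simp at hab; exact hn hab.symm
      have h1 := hp p hpp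
      rw [← hab, padicValNat.mul (pow_ne_zero _ hb0) ha0, padicValNat.pow] at h1
      have h2 : padicValNat p a = 1 := by
        have h3 : 1 ≤ padicValNat p a := one_le_padicValNat_of_dvd ha0 hpa
        have h4 : ¬ p ^ 2 ∣ a := by
          intro h5
          rw [sq] at h5
          exact hpp.one_lt.ne' (Nat.isUnit_iff.1 (hsf p h5))
        have h5 : padicValNat p a < 2 := by
          by_contra h6
          push Not at h6
          apply h4
          exact (padicValNat_dvd_iff_le ha0).2 h6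
        omega
      rw [h2] at h1
      have : ¬ Even (2 * padicValNat p b + 1) := by
        rw [Nat.not_even_iff_odd]; exact ⟨_, rfl⟩
      exact this h1
    exact ⟨b, by rw [← hab, ha, mul_one]⟩
  have hnum : r.num ≠ 0 := Rat.num_ne_zero.2 hr
  obtain ⟨c, hc⟩ := hnat (r.num.natAbs * r.den) (mul_ne_zero (Int.natAbs_ne_zero.2 hnum) r.den_nz) (by
    intro p hp
    haveI : Fact p.Prime := ⟨hp⟩
    rw [padicValNat.mul (Int.natAbs_ne_zero.2 hnum) r.den_nz]
    have h1 := h p hp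
    rw [padicValRat_def] at h1
    have h2 : padicValInt p r.num = padicValNat p r.num.natAbs := rfl
    rw [h2] at h1
    rw [Int.even_sub] at h1
    rw [Nat.even_add]
    exact_mod_cast h1)
  have hden : (r.den : ℚ) ≠ 0 := by exact_mod_cast r.den_nz
  have hc0 : c ≠ 0 := by
    rintro rfl
    have : r.num.natAbs * r.den = 0 := by rw [hc]; rfl
    rcases mul_eq_zero.1 this with h1 | h1
    · exact hnum (Int.natAbs_eq_zero.1 h1)
    · exact r.den_nz h1
  refine ⟨(c : ℚ) / r.den, div_ne_zero (by exact_mod_cast hc0) hden, ?_⟩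
  have h3 : r = r.num / r.den := (Rat.num_div_den r).symm
  have hcq : ((r.num.natAbs : ℕ) : ℚ) * r.den = (c : ℚ) ^ 2 := by exact_mod_cast hc
  rcases Int.natAbs_eq r.num with h4 | h4
  · left
    have h5 : (r.num : ℚ) = ((r.num.natAbs : ℕ) : ℚ) := by
      have h5' : (r.num : ℚ) = (((r.num.natAbs : ℕ) : ℤ) : ℚ) := congrArg _ h4
      rwa [Int.cast_natCast] at h5'
    rw [div_pow, ← hcq, ← h5]
    conv_lhs => rw [h3]
    field_simp
  · right
    have h5 : (r.num : ℚ) = -((r.num.natAbs : ℕ) : ℚ) := by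
      have h5' : (r.num : ℚ) = ((-((r.num.natAbs : ℕ) : ℤ) : ℤ) : ℚ) := congrArg _ h4
      rwa [Int.cast_neg, Int.cast_natCast] at h5'
    have h6 : ((r.num.natAbs : ℕ) : ℚ) = -(r.num : ℚ) := by rw [h5, neg_neg]
    rw [div_pow, ← hcq, h6]
    conv_lhs => rw [h3]
    field_simp

theorem pq_sq_of {J : FI K} {r : ℚˣ} (h1 : J ^ 2 = pq K r) {c : ℚ} (hc : c ≠ 0)
    (h2 : (r : ℚ) = c ^ 2 ∨ (r : ℚ) = -c ^ 2) : J = pq K (Units.mk0 c hc) := by
  apply FI_sq_inj
  rw [h1, ← map_pow]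
  rcases h2 with h3 | h3
  · congr 1
    apply Units.ext
    simp [h3]
  · have : r = -(Units.mk0 c hc) ^ 2 := by
      apply Units.ext
      simp [h3]
    rw [this, pq_neg]

theorem inter_MM {D1 D2 D3 : ℤ} (hD : ∀ p : ℕ, p.Prime → p ≠ 2 → (p : ℤ) ∣ D1 → (p : ℤ) ∣ D2 →
    (p : ℤ) ∣ D3 → False) {x : FI K ⧸ PQ K} (hx : x ∈ MM K D1 ⊓ MM K D2 ⊓ MM K D3) :
    ∃ (J : FI K) (r : ℚˣ), x = QuotientGroup.mk J ∧ J ^ 2 = pq K r ∧
      ∀ p : ℕ, p.Prime → p ≠ 2 → Even (padicValRat p r) := by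
  obtain ⟨⟨⟨J1, ⟨r1, h1, e1⟩, hJ1⟩, ⟨J2, ⟨r2, h2, e2⟩, hJ2⟩⟩, ⟨J3, ⟨r3, h3, e3⟩, hJ3⟩⟩ := hx
  refine ⟨J1, r1, hJ1.symm, h1, ?_⟩
  have key : ∀ (J : FI K) (r : ℚˣ), J ^ 2 = pq K r → QuotientGroup.mk' (PQ K) J = x →
      ∀ p : ℕ, p.Prime → (Even (padicValRat p r) → Even (padicValRat p r1)) := by
    intro J r hr hJ p hp hev
    haveI : Fact p.Prime := ⟨hp⟩
    rw [← hJ1] at hJ
    have h4 : J⁻¹ * J1 ∈ PQ K := QuotientGroup.eq.1 hJ
    obtain ⟨q, hq⟩ := h4
    have h5 : J1 = J * pq K q := by rw [hq]; group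
    have h6 : pq K r1 = pq K (r * q ^ 2) := by
      rw [← h1, h5, mul_pow, hr, map_mul, map_pow]
    have h7 : (r1 : ℚ) = r * q ^ 2 ∨ (r1 : ℚ) = -(r * q ^ 2) := by
      unfold pq at h6
      rw [MonoidHom.comp_apply, MonoidHom.comp_apply] at h6
      have h8 : toPrincipalIdeal (𝓞 K) K (Units.map (algebraMap ℚ K).toMonoidHom (r1 / (r * q ^ 2))) = 1 := by
        rw [map_div, map_div, h6, div_self']
      rw [toPrincipalIdeal_eq_iff] at h8
      have h9 : ((r1 / (r * q ^ 2) : ℚˣ) : ℚ) = 1 ∨ ((r1 / (r * q ^ 2) : ℚˣ) : ℚ) = -1 := by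
        set z : ℚˣ := r1 / (r * q ^ 2) with hz
        have hzK : (Units.map (algebraMap ℚ K).toMonoidHom z : K) = ((z : ℚ) : K) := by simp
        rw [hzK] at h8
        -- z and z⁻¹ integral
        have i1 : ∀ w : ℚ, FractionalIdeal.spanSingleton (𝓞 K)⁰ ((w : ℚ) : K) = 1 → IsIntegral ℤ w := by
          intro w hw
          have : ((w : ℚ) : K) ∈ (1 : FractionalIdeal (𝓞 K)⁰ K) := by
            rw [← hw]; exact FractionalIdeal.mem_spanSingleton_self _ _
          rw [FractionalIdeal.mem_one_iff] at this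
          obtain ⟨y, hy⟩ := this
          have hint : IsIntegral ℤ ((w : ℚ) : K) := by rw [← hy]; exact y.isIntegral_coe
          exact (isIntegral_algebraMap_iff (R := ℤ) (A := ℚ) (B := K) (algebraMap ℚ K).injective (x := w)).1 hint
        have i2 : IsIntegral ℤ ((z⁻¹ : ℚˣ) : ℚ) := by
          apply i1
          have : FractionalIdeal.spanSingleton (𝓞 K)⁰ (((z⁻¹ : ℚˣ) : ℚ) : K) *
              FractionalIdeal.spanSingleton (𝓞 K)⁰ ((z : ℚ) : K) = 1 := by
            rw [FractionalIdeal.spanSingleton_mul_spanSingleton]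
            rw [← Rat.cast_mul]
            simp
          have h8' : FractionalIdeal.spanSingleton (𝓞 K)⁰ ((z : ℚ) : K) = 1 := by simpa using h8
          rwa [h8', mul_one] at this
        have i3 : IsIntegral ℤ (z : ℚ) := by
          apply i1
          simpa using h8
        obtain ⟨a, ha⟩ := IsIntegrallyClosed.isIntegral_iff.1 i3
        obtain ⟨b, hb⟩ := IsIntegrallyClosed.isIntegral_iff.1 i2
        have hab : a * b = 1 := by
          have : (a : ℚ) * (b : ℚ) = 1 := by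
            have ha' : (a : ℚ) = z := ha
            have hb' : (b : ℚ) = (z⁻¹ : ℚˣ) := hb
            rw [ha', hb']; simp
          exact_mod_cast this
        have ha' : (a : ℚ) = z := ha
        rcases Int.eq_one_or_neg_one_of_mul_eq_one hab with h | h
        · left; rw [← ha', h]; norm_num
        · right; rw [← ha', h]; norm_num
      have hne : ((r * q ^ 2 : ℚˣ) : ℚ) ≠ 0 := Units.ne_zero _
      rw [Units.val_div_eq_div_val] at h9
      rcases h9 with h | h
      · left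
        rw [div_eq_one_iff_eq hne] at h
        rw [h]; push_cast; rfl
      · right
        rw [div_eq_iff hne] at h
        rw [h]; push_cast; ring
    have hr0 : (r : ℚ) ≠ 0 := r.ne_zero
    have hq0 : (q : ℚ) ≠ 0 := q.ne_zero
    have h10 : padicValRat p (r1 : ℚ) = padicValRat p (r : ℚ) + 2 * padicValRat p (q : ℚ) := by
      rcases h7 with h | h
      · rw [h, padicValRat.mul hr0 (pow_ne_zero _ hq0), padicValRat.pow]; rfl
      · rw [h, padicValRat.neg, padicValRat.mul hr0 (pow_ne_zero _ hq0), padicValRat.pow]; rfl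
    rw [h10]
    exact hev.add (even_two_mul _)
  intro p hp hp2
  by_cases c1 : (p : ℤ) ∣ D1
  · by_cases c2 : (p : ℤ) ∣ D2
    · by_cases c3 : (p : ℤ) ∣ D3
      · exact (hD p hp hp2 c1 c2 c3).elim
      · exact key J3 r3 h3 hJ3 p hp (e3 p hp hp2 c3)
    · exact key J2 r2 h2 hJ2 p hp (e2 p hp hp2 c2)
  · exact e1 p hp hp2 c1

end Pool.Agent.H471R2
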