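import Pool.Agent.H471R2.Bq.V4
set_option autoImplicit false
set_option linter.unusedSectionVars false
open NumberField Ideal nonZeroDivisors

namespace Pool.Agent.H471R2

variable {K : Type*} [Field K] [NumberField K] {σ τ : K ≃ₐ[ℚ] K}

/-- `s` is a square root of the squarefree integer `D`, fixed by `σ` and negated by `τ`. -/
structure Rt (σ τ : K ≃ₐ[ℚ] K) (D : ℤ) (s : 𝓞 K) : Prop where
  sq : s * s = ((D : ℤ) : 𝓞 K)
  fs : ra σ s = s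
  ft : ra τ s = -s
  sf : Squarefree D

theorem Rt.D_ne_zero {D : ℤ} {s : 𝓞 K} (h : Rt σ τ D s) : D ≠ 0 := h.sf.ne_zero

theorem Rt.s_ne_zero {D : ℤ} {s : 𝓞 K} (h : Rt σ τ D s) : s ≠ 0 := by
  rintro rfl
  have := h.sq
  rw [mul_zero] at this
  exact h.D_ne_zero (by exact_mod_cast this.symm)

section
variable [IsGalois ℚ K]

/-- elements fixed by `σ` and negated by `τ` are integer multiples of `s`. -/
theorem anti (hv : V4 σ τ) {D : ℤ} {s : 𝓞 K} (h : Rt σ τ D s) {x : 𝓞 K} (h1 : ra σ x = x)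
    (h2 : ra τ x = -x) : ∃ b : ℤ, x = (b : 𝓞 K) * s := by
  have h3 : ∃ c : ℤ, x * s = (c : 𝓞 K) := by
    apply hv.fixed_int
    · rw [map_mul, h1, h.fs]
    · rw [map_mul, h2, h.ft]; ring
  obtain ⟨c, hc⟩ := h3
  have h4 : ∃ e : ℤ, x * x = (e : 𝓞 K) := by
    apply hv.fixed_int
    · rw [map_mul, h1]
    · rw [map_mul, h2]; ring
  obtain ⟨e, he⟩ := h4
  have h5 : e * D = c ^ 2 := by
    have : ((e * D : ℤ) : 𝓞 K) = ((c ^ 2 : ℤ) : 𝓞 K) := by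
      push_cast
      rw [← he, ← h.sq, ← hc]; ring
    exact_mod_cast this
  have h6 : D ∣ c := by
    have : D ∣ c ^ 2 := ⟨e, by rw [← h5]; ring⟩
    exact (h.sf.dvd_pow_iff_dvd two_ne_zero).1 this
  obtain ⟨b, rfl⟩ := h6
  refine ⟨b, ?_⟩
  have h7 : s * (x - (b : 𝓞 K) * s) = 0 := by
    have : x * s = ((D : ℤ) : 𝓞 K) * (b : 𝓞 K) := by rw [hc]; push_cast; ring
    rw [mul_sub, mul_comm s x, this, ← h.sq]; ring
  rcases mul_eq_zero.1 h7 with h8 | h8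
  · exact absurd h8 h.s_ne_zero
  · exact sub_eq_zero.1 h8

/-- Hilbert 90 in the fixed field of `σ`. -/
theorem hilb90 (hv : V4 σ τ) {D : ℤ} {s : 𝓞 K} (h : Rt σ τ D s) {γ : 𝓞 K} {a : ℤ}
    (hγ : ra σ γ = γ) (ha : a ≠ 0) (hn : γ * ra τ γ = (a : 𝓞 K) * (a : 𝓞 K)) :
    ∃ η : 𝓞 K, η ≠ 0 ∧ ra σ η = η ∧ γ * ra τ η = (a : 𝓞 K) * η := by
  by_cases h0 : γ + (a : 𝓞 K) = 0
  · refine ⟨s, h.s_ne_zero, h.fs, ?_⟩
    have : γ = -(a : 𝓞 K) := eq_neg_of_add_eq_zero_left h0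
    rw [this, h.ft]; ring
  · refine ⟨γ + (a : 𝓞 K), h0, ?_, ?_⟩
    · rw [map_add, hγ, map_intCast]
    · rw [map_add, map_intCast, mul_add, hn]; ring

theorem norm_sub_int (hv : V4 σ τ) {η : 𝓞 K} (hη : ra σ η = η) :
    ∃ n : ℤ, η * ra τ η = (n : 𝓞 K) := by
  apply hv.fixed_int
  · rw [map_mul, hη, ← ra_mul, hv.comm, ra_mul, hη]
  · rw [map_mul, ← ra_mul, hv.tt, ra_one, mul_comm]

/-- The strong form: an ideal in the class of `J₀` whose square is generated by an integer. -/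
theorem exists_rat_square (hv : V4 σ τ) {D : ℤ} {s : 𝓞 K} (h : Rt σ τ D s) {γ : 𝓞 K} {a : ℤ}
    {J₀ : Ideal (𝓞 K)}
    (hγ : ra σ γ = γ) (ha : a ≠ 0) (hn : γ * ra τ γ = (a : 𝓞 K) * (a : 𝓞 K))
    (hJ : J₀ ^ 2 = span {γ}) :
    ∃ (η : 𝓞 K) (n : ℤ), η ≠ 0 ∧ ra σ η = η ∧ n ≠ 0 ∧ η * ra τ η = (n : 𝓞 K) ∧
      (J₀ * span {ra τ η}) ^ 2 = span {((a * n : ℤ) : 𝓞 K)} := by
  obtain ⟨η, h0, h1, h2⟩ := hilb90 hv h hγ ha hn
  obtain ⟨n, h3⟩ := norm_sub_int hv h1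
  have hn0 : n ≠ 0 := by
    rintro rfl
    rw [Int.cast_zero, mul_eq_zero] at h3
    rcases h3 with h4 | h4
    · exact h0 h4
    · exact h0 ((map_eq_zero_iff (ra τ) (ra τ).injective).1 h4)
  refine ⟨η, n, h0, h1, hn0, h3, ?_⟩
  rw [mul_pow, hJ, Ideal.span_singleton_pow, Ideal.span_singleton_mul_span_singleton]
  congr 2
  calc γ * ra τ η ^ 2 = (γ * ra τ η) * ra τ η := by ring
    _ = (a : 𝓞 K) * (η * ra τ η) := by rw [h2]; ring
    _ = _ := by rw [h3]; push_cast; ring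

theorem fix_of_sq {J : Ideal (𝓞 K)} {r : ℤ} (hJ : J ^ 2 = span {((r : ℤ) : 𝓞 K)})
    (ρ : K ≃ₐ[ℚ] K) : ia ρ J = J := by
  apply ideal_sq_inj
  rw [← ia_pow, hJ, ia_int]

theorem exists_coprime_elt {I : Ideal (𝓞 K)} (hI : I ≠ ⊥) {p : ℤ} (hp : p ≠ 0) :
    ∃ (z : 𝓞 K) (C : Ideal (𝓞 K)), span {z} = I * C ∧ IsCoprime (span {((p : ℤ) : 𝓞 K)}) C := by
  have h1 : I * span {((p : ℤ) : 𝓞 K)} ≤ I := Ideal.mul_le_left
  have h2 : I * span {((p : ℤ) : 𝓞 K)} ≠ 0 := by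
    apply mul_ne_zero hI
    rw [Ne, Ideal.zero_eq_bot, Ideal.span_singleton_eq_bot]
    exact_mod_cast hp
  obtain ⟨z, hz⟩ := IsDedekindDomain.exists_sup_span_eq h1 h2
  have h3 : span {z} ≤ I := by rw [← hz]; exact le_sup_right
  obtain ⟨C, hC⟩ := Ideal.dvd_iff_le.2 h3
  refine ⟨z, C, hC, ?_⟩
  rw [Ideal.isCoprime_iff_sup_eq]
  rw [hC, ← Ideal.mul_sup] at hz
  have h4 : I * (span {((p : ℤ) : 𝓞 K)} ⊔ C) = I * ⊤ := by rw [hz, Ideal.mul_top]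
  exact mul_left_cancel₀ hI h4

theorem isCoprime_ia {I J : Ideal (𝓞 K)} (h : IsCoprime I J) (ρ : K ≃ₐ[ℚ] K) :
    IsCoprime (ia ρ I) (ia ρ J) := by
  rw [Ideal.isCoprime_iff_sup_eq] at h ⊢
  rw [← ia_sup, h, ia_top]

/-- the divisibility step: from all norm elements of `J` divisible by `P` to `J ≤ (P)`. -/
theorem dvd_of_elts (hv : V4 σ τ) {I : Ideal (𝓞 K)} (hI : I ≠ ⊥) {η : 𝓞 K}
    (hη : ra σ η = η) {r : ℤ} (hr : r ≠ 0)
    (hJ : (I * ia σ I * span {η}) ^ 2 = span {((r : ℤ) : 𝓞 K)}) {p : ℤ} (hp : p ≠ 0) (k : ℕ)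
    (hx : ∀ x ∈ I * ia σ I * span {η}, ra σ x = x → ((p ^ (k + 1) : ℤ) : 𝓞 K) ∣ x) :
    p ^ (2 * k + 2) ∣ r := by
  obtain ⟨z, C, hz, hC⟩ := exists_coprime_elt hI hp
  set J := I * ia σ I * span {η} with hJdef
  have hzI : z ∈ I := by
    have h0 : span {z} ≤ I := by rw [hz]; exact Ideal.mul_le_left
    exact h0 (Ideal.mem_span_singleton_self z)
  have hx1 : z * ra σ z * η ∈ J := by
    apply Ideal.mul_mem_mul (Ideal.mul_mem_mul hzI (ra_mem_ia σ hzI)) (Ideal.mem_span_singleton_self η)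
  have hx2 : ra σ (z * ra σ z * η) = z * ra σ z * η := by
    rw [map_mul, map_mul, hη, ← ra_mul, hv.ss, ra_one]; ring
  have hx3 := hx _ hx1 hx2
  have hx4 : span {((p ^ (k + 1) : ℤ) : 𝓞 K)} ∣ J * (C * ia σ C) := by
    rw [Ideal.dvd_iff_le]
    have h1 : J * (C * ia σ C) = span {z * ra σ z * η} := by
      have h2 : span {z * ra σ z * η} = span {z} * ia σ (span {z}) * span {η} := by
        rw [ia_span, Ideal.span_singleton_mul_span_singleton, Ideal.span_singleton_mul_span_singleton]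
      rw [h2, hz, ia_mul, hJdef]; ring
    rw [h1, Ideal.span_singleton_le_span_singleton]
    exact hx3
  have hC2 : IsCoprime (span {((p : ℤ) : 𝓞 K)}) (ia σ C) := by
    have := isCoprime_ia hC σ
    rwa [ia_int] at this
  have hC3 : IsCoprime (span {((p ^ (k + 1) : ℤ) : 𝓞 K)}) (C * ia σ C) := by
    have : span {((p ^ (k + 1) : ℤ) : 𝓞 K)} = span {((p : ℤ) : 𝓞 K)} ^ (k + 1) := by
      rw [Ideal.span_singleton_pow]; push_cast; rfl
    rw [this]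
    exact (hC.mul_right hC2).pow_left
  have hx5 : span {((p ^ (k + 1) : ℤ) : 𝓞 K)} ∣ J := by
    rw [mul_comm] at hx4
    exact hC3.dvd_of_dvd_mul_left hx4
  have hx6 : span {((p ^ (2 * k + 2) : ℤ) : 𝓞 K)} ∣ span {((r : ℤ) : 𝓞 K)} := by
    rw [← hJ]
    have : span {((p ^ (2 * k + 2) : ℤ) : 𝓞 K)} = span {((p ^ (k + 1) : ℤ) : 𝓞 K)} ^ 2 := by
      rw [Ideal.span_singleton_pow]; congr 2; push_cast; ring
    rw [this]
    exact pow_dvd_pow_of_dvd hx5 2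
  exact span_int_dvd hx6

theorem elt_facts (hv : V4 σ τ) {D : ℤ} {s : 𝓞 K} (h : Rt σ τ D s) {J : Ideal (𝓞 K)} {r : ℤ}
    (hJ : J ^ 2 = span {((r : ℤ) : 𝓞 K)}) {x : 𝓞 K} (hx : x ∈ J) (hxσ : ra σ x = x) :
    ∃ t b n : ℤ, 2 * x = (t : 𝓞 K) + (b : 𝓞 K) * s ∧ r ∣ t ^ 2 ∧ r ∣ b ^ 2 * D ∧ r ∣ n ∧
      4 * n = t ^ 2 - b ^ 2 * D := by
  have hxt : ra τ x ∈ J := by
    have := ra_mem_ia τ hx
    rwa [fix_of_sq hJ τ] at this
  have hmem : ∀ y z : 𝓞 K, y ∈ J → z ∈ J → ((r : ℤ) : 𝓞 K) ∣ y * z := by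
    intro y z hy hz
    have h1 : y * z ∈ J ^ 2 := by rw [sq]; exact Ideal.mul_mem_mul hy hz
    rw [hJ, Ideal.mem_span_singleton] at h1
    exact h1
  have hτσ : ra σ (ra τ x) = ra τ x := by rw [← ra_mul, hv.comm, ra_mul, hxσ]
  have hττ : ra τ (ra τ x) = x := by rw [← ra_mul, hv.tt, ra_one]
  obtain ⟨t, ht⟩ : ∃ t : ℤ, x + ra τ x = (t : 𝓞 K) := by
    apply hv.fixed_int
    · rw [map_add, hxσ, hτσ]
    · rw [map_add, hττ, add_comm]
  obtain ⟨b, hb⟩ : ∃ b : ℤ, x - ra τ x = (b : 𝓞 K) * s := by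
    apply anti hv h
    · rw [map_sub, hxσ, hτσ]
    · rw [map_sub, hττ]; ring
  obtain ⟨n, hn⟩ : ∃ n : ℤ, x * ra τ x = (n : 𝓞 K) := norm_sub_int hv hxσ
  refine ⟨t, b, n, ?_, ?_, ?_, ?_, ?_⟩
  · rw [← ht, ← hb]; ring
  · apply int_dvd_of_coe (K := K)
    have : ((t ^ 2 : ℤ) : 𝓞 K) = (x + ra τ x) * (x + ra τ x) := by rw [ht]; push_cast; ring
    rw [this]
    exact hmem _ _ (J.add_mem hx hxt) (J.add_mem hx hxt)
  · apply int_dvd_of_coe (K := K)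
    have : ((b ^ 2 * D : ℤ) : 𝓞 K) = (x - ra τ x) * (x - ra τ x) := by
      rw [hb]; push_cast; rw [← h.sq]; ring
    rw [this]
    exact hmem _ _ (J.sub_mem hx hxt) (J.sub_mem hx hxt)
  · apply int_dvd_of_coe (K := K)
    rw [← hn]
    exact hmem _ _ hx hxt
  · have : ((4 * n : ℤ) : 𝓞 K) = ((t ^ 2 - b ^ 2 * D : ℤ) : 𝓞 K) := by
      push_cast
      rw [← h.sq]
      have e1 : ((b : ℤ) : 𝓞 K) ^ 2 * (s * s) = ((b : 𝓞 K) * s) ^ 2 := by ring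
      rw [e1, ← hb, ← ht, ← hn]; ring
    exact_mod_cast this

theorem int_pow_dvd_sq {p : ℤ} (hp : Prime p) {k : ℕ} {t : ℤ} (h : p ^ (2 * k + 1) ∣ t ^ 2) :
    p ^ (k + 1) ∣ t := by
  by_cases ht : t = 0
  · subst ht; exact dvd_zero _
  have hf : FiniteMultiplicity p t := Int.finiteMultiplicity_iff.2 ⟨by
    intro h1
    exact hp.not_isUnit (Int.isUnit_iff_natAbs_eq.2 h1), ht⟩
  have hf2 : FiniteMultiplicity p (t ^ 2) := Int.finiteMultiplicity_iff.2 ⟨by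
    intro h1
    exact hp.not_isUnit (Int.isUnit_iff_natAbs_eq.2 h1), pow_ne_zero _ ht⟩
  rw [hf2.pow_dvd_iff_le_multiplicity] at h
  rw [hf.pow_dvd_iff_le_multiplicity]
  rw [hf.multiplicity_pow hp] at h
  omega

/-- **B-lemma, odd primes**: odd primes not dividing `D` divide `r` to an even power. -/
theorem even_odd_prime (hv : V4 σ τ) {D : ℤ} {s : 𝓞 K} (h : Rt σ τ D s) {I : Ideal (𝓞 K)}
    (hI : I ≠ ⊥) {η : 𝓞 K} (hη : ra σ η = η) {r : ℤ} (hr : r ≠ 0)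
    (hJ : (I * ia σ I * span {η}) ^ 2 = span {((r : ℤ) : 𝓞 K)}) {p : ℤ} (hp : Prime p)
    (hp2 : ¬ p ∣ 2) (hpD : ¬ p ∣ D) {k : ℕ} (hk : p ^ (2 * k + 1) ∣ r) : p ^ (2 * k + 2) ∣ r := by
  apply dvd_of_elts hv hI hη hr hJ hp.ne_zero k
  intro x hx hxσ
  obtain ⟨t, b, n, h1, h2, h3, h4, h5⟩ := elt_facts hv h hJ hx hxσ
  have ht : p ^ (k + 1) ∣ t := int_pow_dvd_sq hp (hk.trans h2)
  have hb : p ^ (k + 1) ∣ b := by
    apply int_pow_dvd_sq hp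
    have hc : IsCoprime (p ^ (2 * k + 1)) D := by
      apply IsCoprime.pow_left
      exact (Prime.coprime_iff_not_dvd hp).2 hpD
    exact hc.dvd_of_dvd_mul_right (hk.trans h3)
  have hc2 : IsCoprime (p ^ (k + 1)) 2 := by
    apply IsCoprime.pow_left
    exact (Prime.coprime_iff_not_dvd hp).2 hp2
  have h6 : ((p ^ (k + 1) : ℤ) : 𝓞 K) ∣ 2 * x := by
    rw [h1]
    exact dvd_add (Int.cast_dvd_cast _ _ ht) (Dvd.dvd.mul_right (Int.cast_dvd_cast _ _ hb) _)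
  have hc3 : IsCoprime ((p ^ (k + 1) : ℤ) : 𝓞 K) 2 := by
    have := hc2.map (Int.castRingHom (𝓞 K))
    simpa using this
  exact hc3.dvd_of_dvd_mul_left h6

theorem parity_aux {t b D n : ℤ} (hD : D % 4 = 1) (h : 2 * n = t ^ 2 - b ^ 2 * D) :
    ∃ m : ℤ, t = b + 2 * m := by
  have h1 : Even (t ^ 2 - b ^ 2 * D) := ⟨n, by rw [← h]; ring⟩
  have h2 : ¬ Even D := by
    rw [Int.not_even_iff_odd, Int.odd_iff]; omega
  rw [Int.even_sub, Int.even_mul, Int.even_pow' two_ne_zero, Int.even_pow' two_ne_zero] at h1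
  have h3 : Even (t - b) := by
    rw [Int.even_sub]; tauto
  obtain ⟨m, hm⟩ := h3
  exact ⟨m, by omega⟩

/-- **B-lemma at 2**. -/
theorem even_two (hv : V4 σ τ) {D : ℤ} {s : 𝓞 K} (h : Rt σ τ D s) {I : Ideal (𝓞 K)}
    (hI : I ≠ ⊥) {η : 𝓞 K} (hη : ra σ η = η) {r : ℤ} (hr : r ≠ 0)
    (hJ : (I * ia σ I * span {η}) ^ 2 = span {((r : ℤ) : 𝓞 K)})
    (hD4 : D % 4 = 1) {k : ℕ} (hk : (2 : ℤ) ^ (2 * k + 1) ∣ r) : (2 : ℤ) ^ (2 * k + 2) ∣ r := by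
  apply dvd_of_elts hv hI hη hr hJ (by norm_num : (2 : ℤ) ≠ 0) k
  intro x hx hxσ
  obtain ⟨t, b, n, h1, h2, h3, h4, h5⟩ := elt_facts hv h hJ hx hxσ
  have hp : Prime (2 : ℤ) := Int.prime_two
  have ht : (2 : ℤ) ^ (k + 1) ∣ t := int_pow_dvd_sq hp (hk.trans h2)
  have hb : (2 : ℤ) ^ (k + 1) ∣ b := by
    apply int_pow_dvd_sq hp
    have hc : IsCoprime ((2 : ℤ) ^ (2 * k + 1)) D := by
      apply IsCoprime.pow_left
      refine (Prime.coprime_iff_not_dvd hp).2 ?_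
      omega
    exact hc.dvd_of_dvd_mul_right (hk.trans h3)
  obtain ⟨t', rfl⟩ := ht
  obtain ⟨b', rfl⟩ := hb
  obtain ⟨n', hn'⟩ := hk.trans h4
  -- 4 n = 2^(2k+2) (t'^2 - b'^2 D)
  have h6 : 2 * n' = t' ^ 2 - b' ^ 2 * D := by
    have h7 : (2 : ℤ) ^ (2 * k + 2) * (2 * n') = (2 : ℤ) ^ (2 * k + 2) * (t' ^ 2 - b' ^ 2 * D) := by
      calc (2 : ℤ) ^ (2 * k + 2) * (2 * n') = 4 * (2 ^ (2 * k + 1) * n') := by ring
        _ = 4 * n := by rw [hn']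
        _ = _ := by rw [h5]; ring
    exact mul_left_cancel₀ (pow_ne_zero _ two_ne_zero) h7
  -- parity
  have hpar : ∃ m : ℤ, t' = b' + 2 * m := parity_aux hD4 h6
  obtain ⟨m, rfl⟩ := hpar
  obtain ⟨e, he⟩ : ∃ e : ℤ, D = 1 + 4 * e := ⟨D / 4, by omega⟩
  -- the element (b' + s b')/2 + m is integral
  have hint : ∃ y : 𝓞 K, 2 * y = ((b' + 2 * m : ℤ) : 𝓞 K) + (b' : 𝓞 K) * s := by
    have hsK : (s : K) * (s : K) = ((D : ℤ) : K) := by
      have := congrArg (algebraMap (𝓞 K) K) h.sq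
      simpa using this
    have hω : IsIntegral ℤ ((1 + (s : K)) / 2) := by
      refine ⟨Polynomial.X ^ 2 - Polynomial.X - Polynomial.C e, ?_, ?_⟩
      · have : (Polynomial.X ^ 2 - Polynomial.X - Polynomial.C e : Polynomial ℤ) =
          Polynomial.X ^ 2 + (- Polynomial.X - Polynomial.C e) := by ring
        rw [this]
        apply Polynomial.monic_X_pow_add
        have h1 : (-Polynomial.X - Polynomial.C e : Polynomial ℤ).degree ≤ 1 := by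
          refine (Polynomial.degree_sub_le _ _).trans ?_
          rw [Polynomial.degree_neg, Polynomial.degree_X]
          exact max_le le_rfl (Polynomial.degree_C_le.trans (by norm_num))
        exact lt_of_le_of_lt h1 (by norm_num)
      · simp only [Polynomial.eval₂_sub, Polynomial.eval₂_pow, Polynomial.eval₂_X,
          Polynomial.eval₂_C]
        have h4 : (4 : K) ≠ 0 := by norm_num
        have : ((1 + (s : K)) / 2) ^ 2 - (1 + (s : K)) / 2 - ((e : ℤ) : K) =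
          ((s : K) * (s : K) - (1 + 4 * ((e : ℤ) : K))) / 4 := by ring
        have h5 : (algebraMap ℤ K) e = ((e : ℤ) : K) := rfl
        rw [h5, this, hsK, he]
        push_cast
        ring
    let ω : 𝓞 K := ⟨(1 + (s : K)) / 2, hω⟩
    have hωs : 2 * ω = 1 + s := by
      apply RingOfIntegers.coe_injective
      have h3 : algebraMap (𝓞 K) K ω = (1 + (s : K)) / 2 := rfl
      have h2 : algebraMap (𝓞 K) K (2 * ω) = algebraMap (𝓞 K) K (1 + s) := by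
        rw [map_mul, map_add, map_one, map_ofNat, h3]
        have h4 : algebraMap (𝓞 K) K s = (s : K) := rfl
        rw [h4]
        ring
      exact h2
    refine ⟨(b' : 𝓞 K) * ω + (m : 𝓞 K), ?_⟩
    push_cast
    calc 2 * ((b' : 𝓞 K) * ω + (m : 𝓞 K)) = (b' : 𝓞 K) * (2 * ω) + 2 * (m : 𝓞 K) := by ring
      _ = _ := by rw [hωs]; ring
  obtain ⟨y, hy⟩ := hint
  refine ⟨y, ?_⟩
  have h20 : (2 : 𝓞 K) ≠ 0 := two_ne_zero
  apply mul_left_cancel₀ h20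
  rw [h1]
  calc _ = (((2 : ℤ) ^ (k + 1) : ℤ) : 𝓞 K) * (((b' + 2 * m : ℤ) : 𝓞 K) + (b' : 𝓞 K) * s) := by
        push_cast; ring
    _ = _ := by rw [← hy]; ring

end

end Pool.Agent.H471R2
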