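import Pool.Agent.H471R2.Bq.Bound2
set_option autoImplicit false
set_option linter.all false
open NumberField Ideal nonZeroDivisors

namespace Pool.Agent.H471R2

variable {K : Type*} [Field K] [NumberField K] [IsGalois ℚ K] {σ τ : K ≃ₐ[ℚ] K}

/-- class modulo rational ideals of a nonzero integral element -/
theorem sc_eq {x : 𝓞 K} (hx : x ≠ 0) : sc x = QuotientGroup.mk (toFI (span {x}) (span_ne_bot hx)) := by
  unfold sc
  rw [dif_neg hx, toFI_span hx]

theorem sc_mul {x y : 𝓞 K} (hx : x ≠ 0) (hy : y ≠ 0) : sc (x * y) = sc x * sc y := by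
  unfold sc
  rw [dif_neg hx, dif_neg hy, dif_neg (mul_ne_zero hx hy)]
  have : (Units.mk0 ((x * y : 𝓞 K) : K) (by simpa using (⟨hx, hy⟩ : x ≠ 0 ∧ y ≠ 0))) =
      Units.mk0 (x : K) (by simpa using hx) * Units.mk0 (y : K) (by simpa using hy) := by
    apply Units.ext; simp
  rw [this, map_mul]
  exact QuotientGroup.mk_mul _ _ _

/-- `sc x = 1` iff `x` is a rational number times a unit. -/
theorem sc_one {x : 𝓞 K} (hx : x ≠ 0) (h : sc x = 1) :
    ∃ (q : ℚ) (u : (𝓞 K)ˣ), q ≠ 0 ∧ (x : K) = (q : K) * ((u : 𝓞 K) : K) := by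
  unfold sc at h
  rw [dif_neg hx, QuotientGroup.eq_one_iff] at h
  obtain ⟨q, hq⟩ := h
  unfold pq at hq
  rw [MonoidHom.comp_apply] at hq
  obtain ⟨u, hu⟩ := unit_of_tpi_eq hq.symm
  refine ⟨q, u, q.ne_zero, ?_⟩
  rw [Units.val_mk0] at hu
  rw [hu]
  simp

/-- membership of `sc x` in `MM D ⊓ NN`. -/
theorem sc_mem {x : 𝓞 K} (hx : x ≠ 0) {r : ℤ} (hr : r ≠ 0) {D : ℤ}
    (h : (span {x} : Ideal (𝓞 K)) ^ 2 = span {((r : ℤ) : 𝓞 K)}) (hE : EvenAt D (r : ℚ)) :
    sc x ∈ MM K D ⊓ NN K := by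
  rw [sc_eq hx]
  have hx2 : (span {x} : Ideal (𝓞 K)) ^ 2 ≠ ⊥ := pow_ne_zero 2 (span_ne_bot hx)
  have h1 : (toFI (span {x}) (span_ne_bot hx)) ^ 2 = pq K (Units.mk0 (r : ℚ) (by exact_mod_cast hr)) := by
    rw [← toFI_sq _ _ hx2, toFI_congr h, toFI_span_int hr]
  refine ⟨⟨_, ⟨_, h1, by simpa using hE⟩, rfl⟩, ⟨_, ⟨?_, ?_⟩, rfl⟩⟩
  · change (toFI (span {x}) (span_ne_bot hx)) ^ 2 ∈ PQ K
    rw [h1]; exact ⟨_, rfl⟩
  · change ClassGroup.mk K _ = 1
    rw [mk_toFI]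
    exact cl_span hx _

theorem evenAt_of {D : ℤ} {r : ℤ} (hr : r ≠ 0)
    (h : ∀ p : ℤ, Prime p → ¬ p ∣ 2 → ¬ p ∣ D → ∀ k : ℕ, p ^ (2 * k + 1) ∣ r → p ^ (2 * k + 2) ∣ r) :
    EvenAt D (r : ℚ) := by
  intro p hp hp2 hpD
  haveI : Fact p.Prime := ⟨hp⟩
  rw [padicValRat.of_int]
  have hpI : Prime (p : ℤ) := Nat.prime_iff_prime_int.1 hp
  have hp2' : ¬ (p : ℤ) ∣ 2 := by
    intro h1
    have : p ∣ 2 := by exact_mod_cast h1
    exact hp2 ((Nat.prime_dvd_prime_iff_eq hp Nat.prime_two).1 this)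
  by_contra hodd
  have hodd' : Odd (padicValInt p r) := by
    rw [← Nat.not_even_iff_odd]
    intro h1
    exact hodd (by exact_mod_cast h1)
  obtain ⟨k, hk⟩ := hodd'
  have h1 : (p : ℤ) ^ (2 * k + 1) ∣ r := by
    rw [padicValInt_dvd_iff]
    right; omega
  have h2 := h p hpI hp2' hpD k h1
  rw [padicValInt_dvd_iff] at h2
  rcases h2 with h3 | h3
  · exact hr h3
  · omega

theorem Rt.D_ne_one (hv : V4 σ τ) {D : ℤ} {s : 𝓞 K} (h : Rt σ τ D s) : ¬ IsSquare D := by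
  rintro ⟨c, hc⟩
  have h1 : (s - (c : 𝓞 K)) * (s + (c : 𝓞 K)) = 0 := by
    have : (s - (c : 𝓞 K)) * (s + (c : 𝓞 K)) = s * s - ((c * c : ℤ) : 𝓞 K) := by push_cast; ring
    rw [this, h.sq, hc, sub_self]
  have h2 : ra τ s = s := by
    rcases mul_eq_zero.1 h1 with h3 | h3
    · rw [sub_eq_zero.1 h3, map_intCast]
    · rw [eq_neg_of_add_eq_zero_left h3, map_neg, map_intCast]
  rw [h.ft] at h2
  have h3 : (2 : 𝓞 K) * s = 0 := by
    linear_combination (-1 : 𝓞 K) * h2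
  rcases mul_eq_zero.1 h3 with h4 | h4
  · exact two_ne_zero h4
  · exact h.s_ne_zero h4

theorem sq_ne {r : ℤ} {q : ℚ} {x : 𝓞 K} {u : (𝓞 K)ˣ}
    (h : (span {x} : Ideal (𝓞 K)) ^ 2 = span {((r : ℤ) : 𝓞 K)})
    (hx : (x : K) = (q : K) * ((u : 𝓞 K) : K)) : IsSquare r ∨ IsSquare (-r) := by
  -- the denominators
  have hxd : (x * (q.den : 𝓞 K)) = ((q.num : ℤ) : 𝓞 K) * (u : 𝓞 K) := by
    apply RingOfIntegers.coe_injective
    rw [map_mul, map_mul]
    change (x : K) * _ = _ * ((u : 𝓞 K) : K)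
    rw [hx]
    have h1 : (q : K) * (q.den : K) = (q.num : K) := by
      have : (q : ℚ) * q.den = q.num := Rat.mul_den_eq_num q
      exact_mod_cast congrArg (fun z : ℚ => (z : K)) this
    simp only [map_natCast, map_intCast]
    calc (q : K) * ((u : 𝓞 K) : K) * (q.den : K) = ((q : K) * (q.den : K)) * ((u : 𝓞 K) : K) := by ring
      _ = _ := by rw [h1]
  have h2 : span {((r * (q.den : ℤ) ^ 2 : ℤ) : 𝓞 K)} = (span {((q.num ^ 2 : ℤ) : 𝓞 K)} : Ideal (𝓞 K)) := by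
    have e1 : span {((r * (q.den : ℤ) ^ 2 : ℤ) : 𝓞 K)} = (span {x} : Ideal (𝓞 K)) ^ 2 * span {(q.den : 𝓞 K)} ^ 2 := by
      rw [h, Ideal.span_singleton_pow, Ideal.span_singleton_mul_span_singleton]
      congr 2; push_cast; ring
    rw [e1, ← mul_pow, Ideal.span_singleton_mul_span_singleton, hxd, Ideal.span_singleton_pow]
    rw [Ideal.span_singleton_eq_span_singleton]
    refine ⟨(u ^ 2)⁻¹, ?_⟩
    rw [Units.mul_inv_eq_iff_eq_mul]
    push_cast; ring
  have h3 : r * (q.den : ℤ) ^ 2 ∣ q.num ^ 2 := span_int_dvd (K := K) (by rw [h2])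
  have h4 : q.num ^ 2 ∣ r * (q.den : ℤ) ^ 2 := span_int_dvd (K := K) (by rw [h2])
  have h5 := associated_of_dvd_dvd h3 h4
  have hden : (q.den : ℤ) ≠ 0 := by exact_mod_cast q.den_nz
  have key : ∀ r' : ℤ, r' * (q.den : ℤ) ^ 2 = q.num ^ 2 → IsSquare r' := by
    intro r' h6
    have h7 : IsSquare ((r' : ℤ) : ℚ) := by
      refine ⟨q.num / q.den, ?_⟩
      have hdq : (q.den : ℚ) ≠ 0 := by exact_mod_cast q.den_nz
      have h8 : (r' : ℚ) * (q.den : ℚ) ^ 2 = (q.num : ℚ) ^ 2 := by exact_mod_cast h6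
      field_simp
      exact h8
    exact Rat.isSquare_intCast_iff.1 h7
  rcases Int.associated_iff.1 h5 with h6 | h6
  · left; exact key r h6
  · right; apply key; rw [neg_mul, h6, neg_neg]

theorem two_le_card_of {G : Type*} [Group G] (H : Subgroup G) [Finite H] {x : G} (hx : x ∈ H)
    (hx1 : x ≠ 1) : 2 ≤ Nat.card H := by
  have : Nontrivial H := ⟨⟨⟨x, hx⟩, 1, fun h => hx1 (congrArg Subtype.val h)⟩⟩
  exact Finite.one_lt_card

theorem four_le_card_of {G : Type*} [Group G] (H : Subgroup G) [Finite H] {x y : G} (hx : x ∈ H)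
    (hy : y ∈ H) (hx1 : x ≠ 1) (hy1 : y ≠ 1) (hxy : x ≠ y) (hxy1 : x * y ≠ 1) : 4 ≤ Nat.card H := by
  classical
  haveI := Fintype.ofFinite H
  rw [Nat.card_eq_fintype_card]
  let S : Finset H := {1, ⟨x, hx⟩, ⟨y, hy⟩, ⟨x * y, H.mul_mem hx hy⟩}
  have hS : S.card = 4 := by
    simp only [S]
    rw [Finset.card_insert_of_notMem, Finset.card_insert_of_notMem, Finset.card_insert_of_notMem,
      Finset.card_singleton]
    · simp only [Finset.mem_singleton, Subtype.mk.injEq]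
      intro h
      exact hx1 (mul_eq_right.1 h.symm)
    · simp only [Finset.mem_insert, Finset.mem_singleton, Subtype.mk.injEq, not_or]
      refine ⟨hxy, fun h => hy1 (mul_eq_left.1 h.symm)⟩
    · simp only [Finset.mem_insert, Finset.mem_singleton, not_or]
      refine ⟨fun h => hx1 (congrArg Subtype.val h).symm, fun h => hy1 (congrArg Subtype.val h).symm,
        fun h => hxy1 (congrArg Subtype.val h).symm⟩
  rw [← hS]
  exact Finset.card_le_univ S

theorem span_s_sq {D : ℤ} {s : 𝓞 K} (h : Rt σ τ D s) :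
    (span {s} : Ideal (𝓞 K)) ^ 2 = span {((D : ℤ) : 𝓞 K)} := by
  rw [Ideal.span_singleton_pow, sq, h.sq]

theorem sc_s_mem {D : ℤ} {s : 𝓞 K} (h : Rt σ τ D s) : sc s ∈ MM K D ⊓ NN K := by
  apply sc_mem h.s_ne_zero h.D_ne_zero (span_s_sq h)
  apply evenAt_of h.D_ne_zero
  intro p hp h2 hD k hk
  exact absurd ((dvd_pow_self p (Nat.succ_ne_zero _)).trans hk) hD

theorem finite_inf (G : Type*) [Group G] (A B : Subgroup G) [Finite B] : Finite (A ⊓ B : Subgroup G) :=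
  Finite.of_injective (Subgroup.inclusion (inf_le_right : A ⊓ B ≤ B)) (Subgroup.inclusion_injective _)

theorem MN_ge2 (hv : V4 σ τ) {D : ℤ} {s : 𝓞 K} (h : Rt σ τ D s) [Finite (NN K)] :
    2 ≤ Nat.card (MM K D ⊓ NN K : Subgroup _) := by
  haveI : Finite (MM K D ⊓ NN K : Subgroup _) := finite_inf _ _ _
  have hns := h.D_ne_one hv
  by_cases hD : D = -1
  · -- use 1 + s
    have hs2 : (1 + s) * (1 + s) = 2 * s := by
      have := h.sq
      rw [hD] at this
      push_cast at this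
      linear_combination this
    have hx0 : 1 + s ≠ 0 := by
      intro h0
      rw [h0, mul_zero] at hs2
      rcases mul_eq_zero.1 hs2.symm with h4 | h4
      · exact two_ne_zero h4
      · exact h.s_ne_zero h4
    have hsp : (span {1 + s} : Ideal (𝓞 K)) ^ 2 = span {((2 : ℤ) : 𝓞 K)} := by
      rw [Ideal.span_singleton_pow, sq, hs2, Ideal.span_singleton_eq_span_singleton]
      have hu : (-s) * s = 1 := by
        rw [neg_mul, h.sq, hD]; simp
      refine ⟨⟨-s, s, hu, by rw [mul_comm]; exact hu⟩, ?_⟩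
      change 2 * s * -s = _
      rw [mul_assoc, mul_comm s, hu]; simp
    apply two_le_card_of _ (sc_mem hx0 (by norm_num : (2 : ℤ) ≠ 0) hsp (D := D) ?_)
    · intro h1
      obtain ⟨q, u, hq, hxq⟩ := sc_one hx0 h1
      rcases sq_ne hsp hxq with h2 | h2
      · exact Int.prime_two.irreducible.not_isSquare h2
      · obtain ⟨c, hc⟩ := h2
        nlinarith [mul_self_nonneg c]
    · apply evenAt_of (by norm_num)
      intro p hp h2 hD k hk
      exact absurd ((dvd_pow_self p (Nat.succ_ne_zero _)).trans hk) h2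
  · apply two_le_card_of _ (sc_s_mem h)
    intro h1
    obtain ⟨q, u, hq, hxq⟩ := sc_one h.s_ne_zero h1
    rcases sq_ne (span_s_sq h) hxq with h2 | ⟨c, hc⟩
    · exact hns h2
    · have hc1 : c * c ∣ D := ⟨-1, by rw [← hc]; ring⟩
      have hcu := h.sf c hc1
      rcases Int.isUnit_iff.1 hcu with h3 | h3
      · rw [h3] at hc; omega
      · rw [h3] at hc; omega

end Pool.Agent.H471R2
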