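import Pool.Agent.H471R2.Bq.Lower
set_option autoImplicit false
set_option linter.all false
open NumberField Ideal nonZeroDivisors

namespace Pool.Agent.H471R2

variable {K : Type*} [Field K] [NumberField K] [IsGalois ℚ K] {σ τ : K ≃ₐ[ℚ] K}

theorem unit_norm (hv : V4 σ τ) {v : (𝓞 K)ˣ} (h : ra σ (v : 𝓞 K) = v) :
    (v : 𝓞 K) * ra τ (v : 𝓞 K) = 1 ∨ (v : 𝓞 K) * ra τ (v : 𝓞 K) = -1 := by
  obtain ⟨n, hn⟩ := norm_sub_int hv h
  have hu : IsUnit ((v : 𝓞 K) * ra τ (v : 𝓞 K)) := v.isUnit.mul (v.isUnit.map (ra τ))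
  rw [hn] at hu
  obtain ⟨w, hw⟩ := hu
  have h1 : ((n : ℤ) : 𝓞 K) ∣ ((1 : ℤ) : 𝓞 K) := by
    rw [← hw]; exact w.isUnit.dvd
  have h2 := int_dvd_of_coe h1
  rcases Int.isUnit_iff.1 (isUnit_of_dvd_one h2) with h3 | h3
  · left; rw [hn, h3]; simp
  · right; rw [hn, h3]; simp

theorem D_pos (φ : K →+* ℝ) {D : ℤ} {s : 𝓞 K} (h : Rt σ τ D s) : 0 < D ∧ φ (s : K) ^ 2 = D := by
  have h1 : φ (s : K) ^ 2 = D := by
    have := congrArg (algebraMap (𝓞 K) K) h.sq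
    rw [map_mul] at this
    have h2 := congrArg φ this
    rw [map_mul] at h2
    simp only [map_intCast] at h2
    rw [sq]; exact h2
  refine ⟨?_, h1⟩
  have h2 : (0 : ℝ) ≤ D := by rw [← h1]; positivity
  have h3 : (0 : ℤ) ≤ D := by exact_mod_cast h2
  exact lt_of_le_of_ne h3 h.D_ne_zero.symm

theorem exists_unit (hv : V4 σ τ) {D : ℤ} {s : 𝓞 K} (h : Rt σ τ D s) (φ : K →+* ℝ) (hU : ¬ UU σ τ) :
    ∃ ε : (𝓞 K)ˣ, ra σ (ε : 𝓞 K) = ε ∧ (ε : 𝓞 K) * ra τ (ε : 𝓞 K) = 1 ∧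
      ∀ v : (𝓞 K)ˣ, ra σ (v : 𝓞 K) = v → (ε : 𝓞 K) ≠ (v : 𝓞 K) ^ 2 ∧ -(ε : 𝓞 K) ≠ (v : 𝓞 K) ^ 2 := by
  classical
  obtain ⟨hD, hφs⟩ := D_pos φ h
  let P : ℕ → Prop := fun t => ∃ ε : (𝓞 K)ˣ, ra σ (ε : 𝓞 K) = ε ∧ (ε : 𝓞 K) * ra τ (ε : 𝓞 K) = 1 ∧
    1 < φ ((ε : 𝓞 K) : K) ∧ (ε : 𝓞 K) + ra τ (ε : 𝓞 K) = (t : 𝓞 K)
  have hP : ∃ t, P t := by
    obtain ⟨x, y, hxy, hy⟩ := Pell.exists_of_not_isSquare hD (h.D_ne_one hv)
    have hφ0 : φ (s : K) ≠ 0 := by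
      intro h0
      rw [h0] at hφs
      have : (D : ℝ) ≠ 0 := by exact_mod_cast hD.ne'
      exact this (by rw [← hφs]; simp)
    -- choose sign
    obtain ⟨y', hy', hyy⟩ : ∃ y' : ℤ, y' ^ 2 = y ^ 2 ∧ 0 < (y' : ℝ) * φ (s : K) := by
      have hyR : (y : ℝ) ≠ 0 := by exact_mod_cast hy
      rcases lt_or_gt_of_ne (mul_ne_zero hyR hφ0) with h1 | h1
      · exact ⟨-y, by ring, by push_cast; linarith⟩
      · exact ⟨y, rfl, h1⟩
    set a : 𝓞 K := ((|x| : ℤ) : 𝓞 K) + (y' : 𝓞 K) * s with ha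
    have hτa : ra τ a = ((|x| : ℤ) : 𝓞 K) - (y' : 𝓞 K) * s := by
      rw [ha, map_add, map_mul, map_intCast, map_intCast, h.ft]; ring
    have hn : a * ra τ a = 1 := by
      rw [hτa, ha]
      have : (((|x| : ℤ) : 𝓞 K) + (y' : 𝓞 K) * s) * (((|x| : ℤ) : 𝓞 K) - (y' : 𝓞 K) * s) =
        ((|x| ^ 2 : ℤ) : 𝓞 K) - ((y' ^ 2 : ℤ) : 𝓞 K) * (s * s) := by push_cast; ring
      rw [this, h.sq, sq_abs, hy', ← Int.cast_mul, ← Int.cast_sub]
      have h2 : x ^ 2 - y ^ 2 * D = 1 := by rw [← hxy]; ring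
      rw [h2]; simp
    refine ⟨(2 * |x|).toNat, ⟨a, ra τ a, hn, by rw [mul_comm]; exact hn⟩, ?_, hn, ?_, ?_⟩
    · change ra σ a = a
      rw [ha, map_add, map_mul, map_intCast, map_intCast, h.fs]
    · change 1 < φ (a : K)
      have h3 : φ (a : K) = (|x| : ℝ) + (y' : ℝ) * φ (s : K) := by
        have : (a : K) = ((|x| : ℤ) : K) + (y' : K) * (s : K) := by
          rw [ha]; simp
        rw [this, map_add, map_mul, map_intCast, map_intCast]; simp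
      rw [h3]
      have h4 : (1 : ℝ) ≤ |(x : ℝ)| := by
        have h5 : x ≠ 0 := by
          rintro rfl
          have : (0 : ℤ) ^ 2 - D * y ^ 2 ≤ 0 := by nlinarith [sq_nonneg y]
          omega
        have := Int.one_le_abs h5
        exact_mod_cast this
      linarith
    · change a + ra τ a = _
      rw [hτa, ha]
      have h6 : (((2 * |x|).toNat : ℕ) : 𝓞 K) = ((2 * |x| : ℤ) : 𝓞 K) := by
        have h5 : (((2 * |x|).toNat : ℕ) : ℤ) = 2 * |x| := Int.toNat_of_nonneg (by positivity)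
        rw [← Int.cast_natCast (R := 𝓞 K), h5]
      rw [h6]; push_cast; ring
  obtain ⟨ε, e1, e2, e3, e4⟩ := Nat.find_spec hP
  set t := Nat.find hP with ht
  refine ⟨ε, e1, e2, ?_⟩
  intro v hv1
  have hφv : (φ ((v : 𝓞 K) : K)) ^ 2 = φ (((v : 𝓞 K) ^ 2 : 𝓞 K) : K) := by
    have : (((v : 𝓞 K) ^ 2 : 𝓞 K) : K) = ((v : 𝓞 K) : K) ^ 2 := by push_cast; rfl
    rw [this, map_pow]
  constructor
  · intro hsq
    rcases unit_norm hv hv1 with hn | hn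
    swap
    · exact hU ⟨v, hv1, hn⟩
    -- WLOG positive
    obtain ⟨w, hw1, hw2, hw3, hw4⟩ : ∃ w : (𝓞 K)ˣ, ra σ (w : 𝓞 K) = w ∧
        (w : 𝓞 K) * ra τ (w : 𝓞 K) = 1 ∧ (ε : 𝓞 K) = (w : 𝓞 K) ^ 2 ∧ 0 < φ ((w : 𝓞 K) : K) := by
      have hv0 : φ ((v : 𝓞 K) : K) ≠ 0 := by
        rw [Ne, map_eq_zero]
        have := v.ne_zero
        simpa using this
      rcases lt_or_gt_of_ne hv0 with h1 | h1
      · refine ⟨-v, ?_, ?_, ?_, ?_⟩
        · push_cast; rw [map_neg, hv1]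
        · push_cast; rw [map_neg, neg_mul_neg, hn]
        · push_cast; rw [neg_sq, hsq]
        · push_cast; rw [map_neg]; linarith
      · exact ⟨v, hv1, hn, hsq, h1⟩
    have hφw : (φ ((w : 𝓞 K) : K)) ^ 2 = φ ((ε : 𝓞 K) : K) := by
      have : ((ε : 𝓞 K) : K) = ((w : 𝓞 K) : K) ^ 2 := by rw [hw3]; push_cast; rfl
      rw [this, map_pow]
    have hw5 : 1 < φ ((w : 𝓞 K) : K) := by
      by_contra hcon
      push Not at hcon
      have : (φ ((w : 𝓞 K) : K)) ^ 2 ≤ 1 := pow_le_one₀ hw4.le hcon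
      rw [hφw] at this
      linarith
    obtain ⟨t', ht'⟩ : ∃ t' : ℤ, (w : 𝓞 K) + ra τ (w : 𝓞 K) = (t' : 𝓞 K) := by
      apply hv.fixed_int
      · rw [map_add, hw1, ← ra_mul, hv.comm, ra_mul, hw1]
      · rw [map_add, ← ra_mul, hv.tt, ra_one, add_comm]
    have hφt : φ ((w : 𝓞 K) : K) + φ ((ra τ (w : 𝓞 K) : 𝓞 K) : K) = t' := by
      have := congrArg (fun z : 𝓞 K => φ (z : K)) ht'
      simp only [map_add, map_intCast] at this
      exact this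
    have hφm : φ ((w : 𝓞 K) : K) * φ ((ra τ (w : 𝓞 K) : 𝓞 K) : K) = 1 := by
      have := congrArg (fun z : 𝓞 K => φ (z : K)) hw2
      simp only [map_mul, map_one] at this
      exact this
    have ht2 : (2 : ℝ) < t' := by
      rw [← hφt]
      set A := φ ((w : 𝓞 K) : K) with hA
      set B := φ ((ra τ (w : 𝓞 K) : 𝓞 K) : K) with hB
      have hBpos : 0 < B := by
        by_contra hcon
        push Not at hcon
        have := mul_nonpos_of_nonneg_of_nonpos hw4.le hcon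
        linarith
      have hAB : A ≠ B := by
        intro hab
        rw [← hab] at hφm
        nlinarith
      have : 0 < (A - B) ^ 2 := by
        have : A - B ≠ 0 := sub_ne_zero.2 hAB
        positivity
      nlinarith
    have ht3 : 2 < t' := by exact_mod_cast ht2
    have ht4 : t' ^ 2 = (t : ℤ) + 2 := by
      have h7 : ((t' ^ 2 : ℤ) : 𝓞 K) = (((t : ℤ) + 2 : ℤ) : 𝓞 K) := by
        push_cast
        rw [← e4, ← ht', hw3, map_pow]
        linear_combination (2 : 𝓞 K) * hw2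
      exact_mod_cast h7
    have hPt : P t'.toNat := by
      refine ⟨w, hw1, hw2, hw5, ?_⟩
      rw [ht']
      have h9 : ((t'.toNat : ℕ) : ℤ) = t' := Int.toNat_of_nonneg (by omega)
      rw [← Int.cast_natCast (R := 𝓞 K), h9]
    have hmin := Nat.find_min' hP hPt
    rw [← ht] at hmin
    have h8 : (t : ℤ) ≤ t' := by
      have : ((t'.toNat : ℕ) : ℤ) = t' := Int.toNat_of_nonneg (by omega)
      rw [← this]; exact_mod_cast hmin
    nlinarith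
  · intro hsq
    rw [← hsq] at hφv
    have h1 : φ (((-(ε : 𝓞 K)) : 𝓞 K) : K) = - φ ((ε : 𝓞 K) : K) := by
      have : (((-(ε : 𝓞 K)) : 𝓞 K) : K) = - ((ε : 𝓞 K) : K) := by push_cast; rfl
      rw [this, map_neg]
    rw [h1] at hφv
    have := sq_nonneg (φ ((v : 𝓞 K) : K))
    linarith

theorem aux_sq (hv : V4 σ τ) (hU : ¬ UU σ τ) {z : 𝓞 K} (hz0 : z ≠ 0) (hzσ : ra σ z = z)
    (hsc : sc z = 1) : ∃ v : (𝓞 K)ˣ, ra σ (v : 𝓞 K) = v ∧ z ^ 2 = (v : 𝓞 K) ^ 2 * (z * ra τ z) := by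
  obtain ⟨q, v, hq, hzq⟩ := sc_one hz0 hsc
  have hqK : (q : K) ≠ 0 := by exact_mod_cast hq
  have hvσ : ra σ (v : 𝓞 K) = v := by
    apply RingOfIntegers.coe_injective
    change σ ((v : 𝓞 K) : K) = ((v : 𝓞 K) : K)
    have h1 : σ (z : K) = z := by rw [← ra_coe, hzσ]
    rw [hzq, map_mul, map_ratCast] at h1
    exact mul_left_cancel₀ hqK h1
  refine ⟨v, hvσ, ?_⟩
  rcases unit_norm hv hvσ with hn | hn
  swap
  · exact absurd ⟨v, hvσ, hn⟩ hU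
  apply RingOfIntegers.coe_injective
  have h2 : ((ra τ z : 𝓞 K) : K) = (q : K) * ((ra τ (v : 𝓞 K) : 𝓞 K) : K) := by
    rw [ra_coe, hzq, map_mul, map_ratCast, ra_coe]
  have h3 : ((v : 𝓞 K) : K) * ((ra τ (v : 𝓞 K) : 𝓞 K) : K) = 1 := by
    have := congrArg (algebraMap (𝓞 K) K) hn
    rw [map_mul, map_one] at this
    exact this
  rw [map_pow, map_mul, map_mul, map_pow]
  change (z : K) ^ 2 = ((v : 𝓞 K) : K) ^ 2 * ((z : K) * ((ra τ z : 𝓞 K) : K))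
  rw [h2, hzq]
  calc _ = (q : K) ^ 2 * ((v : 𝓞 K) : K) ^ 2 * 1 := by ring
    _ = _ := by rw [← h3]; ring

theorem sc_int {n : ℤ} (hn : n ≠ 0) : sc ((n : ℤ) : 𝓞 K) = 1 := by
  have h0 : ((n : ℤ) : 𝓞 K) ≠ 0 := by exact_mod_cast hn
  rw [sc_eq h0, toFI_span_int hn, QuotientGroup.eq_one_iff]
  exact ⟨_, rfl⟩

theorem MN_ge4 (hv : V4 σ τ) {D : ℤ} {s : 𝓞 K} (h : Rt σ τ D s) (φ : K →+* ℝ) (hU : ¬ UU σ τ)
    [Finite (NN K)] : 4 ≤ Nat.card (MM K D ⊓ NN K : Subgroup _) := by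
  haveI : Finite (MM K D ⊓ NN K : Subgroup _) := finite_inf _ _ _
  obtain ⟨ε, e1, e2, e3⟩ := exists_unit hv h φ hU
  set z : 𝓞 K := 1 + (ε : 𝓞 K) with hz
  have hz0 : z ≠ 0 := by
    intro h0
    have : -(ε : 𝓞 K) = ((1 : (𝓞 K)ˣ) : 𝓞 K) ^ 2 := by
      rw [Units.val_one, one_pow]
      linear_combination (-1 : 𝓞 K) * h0
    exact (e3 1 (by rw [Units.val_one, map_one])).2 this
  have hzσ : ra σ z = z := by rw [hz, map_add, map_one, e1]
  obtain ⟨n, hn⟩ := norm_sub_int hv hzσ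
  have hτz : ra τ z = 1 + ra τ (ε : 𝓞 K) := by rw [hz, map_add, map_one]
  have hz2 : z ^ 2 = (ε : 𝓞 K) * (z * ra τ z) := by
    rw [hτz, hz]
    linear_combination (-(1 + (ε : 𝓞 K))) * e2
  have hn0 : n ≠ 0 := by
    rintro rfl
    rw [Int.cast_zero] at hn
    rw [hn, mul_zero] at hz2
    exact hz0 (pow_eq_zero_iff two_ne_zero |>.1 hz2)
  have hzsp : (span {z} : Ideal (𝓞 K)) ^ 2 = span {((n : ℤ) : 𝓞 K)} := by
    rw [Ideal.span_singleton_pow, hz2, hn, Ideal.span_singleton_eq_span_singleton]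
    exact ⟨ε⁻¹, by rw [mul_comm, ← mul_assoc, Units.inv_mul, one_mul]⟩
  have hzm : sc z ∈ MM K D ⊓ NN K := by
    apply sc_mem hz0 hn0 hzsp
    apply evenAt_of hn0
    intro p hp hp2 hpD k hk
    refine even_odd_prime hv h (I := ⊤) ?_ (η := z) hzσ hn0 ?_ hp hp2 hpD hk
    · intro h0
      have : (1 : 𝓞 K) ∈ (⊥ : Ideal (𝓞 K)) := by rw [← h0]; trivial
      rw [Ideal.mem_bot] at this
      exact one_ne_zero this
    · rw [ia_top, Ideal.top_mul, Ideal.top_mul]; exact hzsp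
  have hsm := sc_s_mem h
  have hDpos := (D_pos φ h).1
  have hx1 : sc s ≠ 1 := by
    intro h1
    obtain ⟨v, hvσ, hv2⟩ := aux_sq hv hU h.s_ne_zero h.fs h1
    -- s² = v² (s * (-s)) so v² = -1
    rw [h.ft] at hv2
    have h3 : (s * s) * ((v : 𝓞 K) ^ 2 + 1) = 0 := by linear_combination hv2
    rcases mul_eq_zero.1 h3 with h4 | h4
    · rcases mul_eq_zero.1 h4 with h5 | h5 <;> exact h.s_ne_zero h5
    · have h5 := congrArg (fun z : 𝓞 K => φ (z : K)) h4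
      simp only [map_add, map_pow, map_one, map_zero] at h5
      have := sq_nonneg (φ (algebraMap (𝓞 K) K (v : 𝓞 K)))
      linarith
  have hy1 : sc z ≠ 1 := by
    intro h1
    obtain ⟨v, hvσ, hv2⟩ := aux_sq hv hU hz0 hzσ h1
    rw [hz2, hn] at hv2
    have hn' : ((n : ℤ) : 𝓞 K) ≠ 0 := by exact_mod_cast hn0
    exact (e3 v hvσ).1 (mul_right_cancel₀ hn' hv2)
  have hxy1 : sc s * sc z ≠ 1 := by
    rw [← sc_mul h.s_ne_zero hz0]
    intro h1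
    have hsz0 : s * z ≠ 0 := mul_ne_zero h.s_ne_zero hz0
    obtain ⟨v, hvσ, hv2⟩ := aux_sq hv hU hsz0 (by rw [map_mul, h.fs, hzσ]) h1
    have h3 : (s * z) ^ 2 = -(ε : 𝓞 K) * (s * z * ra τ (s * z)) := by
      rw [map_mul, h.ft, mul_pow, hz2]; ring
    rw [h3] at hv2
    have h4 : s * z * ra τ (s * z) ≠ 0 := by
      apply mul_ne_zero hsz0
      rw [Ne, map_eq_zero_iff (ra τ) (ra τ).injective]
      exact hsz0
    exact (e3 v hvσ).2 (mul_right_cancel₀ h4 hv2)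
  have hxy : sc s ≠ sc z := by
    intro h1
    apply hxy1
    rw [← h1, ← sc_mul h.s_ne_zero h.s_ne_zero, h.sq]
    exact sc_int h.D_ne_zero
  exact four_le_card_of _ hsm hzm hx1 hy1 hxy hxy1

end Pool.Agent.H471R2
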