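import Pool.Agent.H471R2.Bq.Top
set_option autoImplicit false
set_option linter.all false
open NumberField Ideal nonZeroDivisors

namespace Pool.Agent.H471R2

variable {K : Type*} [Field K] [NumberField K] [IsGalois ℚ K] {σ τ : K ≃ₐ[ℚ] K}

theorem V4.mul_swap (hv : V4 σ τ) : τ * σ = σ * τ := hv.comm.symm

theorem V4.rs (hv : V4 σ τ) : (σ * τ) * σ = τ := by
  rw [mul_assoc, ← hv.comm, hv.sts]

theorem side_good (hv : V4 σ τ) {D : ℤ} {s : 𝓞 K} (h : Rt σ τ D s) {w : ClassGroup (𝓞 K)}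
    (hwσ : w ∈ HI σ) (hwτ : w ∈ HI τ) (hwρ : w ∈ HI (σ * τ))
    (hc : UU σ τ ∨ ¬ UU τ σ ∨ ¬ UU (σ * τ) σ) : w ∈ (MM K D).map θ := by
  obtain ⟨I, hI, α, hα, hIα, hw⟩ := HI_elt hwσ
  rw [hw]
  apply good hv h hI hα hIα
  by_cases hU : UU σ τ
  · right; exact hU
  left
  rcases hc with h1 | h1 | h1
  · exact absurd h1 hU
  · -- pair (στ, σ)
    obtain ⟨I', hI', β, hβ, hIβ, hw'⟩ := HI_elt hwρ
    have hv' : V4 (σ * τ) σ := hv.right.symm
    have hU1 : ¬ UU σ (σ * τ) := fun h2 => hU ((UU_right hv).2 h2)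
    have hU2 : ¬ UU ((σ * τ) * σ) (σ * τ) := by
      rw [hv.rs]
      intro h2
      apply h1
      have := (UU_right hv.symm).2
      rw [hv.mul_swap] at this
      exact this h2
    exact NB hv' hU1 hU2 hI' hI hβ hα hIβ hIα (by rw [← hw', ← hw])
  · obtain ⟨I', hI', β, hβ, hIβ, hw'⟩ := HI_elt hwτ
    have hU2 : ¬ UU (τ * σ) τ := by
      rw [hv.mul_swap]
      intro h2
      apply h1
      -- UU (στ) τ → UU (στ) σ
      have := (UU_right hv.right.symm).2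
      rw [hv.rs] at this
      exact this h2
    exact NB hv.symm hU hU2 hI' hI hβ hα hIβ hIα (by rw [← hw', ← hw])

theorem prime_not_all (hv : V4 σ τ) {D1 D2 D3 : ℤ} {s1 s2 s3 : 𝓞 K} (h1 : Rt σ τ D1 s1)
    (h2 : Rt τ σ D2 s2) (h3 : Rt (σ * τ) σ D3 s3) (p : ℕ) (hp : p.Prime)
    (d1 : (p : ℤ) ∣ D1) (d2 : (p : ℤ) ∣ D2) (d3 : (p : ℤ) ∣ D3) : False := by
  haveI : Fact p.Prime := ⟨hp⟩
  have hf1 : σ (s1 : K) = s1 := by rw [← ra_coe, h1.fs]
  have hf1' : τ (s1 : K) = -s1 := by rw [← ra_coe, h1.ft]; simp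
  have hf2 : τ (s2 : K) = s2 := by rw [← ra_coe, h2.fs]
  have hf2' : σ (s2 : K) = -s2 := by rw [← ra_coe, h2.ft]; simp
  have hσ : σ ((s1 : K) * (s2 : K)) = -((s1 : K) * (s2 : K)) := by
    rw [map_mul, hf1, hf2']; ring
  have hρ : (σ * τ) ((s1 : K) * (s2 : K)) = (s1 : K) * (s2 : K) := by
    change σ (τ _) = _
    rw [map_mul, hf1', hf2, map_mul, map_neg, hf1, hf2']; ring
  obtain ⟨b, hb⟩ := anti_K hv.right.symm h3 hρ hσ
  have q1 : (s1 : K) * (s1 : K) = ((D1 : ℤ) : K) := by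
    have := congrArg (algebraMap (𝓞 K) K) h1.sq
    simpa using this
  have q2 : (s2 : K) * (s2 : K) = ((D2 : ℤ) : K) := by
    have := congrArg (algebraMap (𝓞 K) K) h2.sq
    simpa using this
  have q3 : (s3 : K) * (s3 : K) = ((D3 : ℤ) : K) := by
    have := congrArg (algebraMap (𝓞 K) K) h3.sq
    simpa using this
  have h4 : ((D1 : ℤ) : K) * ((D2 : ℤ) : K) = (b : K) * (b : K) * ((D3 : ℤ) : K) := by
    rw [← q1, ← q2, ← q3]
    calc _ = ((s1 : K) * (s2 : K)) * ((s1 : K) * (s2 : K)) := by ring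
      _ = _ := by rw [hb]; ring
  have h5 : (D1 : ℚ) * (D2 : ℚ) = b * b * (D3 : ℚ) := by exact_mod_cast h4
  have hb0 : b ≠ 0 := by
    rintro rfl
    have : (D1 : ℚ) * (D2 : ℚ) = 0 := by rw [h5]; ring
    rcases mul_eq_zero.1 this with h6 | h6
    · exact h1.D_ne_zero (by exact_mod_cast h6)
    · exact h2.D_ne_zero (by exact_mod_cast h6)
  have hval : ∀ D : ℤ, Squarefree D → (p : ℤ) ∣ D → padicValRat p (D : ℚ) = 1 := by
    intro D hD hd
    rw [padicValRat.of_int]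
    have h6 : 1 ≤ padicValInt p D := by
      have := (padicValInt_dvd_iff (p := p) 1 D).1 (by simpa using hd)
      rcases this with h7 | h7
      · exact absurd h7 hD.ne_zero
      · exact h7
    have h7 : ¬ 2 ≤ padicValInt p D := by
      intro h8
      have h9 := (padicValInt_dvd_iff (p := p) 2 D).2 (Or.inr h8)
      rw [sq] at h9
      have h10 := Int.isUnit_iff_natAbs_eq.1 (hD _ h9)
      rw [Int.natAbs_natCast] at h10
      exact hp.one_lt.ne' h10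
    have : padicValInt p D = 1 := by omega
    rw [this]; rfl
  have e1 : (D1 : ℚ) ≠ 0 := by exact_mod_cast h1.D_ne_zero
  have e2 : (D2 : ℚ) ≠ 0 := by exact_mod_cast h2.D_ne_zero
  have e3 : (D3 : ℚ) ≠ 0 := by exact_mod_cast h3.D_ne_zero
  have h11 := congrArg (padicValRat p) h5
  rw [padicValRat.mul e1 e2, padicValRat.mul (mul_ne_zero hb0 hb0) e3, padicValRat.mul hb0 hb0,
    hval D1 h1.sf d1, hval D2 h2.sf d2, hval D3 h3.sf d3] at h11
  omega

theorem index_two {C : Type*} [Group C] [Finite C] (W G : Subgroup C)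
    (h : ∀ w1 ∈ W, ∀ w2 ∈ W, w1 ∉ G → w2 ∉ G → w1 * w2 ∈ G) : Nat.card W ≤ 2 * Nat.card G := by
  classical
  by_cases hWG : ∃ w0 ∈ W, w0 ∉ G
  · obtain ⟨w0, hw0, hw0'⟩ := hWG
    let f : W → Bool × G := fun w => if hw : (w : C) ∈ G then (true, ⟨w, hw⟩)
      else (false, ⟨w0 * w, h w0 hw0 w w.2 hw0' hw⟩)
    have hf : Function.Injective f := by
      intro a b hab
      simp only [f] at hab
      split_ifs at hab with h1 h2 h2
      · simp only [Prod.mk.injEq, Subtype.mk.injEq, true_and] at hab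
        exact Subtype.ext hab
      · simp at hab
      · simp at hab
      · simp only [Prod.mk.injEq, Subtype.mk.injEq, true_and] at hab
        exact Subtype.ext (mul_left_cancel hab)
    have := Nat.card_le_card_of_injective f hf
    rw [Nat.card_prod] at this
    simpa using this
  · push Not at hWG
    have h1 : W ≤ G := hWG
    have h2 := Nat.card_le_card_of_injective _ (Subgroup.inclusion_injective h1)
    omega

theorem count_ineq' {G C : Type*} [Group G] [CommGroup C] (hc : ∀ a b : G, a * b = b * a) (θ : G →* C)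
    (M1 M2 M3 N : Subgroup G) [Finite N] [Finite (M1 ⊓ M2 ⊓ M3 : Subgroup G)]
    (hN : ∀ x ∈ N, θ x = 1)
    (h12 : ∀ x ∈ M1, ∀ y ∈ M2, θ x = θ y → x / y ∈ N)
    (h13 : ∀ x ∈ M1, ∀ y ∈ M3, θ x = θ y → x / y ∈ N) :
    Nat.card (M1.map θ ⊓ M2.map θ ⊓ M3.map θ : Subgroup C) *
      (Nat.card (M1 ⊓ N : Subgroup G) * Nat.card (M2 ⊓ N : Subgroup G) *
        Nat.card (M3 ⊓ N : Subgroup G)) ≤
    Nat.card (M1 ⊓ M2 ⊓ M3 : Subgroup G) * (Nat.card N * Nat.card N) := by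
  letI : CommGroup G := { ‹Group G› with mul_comm := hc }
  exact count_ineq θ M1 M2 M3 N hN h12 h13

/-- The intersection. -/
noncomputable def WW (σ τ : K ≃ₐ[ℚ] K) : Subgroup (ClassGroup (𝓞 K)) :=
  HI σ ⊓ HI τ ⊓ HI (σ * τ)

theorem nm1 (α β : 𝓞 K) : Algebra.intNorm ℤ (𝓞 K) (α * β) = Algebra.intNorm ℤ (𝓞 K) α * Algebra.intNorm ℤ (𝓞 K) β := map_mul _ _ _

theorem nm2 (I I' : Ideal (𝓞 K)) : ((absNorm (I * I') : ℕ) : ℤ) = (absNorm I : ℤ) * (absNorm I' : ℤ) := by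
  rw [map_mul]; push_cast; ring

theorem nm3 {α β : 𝓞 K} {I I' : Ideal (𝓞 K)} (h1 : Algebra.intNorm ℤ (𝓞 K) α = -(absNorm I : ℤ) ^ 2)
   (h2 : Algebra.intNorm ℤ (𝓞 K) β = -(absNorm I' : ℤ) ^ 2) : 
   Algebra.intNorm ℤ (𝓞 K) (α * β) = ((absNorm (I * I') : ℕ) : ℤ) ^ 2 := by
  rw [nm1, nm2, h1, h2]; ring

theorem pg1 (hv : V4 σ τ) {D : ℤ} {s : 𝓞 K} (h : Rt σ τ D s) {I I' : Ideal (𝓞 K)} (hI : I ≠ ⊥) (hI' : I' ≠ ⊥)
    {α β : 𝓞 K} (hα : α ≠ 0) (hβ : β ≠ 0) (hIα : I ^ 2 = span {α}) (hIβ : I' ^ 2 = span {β})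
   (h1 : Algebra.intNorm ℤ (𝓞 K) α = -(absNorm I : ℤ) ^ 2)
   (h2 : Algebra.intNorm ℤ (𝓞 K) β = -(absNorm I' : ℤ) ^ 2) : 
   cl (I * I' * ia σ (I * I')) (mul_ne_zero (mul_ne_zero hI hI') (ia_ne_bot σ (mul_ne_zero hI hI'))) ∈ (MM K D).map θ := by
  have hII : I * I' ≠ ⊥ := mul_ne_zero hI hI'
  have hs : (I * I') ^ 2 = span {α * β} := by
    rw [mul_pow, hIα, hIβ, Ideal.span_singleton_mul_span_singleton]
  exact good hv h hII (mul_ne_zero hα hβ) hs (Or.inl (nm3 h1 h2))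

theorem cl_congr2 {I J : Ideal (𝓞 K)} (h : I = J) (hI : I ≠ ⊥) (hJ : J ≠ ⊥) : cl I hI = cl J hJ := by
  subst h; rfl

theorem pg2 {I I' : Ideal (𝓞 K)} (hI : I ≠ ⊥) (hI' : I' ≠ ⊥) : 
    cl (I * I' * ia σ (I * I')) (mul_ne_zero (mul_ne_zero hI hI') (ia_ne_bot σ (mul_ne_zero hI hI'))) =
      cl (I * ia σ I) (mul_ne_zero hI (ia_ne_bot σ hI)) *
        cl (I' * ia σ I') (mul_ne_zero hI' (ia_ne_bot σ hI')) := by
  have h4 : I * I' * ia σ (I * I') = I * ia σ I * (I' * ia σ I') := by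
    rw [ia_mul, mul_mul_mul_comm]
  rw [← cl_mul (I * ia σ I) (I' * ia σ I') (mul_ne_zero hI (ia_ne_bot σ hI)) (mul_ne_zero hI' (ia_ne_bot σ hI'))]
  exact cl_congr2 h4 _ _

theorem pg3 (hv : V4 σ τ) {D : ℤ} {s : 𝓞 K} (h : Rt σ τ D s) {w : ClassGroup (𝓞 K)}
    (hw : w ∈ HI σ) (hn : w ∉ (MM K D).map θ) : 
    ∃ (I : Ideal (𝓞 K)) (hI : I ≠ ⊥) (α : 𝓞 K), α ≠ 0 ∧ I ^ 2 = span {α} ∧
      w = cl (I * ia σ I) (mul_ne_zero hI (ia_ne_bot σ hI)) ∧ Algebra.intNorm ℤ (𝓞 K) α = -(absNorm I : ℤ) ^ 2 := by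
  obtain ⟨I, hI, α, hα, hIα, h0⟩ := HI_elt hw
  refine ⟨I, hI, α, hα, hIα, h0, ?_⟩
  rcases norm_pm hv hIα with h2 | h2
  · rw [h0] at hn
    exact absurd (good hv h hI hα hIα (Or.inl h2)) hn
  · exact h2

theorem pair_good (hv : V4 σ τ) {D : ℤ} {s : 𝓞 K} (h : Rt σ τ D s) {w w' : ClassGroup (𝓞 K)}
    (hw : w ∈ HI σ) (hw' : w' ∈ HI σ) (hn : w ∉ (MM K D).map θ) (hn' : w' ∉ (MM K D).map θ) :
    w * w' ∈ (MM K D).map θ := by
  obtain ⟨I, hI, α, hα, hIα, h0, h1⟩ := pg3 hv h hw hn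
  obtain ⟨I', hI', β, hβ, hIβ, h0', h2⟩ := pg3 hv h hw' hn'
  rw [h0, h0', ← pg2 hI hI']
  exact pg1 hv h hI hI' hα hβ hIα hIβ h1 h2

/-- negative discriminant: norms are nonnegative. -/
theorem norm_nonneg_of (hv : V4 σ τ) {D : ℤ} {s : 𝓞 K} (h : Rt σ τ D s) (hD : D < 0) (α : 𝓞 K) :
    0 ≤ Algebra.intNorm ℤ (𝓞 K) α := by
  set γ := α * ra σ α with hγ
  have e1 : ra σ γ = γ := by rw [hγ, map_mul, ← ra_mul, hv.ss, ra_one, mul_comm]
  have e2 : γ * ra τ γ = ((Algebra.intNorm ℤ (𝓞 K) α : ℤ) : 𝓞 K) := by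
    rw [← hv.norm_elt α, hγ, map_mul, ← ra_mul τ σ, ← hv.comm]; ring
  have hτσ : ra σ (ra τ γ) = ra τ γ := by rw [← ra_mul, hv.comm, ra_mul, e1]
  have hττ : ra τ (ra τ γ) = γ := by rw [← ra_mul, hv.tt, ra_one]
  obtain ⟨t, ht⟩ : ∃ t : ℤ, γ + ra τ γ = (t : 𝓞 K) := by
    apply hv.fixed_int
    · rw [map_add, e1, hτσ]
    · rw [map_add, hττ, add_comm]
  obtain ⟨b, hb⟩ : ∃ b : ℤ, γ - ra τ γ = (b : 𝓞 K) * s := by
    apply anti hv h
    · rw [map_sub, e1, hτσ]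
    · rw [map_sub, hττ]; ring
  have : ((4 * Algebra.intNorm ℤ (𝓞 K) α : ℤ) : 𝓞 K) = ((t ^ 2 - b ^ 2 * D : ℤ) : 𝓞 K) := by
    push_cast
    rw [← h.sq, ← e2]
    have e3 : ((b : ℤ) : 𝓞 K) ^ 2 * (s * s) = ((b : 𝓞 K) * s) ^ 2 := by ring
    rw [e3, ← hb, ← ht]; ring
  have h4 : 4 * Algebra.intNorm ℤ (𝓞 K) α = t ^ 2 - b ^ 2 * D := by exact_mod_cast this
  nlinarith [sq_nonneg t, sq_nonneg b]

theorem arith1 {g a b c m n W A B C N : ℕ} (h : g * (a * b * c) ≤ m * (n * n)) (ha : A ≤ a) (hb : B ≤ b)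
    (hc : C ≤ c) (hm : m ≤ 2) (hn : n ≤ N) (hABC : 0 < A * B * C) (hW : 2 * (N * N) ≤ W * (A * B * C)) :
    g ≤ W := by
  have h1 : g * (A * B * C) ≤ W * (A * B * C) := by
    calc g * (A * B * C) ≤ g * (a * b * c) :=
          Nat.mul_le_mul_left _ (Nat.mul_le_mul (Nat.mul_le_mul ha hb) hc)
      _ ≤ m * (n * n) := h
      _ ≤ 2 * (N * N) := Nat.mul_le_mul hm (Nat.mul_le_mul hn hn)
      _ ≤ _ := hW
  exact Nat.le_of_mul_le_mul_right h1 hABC

theorem FI_comm (a b : FI K ⧸ PQ K) : a * b = b * a := by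
  obtain ⟨x, rfl⟩ := QuotientGroup.mk_surjective a
  obtain ⟨y, rfl⟩ := QuotientGroup.mk_surjective b
  rw [← QuotientGroup.mk_mul, ← QuotientGroup.mk_mul, mul_comm]

/-- **Upper bound**: the triple intersection has at most 32 elements. -/
theorem card_WW (hv : V4 σ τ) : Nat.card (WW σ τ) ≤ 32 := by
  classical
  obtain ⟨D1, s1, h1⟩ := exists_rt hv
  obtain ⟨D2, s2, h2⟩ := exists_rt hv.symm
  obtain ⟨D3, s3, h3⟩ := exists_rt hv.right.symm
  have hD : ∀ p : ℕ, p.Prime → p ≠ 2 → (p : ℤ) ∣ D1 → (p : ℤ) ∣ D2 → (p : ℤ) ∣ D3 → False :=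
    fun p hp _ a b c => prime_not_all hv h1 h2 h3 p hp a b c
  obtain ⟨m1, m2⟩ := inter_card (K := K) hD
  set G : Subgroup (ClassGroup (𝓞 K)) := (MM K D1).map θ ⊓ (MM K D2).map θ ⊓ (MM K D3).map θ with hG
  have hcount : ∀ [Finite (NN K)], Nat.card G * (Nat.card (MM K D1 ⊓ NN K : Subgroup _) *
      Nat.card (MM K D2 ⊓ NN K : Subgroup _) * Nat.card (MM K D3 ⊓ NN K : Subgroup _)) ≤
      Nat.card (MM K D1 ⊓ MM K D2 ⊓ MM K D3 : Subgroup _) * (Nat.card (NN K) * Nat.card (NN K)) := by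
    intro _
    exact count_ineq' FI_comm θ (MM K D1) (MM K D2) (MM K D3) (NN K) (fun x hx => θ_NN hx)
      (fun x hx y hy h => MM_div_MM hx hy h) (fun x hx y hy h => MM_div_MM hx hy h)
  -- alternative roots
  have e3 : Rt (σ * τ) τ D3 s3 := ⟨h3.sq, h3.fs, by
    have := rho_neg hv.right.symm h3
    rwa [hv.rs] at this, h3.sf⟩
  -- the membership statements
  have good1 : (UU σ τ ∨ ¬ UU τ σ ∨ ¬ UU (σ * τ) σ) → ∀ w ∈ WW σ τ, w ∈ (MM K D1).map θ := by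
    rintro hc w ⟨⟨w1, w2⟩, w3⟩
    exact side_good hv h1 w1 w2 w3 hc
  have good2 : (UU τ σ ∨ ¬ UU σ τ ∨ ¬ UU (σ * τ) σ) → ∀ w ∈ WW σ τ, w ∈ (MM K D2).map θ := by
    rintro hc w ⟨⟨w1, w2⟩, w3⟩
    apply side_good hv.symm h2 w2 w1 (by rw [hv.mul_swap]; exact w3)
    rcases hc with h | h | h
    · exact Or.inl h
    · exact Or.inr (Or.inl h)
    · right; right
      rw [hv.mul_swap]
      intro h4
      apply h
      have := (UU_right hv.right.symm).2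
      rw [hv.rs] at this
      exact this h4
  have good3 : (UU (σ * τ) σ ∨ ¬ UU σ τ ∨ ¬ UU τ σ) → ∀ w ∈ WW σ τ, w ∈ (MM K D3).map θ := by
    rintro hc w ⟨⟨w1, w2⟩, w3⟩
    apply side_good hv.right.symm h3 w3 w1 (by rw [hv.rs]; exact w2)
    rcases hc with h | h | h
    · exact Or.inl h
    · right; left
      intro h4
      exact h ((UU_right hv).2 h4)
    · right; right
      rw [hv.rs]
      intro h4
      apply h
      have := (UU_right hv.symm).2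
      rw [hv.mul_swap] at this
      exact this h4
  have hle : (∀ w ∈ WW σ τ, w ∈ (MM K D1).map θ) → (∀ w ∈ WW σ τ, w ∈ (MM K D2).map θ) →
      (∀ w ∈ WW σ τ, w ∈ (MM K D3).map θ) → Nat.card (WW σ τ) ≤ Nat.card G := by
    intro a b c
    have : WW σ τ ≤ G := fun w hw => ⟨⟨a w hw, b w hw⟩, c w hw⟩
    exact Nat.card_le_card_of_injective _ (Subgroup.inclusion_injective this)
  by_cases hreal : InfinitePlace.nrRealPlaces K = 0
  · -- imaginary case
    obtain ⟨n1, n2⟩ := NN_imag hv hreal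
    have hneg : D1 < 0 ∨ D2 < 0 := by
      by_contra hcon
      push Not at hcon
      have p1 : 0 < D1 := lt_of_le_of_ne hcon.1 h1.D_ne_zero.symm
      have p2 : 0 < D2 := lt_of_le_of_ne hcon.2 h2.D_ne_zero.symm
      exact exists_real hv h1 h2 h3 p1 p2 hreal
    have hnn : ∀ α : 𝓞 K, 0 ≤ Algebra.intNorm ℤ (𝓞 K) α := by
      intro α
      rcases hneg with h | h
      · exact norm_nonneg_of hv h1 h α
      · exact norm_nonneg_of hv.symm h2 h α
    have hpos : ∀ {I : Ideal (𝓞 K)} {α : 𝓞 K}, I ≠ ⊥ → I ^ 2 = span {α} →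
        Algebra.intNorm ℤ (𝓞 K) α = (absNorm I : ℤ) ^ 2 := by
      intro I α hI hIα
      rcases norm_pm hv hIα with h | h
      · exact h
      · have h4 := hnn α
        rw [h] at h4
        have h5 : ((absNorm I : ℕ) : ℤ) ^ 2 = 0 := by
          have := sq_nonneg ((absNorm I : ℕ) : ℤ)
          linarith
        exact absurd (pow_eq_zero_iff two_ne_zero |>.1 h5) (absNorm_ne hI)
    have hg : ∀ {σ' τ' : K ≃ₐ[ℚ] K} (hv' : V4 σ' τ') {D : ℤ} {s : 𝓞 K} (h : Rt σ' τ' D s)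
        {w : ClassGroup (𝓞 K)}, w ∈ HI σ' → w ∈ (MM K D).map θ := by
      intro σ' τ' hv' D s h w hw
      obtain ⟨I, hI, α, hα, hIα, rfl⟩ := HI_elt hw
      exact good hv' h hI hα hIα (Or.inl (hpos hI hIα))
    have hWG := hle (fun w hw => hg hv h1 hw.1.1) (fun w hw => hg hv.symm h2 hw.1.2)
      (fun w hw => hg hv.right.symm h3 hw.2)
    haveI := n1
    have h4 := arith1 (W := 16) hcount (MN_ge2 hv h1) (MN_ge2 hv.symm h2) (MN_ge2 hv.right.symm h3) m2 n2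
      (by norm_num) (by norm_num)
    omega
  · obtain ⟨φ⟩ := exists_real_emb hreal
    obtain ⟨n1, n2⟩ := NN_le32 hv φ
    haveI := n1
    by_cases u1 : UU σ τ <;> by_cases u2 : UU τ σ <;> by_cases u3 : UU (σ * τ) σ
    · -- all
      have hWG := hle (good1 (Or.inl u1)) (good2 (Or.inl u2)) (good3 (Or.inl u3))
      have h4 := arith1 (W := 16) hcount (MN_ge2 hv h1) (MN_ge2 hv.symm h2) (MN_ge2 hv.right.symm h3) m2
        (NN_le8 hv φ u1 u2) (by norm_num) (by norm_num)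
      omega
    · -- u3 fails
      have h4 := arith1 (W := 16) hcount (MN_ge2 hv h1) (MN_ge2 hv.symm h2) (MN_ge2 hv.right.symm h3) m2
        (NN_le8 hv φ u1 u2) (by norm_num) (by norm_num)
      have h5 : Nat.card (WW σ τ) ≤ 2 * Nat.card G := by
        apply index_two
        intro w hw w' hw' hn hn'
        have a1 := good1 (Or.inl u1)
        have a2 := good2 (Or.inl u2)
        have b : w ∉ (MM K D3).map θ := fun hc => hn ⟨⟨a1 w hw, a2 w hw⟩, hc⟩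
        have b' : w' ∉ (MM K D3).map θ := fun hc => hn' ⟨⟨a1 w' hw', a2 w' hw'⟩, hc⟩
        exact ⟨⟨Subgroup.mul_mem _ (a1 w hw) (a1 w' hw'), Subgroup.mul_mem _ (a2 w hw) (a2 w' hw')⟩,
          pair_good hv.right.symm h3 hw.2 hw'.2 b b'⟩
      omega
    · -- u2 fails
      have u13 : UU σ (σ * τ) := (UU_right hv).1 u1
      have h4 := arith1 (W := 16) hcount (MN_ge2 hv h1) (MN_ge2 hv.symm h2) (MN_ge2 hv.right.symm h3) m2
        (NN_le8 hv.right φ u13 u3) (by norm_num) (by norm_num)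
      have h5 : Nat.card (WW σ τ) ≤ 2 * Nat.card G := by
        apply index_two
        intro w hw w' hw' hn hn'
        have a1 := good1 (Or.inl u1)
        have a3 := good3 (Or.inl u3)
        have b : w ∉ (MM K D2).map θ := fun hc => hn ⟨⟨a1 w hw, hc⟩, a3 w hw⟩
        have b' : w' ∉ (MM K D2).map θ := fun hc => hn' ⟨⟨a1 w' hw', hc⟩, a3 w' hw'⟩
        exact ⟨⟨Subgroup.mul_mem _ (a1 w hw) (a1 w' hw'), pair_good hv.symm h2 hw.1.2 hw'.1.2 b b'⟩,
          Subgroup.mul_mem _ (a3 w hw) (a3 w' hw')⟩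
      omega
    · -- only u1
      have hWG := hle (good1 (Or.inl u1)) (good2 (Or.inr (Or.inr u3))) (good3 (Or.inr (Or.inr u2)))
      have c2 := MN_ge4 hv.symm h2 φ u2
      have c3 := MN_ge4 hv.right.symm h3 φ u3
      have h4 := arith1 (W := 16) hcount (MN_ge2 hv h1) c2 c3 m2 (NN_le16 hv φ u1) (by norm_num) (by norm_num)
      omega
    · -- u1 fails, u2 u3
      have u23 : UU τ (τ * σ) := (UU_right hv.symm).1 u2
      have u32 : UU (τ * σ) τ := by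
        rw [hv.mul_swap]
        have := (UU_right hv.right.symm).1 u3
        rwa [hv.rs] at this
      have h4 := arith1 (W := 16) hcount (MN_ge2 hv h1) (MN_ge2 hv.symm h2) (MN_ge2 hv.right.symm h3) m2
        (NN_le8 hv.symm.right φ u23 u32) (by norm_num) (by norm_num)
      have h5 : Nat.card (WW σ τ) ≤ 2 * Nat.card G := by
        apply index_two
        intro w hw w' hw' hn hn'
        have a2 := good2 (Or.inl u2)
        have a3 := good3 (Or.inl u3)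
        have b : w ∉ (MM K D1).map θ := fun hc => hn ⟨⟨hc, a2 w hw⟩, a3 w hw⟩
        have b' : w' ∉ (MM K D1).map θ := fun hc => hn' ⟨⟨hc, a2 w' hw'⟩, a3 w' hw'⟩
        exact ⟨⟨pair_good hv h1 hw.1.1 hw'.1.1 b b', Subgroup.mul_mem _ (a2 w hw) (a2 w' hw')⟩,
          Subgroup.mul_mem _ (a3 w hw) (a3 w' hw')⟩
      omega
    · -- only u2
      have hWG := hle (good1 (Or.inr (Or.inr u3))) (good2 (Or.inl u2)) (good3 (Or.inr (Or.inl u1)))
      have c1 := MN_ge4 hv h1 φ u1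
      have c3 := MN_ge4 hv.right.symm h3 φ u3
      have h4 := arith1 (W := 16) hcount c1 (MN_ge2 hv.symm h2) c3 m2 (NN_le16 hv.symm φ u2)
        (by norm_num) (by norm_num)
      omega
    · -- only u3
      have hWG := hle (good1 (Or.inr (Or.inl u2))) (good2 (Or.inr (Or.inl u1))) (good3 (Or.inl u3))
      have c1 := MN_ge4 hv h1 φ u1
      have c2 := MN_ge4 hv.symm h2 φ u2
      have h4 := arith1 (W := 16) hcount c1 c2 (MN_ge2 hv.right.symm h3) m2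
        (NN_le16 hv.right.symm φ u3) (by norm_num) (by norm_num)
      omega
    · -- none
      have hWG := hle (good1 (Or.inr (Or.inl u2))) (good2 (Or.inr (Or.inl u1))) (good3 (Or.inr (Or.inl u1)))
      have c1 := MN_ge4 hv h1 φ u1
      have c2 := MN_ge4 hv.symm h2 φ u2
      have c3 := MN_ge4 hv.right.symm h3 φ u3
      have h4 := arith1 (W := 32) hcount c1 c2 c3 m2 n2 (by norm_num) (by norm_num)
      omega

end Pool.Agent.H471R2
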