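import Pool.Agent.H471R2.Defs
import Pool.Agent.H471R2.Bq.Upper
set_option autoImplicit false
set_option linter.all false

open Polynomial NumberField Ideal

namespace Pool.Agent.H471R2

/-- generators of `V22` -/
def gs : V22 := (Multiplicative.ofAdd 1, 1)
def gt : V22 := (1, Multiplicative.ofAdd 1)

theorem V22_all (g : V22) : g = 1 ∨ g = gs ∨ g = gt ∨ g = gs * gt := by
  revert g; decide

section
variable {K : Type*} [Field K] [NumberField K]

theorem V4_of (e : V22 ≃* (K ≃ₐ[ℚ] K)) : V4 (e gs) (e gt) where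
  ss := by rw [← map_mul, ← map_one e]; congr 1
  tt := by rw [← map_mul, ← map_one e]; congr 1
  comm := by rw [← map_mul, ← map_mul]; congr 1
  all := fun ρ => by
    rcases V22_all (e.symm ρ) with h | h | h | h
    · left; rw [← e.apply_symm_apply ρ, h, map_one]
    · right; left; rw [← e.apply_symm_apply ρ, h]
    · right; right; left; rw [← e.apply_symm_apply ρ, h]
    · right; right; right; rw [← e.apply_symm_apply ρ, h, map_mul]
  s1 := fun h => by
    rw [← map_one e] at h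
    exact absurd (e.injective h) (by decide)
  t1 := fun h => by
    rw [← map_one e] at h
    exact absurd (e.injective h) (by decide)
  st := fun h => absurd (e.injective h) (by decide)

theorem galCl_eq (g : K ≃ₐ[ℚ] K) (x : ClassGroup (𝓞 K)) : galCl g x = ca g x := rfl

theorem norm_cl [IsGalois ℚ K] {σ τ : K ≃ₐ[ℚ] K} (hv : V4 σ τ) (x : ClassGroup (𝓞 K)) :
    x * ca σ x * ca τ x * ca (σ * τ) x = 1 := by
  obtain ⟨I, hI, rfl⟩ := cl_surj x
  rw [ca_cl, ca_cl, ca_cl, ← cl_mul, ← cl_mul, ← cl_mul]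
  rw [cl_eq_one_iff]
  refine ⟨((absNorm I : ℕ) : 𝓞 K), ?_, hv.norm_ideal I⟩
  have := absNorm_ne hI
  exact_mod_cast this

end

section
variable {M : Type*} [AddCommGroup M] [Module (ZMod 2) M] (ρ : Representation (ZMod 2) V22 M)

/-- the operators `1 + σ`, `1 + τ` -/
def opa : M →ₗ[ZMod 2] M := ρ gs + LinearMap.id
def opb : M →ₗ[ZMod 2] M := ρ gt + LinearMap.id

theorem opa_apply (x : M) : opa ρ x = ρ gs x + x := rfl
theorem opb_apply (x : M) : opb ρ x = ρ gt x + x := rfl

theorem rho_s (x : M) : ρ gs x = opa ρ x + x := by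
  rw [opa_apply, add_assoc, Kr.add_self_k, add_zero]
theorem rho_t (x : M) : ρ gt x = opb ρ x + x := by
  rw [opb_apply, add_assoc, Kr.add_self_k, add_zero]

theorem rho_mul (g h : V22) (x : M) : ρ (g * h) x = ρ g (ρ h x) := by
  rw [map_mul]; rfl

theorem rho_ss (x : M) : ρ gs (ρ gs x) = x := by
  rw [← rho_mul]
  have : gs * gs = 1 := by decide
  rw [this, map_one]; rfl
theorem rho_tt (x : M) : ρ gt (ρ gt x) = x := by
  rw [← rho_mul]
  have : gt * gt = 1 := by decide
  rw [this, map_one]; rfl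
theorem rho_ts (x : M) : ρ gt (ρ gs x) = ρ gs (ρ gt x) := by
  rw [← rho_mul, ← rho_mul]
  have : gt * gs = gs * gt := by decide
  rw [this]

/-- the norm element acts by zero -/
def NormZero : Prop := ∀ x, x + ρ gs x + ρ gt x + ρ (gs * gt) x = 0

theorem KM_of (h : NormZero ρ) : Kr.KM (opa ρ) (opb ρ) where
  aa := fun x => by
    rw [opa_apply, opa_apply, map_add, rho_ss, add_comm x]; exact Kr.add_self_k _
  bb := fun x => by
    rw [opb_apply, opb_apply, map_add, rho_tt, add_comm x]; exact Kr.add_self_k _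
  ab := fun x => by
    rw [opa_apply, opb_apply, map_add]
    have := h x
    rw [rho_mul] at this
    rw [← this]; abel
  ba := fun x => by
    rw [opa_apply, opb_apply, map_add, rho_ts]
    have := h x
    rw [rho_mul] at this
    rw [← this]; abel

theorem stable_of {U : Submodule (ZMod 2) M} (ha : ∀ x ∈ U, opa ρ x ∈ U) (hb : ∀ x ∈ U, opb ρ x ∈ U) :
    ∀ g, ∀ x ∈ U, ρ g x ∈ U := by
  have h1 : ∀ x ∈ U, ρ gs x ∈ U := fun x hx => by rw [rho_s]; exact U.add_mem (ha x hx) hx
  have h2 : ∀ x ∈ U, ρ gt x ∈ U := fun x hx => by rw [rho_t]; exact U.add_mem (hb x hx) hx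
  intro g x hx
  rcases V22_all g with rfl | rfl | rfl | rfl
  · rw [map_one]; exact hx
  · exact h1 x hx
  · exact h2 x hx
  · rw [rho_mul]; exact h1 _ (h2 x hx)

theorem Ind_of (h : Indecomposable ρ) : Kr.Ind (opa ρ) (opb ρ) := by
  refine ⟨h.1, ?_⟩
  intro e ea eb ee
  have hc : IsCompl (LinearMap.ker e) (LinearMap.range e) := by
    constructor
    · rw [Submodule.disjoint_def]
      rintro x hx ⟨y, rfl⟩
      rw [LinearMap.mem_ker, ee] at hx
      exact hx
    · rw [codisjoint_iff, eq_top_iff]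
      intro x _
      rw [Submodule.mem_sup]
      refine ⟨x - e x, ?_, e x, ⟨x, rfl⟩, by abel⟩
      rw [LinearMap.mem_ker, map_sub, ee, sub_self]
  rcases h.2 _ _ (stable_of ρ (fun x hx => by
      rw [LinearMap.mem_ker] at *
      rw [ea, hx, map_zero]) (fun x hx => by
      rw [LinearMap.mem_ker] at *
      rw [eb, hx, map_zero])) (stable_of ρ (by
      rintro _ ⟨y, rfl⟩; exact ⟨opa ρ y, ea y⟩) (by
      rintro _ ⟨y, rfl⟩; exact ⟨opb ρ y, eb y⟩)) hc with h0 | h0
  · right
    intro x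
    have : x - e x ∈ LinearMap.ker e := by
      rw [LinearMap.mem_ker, map_sub, ee, sub_self]
    rw [h0, Submodule.mem_bot] at this
    exact (sub_eq_zero.1 this).symm
  · left
    intro x
    have : e x ∈ LinearMap.range e := ⟨x, rfl⟩
    rw [h0, Submodule.mem_bot] at this
    exact this

theorem RepIso_of {T S : Type*} [AddCommGroup T] [Module (ZMod 2) T] [AddCommGroup S]
    [Module (ZMod 2) S] {A B : T →ₗ[ZMod 2] S} (h : Kr.Iso (opa ρ) (opb ρ) (Kr.op A) (Kr.op B)) :
    RepIso ρ (kron A B) := by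
  obtain ⟨E, h1, h2⟩ := h
  have hs : ∀ x, E (ρ gs x) = kron A B gs (E x) := by
    intro x
    rw [rho_s, map_add, h1]
    obtain ⟨u, v⟩ := E x
    rw [kron_apply, Kr.op_apply]
    refine Prod.ext ?_ ?_
    · simp
    · simp [gs, add_comm]
  have ht : ∀ x, E (ρ gt x) = kron A B gt (E x) := by
    intro x
    rw [rho_t, map_add, h2]
    obtain ⟨u, v⟩ := E x
    rw [kron_apply, Kr.op_apply]
    refine Prod.ext ?_ ?_
    · simp
    · simp [gt, add_comm]
  refine ⟨E, ?_⟩
  intro g x
  rcases V22_all g with rfl | rfl | rfl | rfl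
  · rw [map_one, map_one]; rfl
  · exact hs x
  · exact ht x
  · rw [rho_mul, hs, ht, rho_mul]

end

variable {K : Type*} [Field K] [NumberField K] [IsGalois ℚ K]
  {M : Type*} [AddCommGroup M] [Module (ZMod 2) M] {ρ : Representation (ZMod 2) V22 M}

theorem summand_facts {e : V22 ≃* (K ≃ₐ[ℚ] K)} (h : IsSummand K e ρ) :
    Finite M ∧ NormZero ρ ∧ Nat.card (Kr.W (opa ρ) (opb ρ)) ≤ 32 := by
  obtain ⟨i, p, i1, i2, i3, p1, p2, pi⟩ := h
  have hinj : Function.Injective i := Function.LeftInverse.injective pi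
  have hfin : Finite M := Finite.of_injective i hinj
  have hv := V4_of e
  have hi0 : i 0 = 1 := by
    have := i1 0 0
    rw [add_zero] at this
    exact (mul_eq_left.1 this.symm)
  have hN : NormZero ρ := by
    intro x
    apply hinj
    rw [i1, i1, i1, i3, i3, i3, hi0, map_mul e]
    exact norm_cl hv (i x)
  refine ⟨hfin, hN, ?_⟩
  refine le_trans ?_ (card_WW hv)
  haveI : Finite (WW (e gs) (e gt)) := inferInstance
  have hmem : ∀ x ∈ Kr.W (opa ρ) (opb ρ), i x ∈ WW (e gs) (e gt) := by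
    intro x hx
    rw [Kr.mem_W] at hx
    obtain ⟨⟨u, hu⟩, ⟨v, hv'⟩, ⟨w, hw⟩⟩ := hx
    have key : ∀ (g : V22) (z : M), i (ρ g z + z) ∈ HI (e g) := by
      intro g z
      refine ⟨i z, i2 z, ?_⟩
      rw [i1, i3, mul_comm]; rfl
    refine ⟨⟨?_, ?_⟩, ?_⟩
    · rw [← hu]; exact key gs u
    · rw [← hv']; exact key gt v
    · rw [← hw]
      have e1 : opa ρ w + opb ρ w = ρ (gs * gt) w + w := by
        have h1 := hN w
        rw [opa_apply, opb_apply]
        apply Kr.eq_of_add_k
        calc _ = (w + ρ gs w + ρ gt w + ρ (gs * gt) w) + (w + w) := by abel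
          _ = 0 := by rw [h1, Kr.add_self_k, add_zero]
      rw [e1]
      have := key (gs * gt) w
      rw [map_mul e] at this
      exact this
  exact Nat.card_le_card_of_injective (fun x : Kr.W (opa ρ) (opb ρ) =>
    (⟨i x.1, hmem x.1 x.2⟩ : WW (e gs) (e gt))) (fun x y hxy =>
      Subtype.ext (hinj (congrArg Subtype.val hxy)))

/-- **Every indecomposable module that arises is in the list.** -/
theorem arises_inList {e : V22 ≃* (K ≃ₐ[ℚ] K)} (h : IsSummand K e ρ) (hM : Indecomposable ρ) :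
    InList ρ := by
  obtain ⟨hfin, hN, hW⟩ := summand_facts h
  rcases Kr.classify_bounded (KM_of ρ hN) (Ind_of ρ hM) hW with
    ⟨n, hn, hi⟩ | ⟨n, h1, h2, hi⟩ | ⟨q, n, hq, hn, hb, hi⟩ | ⟨n, h1, h2, hi⟩
  · exact Or.inl ⟨n, hn, RepIso_of ρ hi⟩
  · exact Or.inr (Or.inl ⟨n, h1, h2, RepIso_of ρ hi⟩)
  · exact Or.inr (Or.inr (Or.inl ⟨q, n, hq, hn, hb, RepIso_of ρ hi⟩))
  · exact Or.inr (Or.inr (Or.inr ⟨n, h1, h2, RepIso_of ρ hi⟩))

end Pool.Agent.H471R2
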