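import Pool.Agent.H471R2.Bq.Units
set_option autoImplicit false
set_option linter.all false
set_option linter.unusedSectionVars false
set_option linter.unusedVariables false
set_option linter.style.haveILetI false
open NumberField Ideal nonZeroDivisors

namespace Pool.Agent.H471R2

variable {K : Type*} [Field K] [NumberField K] [IsGalois ℚ K] {σ τ : K ≃ₐ[ℚ] K}

theorem isIntegral_of_sq {x : K} {n : ℤ} (h : x * x = (n : K)) : IsIntegral ℤ x := by
  refine ⟨Polynomial.X ^ 2 - Polynomial.C n, Polynomial.monic_X_pow_sub_C n two_ne_zero, ?_⟩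
  simp only [Polynomial.eval₂_sub, Polynomial.eval₂_pow, Polynomial.eval₂_X, Polynomial.eval₂_C]
  have h5 : (algebraMap ℤ K) n = ((n : ℤ) : K) := rfl
  rw [h5, ← h]; ring

theorem exists_rt (hv : V4 σ τ) : ∃ (D : ℤ) (s : 𝓞 K), Rt σ τ D s := by
  -- find y
  obtain ⟨x, hx⟩ : ∃ x : K, x + σ x - τ x - (σ * τ) x ≠ 0 := by
    by_contra hcon
    push Not at hcon
    have hli := linearIndependent_toLinearMap ℚ K K
    have hli2 := hli.comp (fun g : K ≃ₐ[ℚ] K => (g : K →ₐ[ℚ] K)) (fun a b h => by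
      ext z; exact congrArg (fun f : K →ₐ[ℚ] K => f z) h)
    rw [Fintype.linearIndependent_iff] at hli2
    classical
    have := hli2 (fun g => if g = 1 ∨ g = σ then 1 else -1) (by
      rw [hv.univ_eq, Finset.sum_insert, Finset.sum_insert, Finset.sum_insert, Finset.sum_singleton]
      · ext z
        have h1 : ¬ (τ = 1 ∨ τ = σ) := by
          rintro (h | h)
          · exact hv.t1 h
          · exact hv.st h.symm
        have h2 : ¬ (σ * τ = 1 ∨ σ * τ = σ) := by
          rintro (h | h)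
          · exact hv.st1 h
          · apply hv.t1
            have : σ * τ = σ * 1 := by rw [mul_one]; exact h
            exact mul_left_cancel this
        rw [if_pos (Or.inl rfl), if_pos (Or.inr rfl), if_neg h1, if_neg h2]
        have h3 := hcon z
        simp only [Function.comp_apply, LinearMap.add_apply, LinearMap.smul_apply, one_smul, neg_smul,
          AlgHom.toLinearMap_apply, LinearMap.neg_apply, LinearMap.zero_apply]
        change z + (σ z + (-τ z + -(σ * τ) z)) = 0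
        rw [← h3]; ring
      · simp only [Finset.mem_singleton]
        intro h1
        apply hv.s1
        have : σ * τ = 1 * τ := by rw [one_mul]; exact h1.symm
        exact mul_right_cancel this
      · simp only [Finset.mem_insert, Finset.mem_singleton, not_or]
        refine ⟨hv.st, ?_⟩
        intro h1
        apply hv.t1
        have : σ * τ = σ * 1 := by rw [mul_one]; exact h1.symm
        exact mul_left_cancel this
      · simp only [Finset.mem_insert, Finset.mem_singleton, not_or]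
        exact ⟨hv.s1.symm, hv.t1.symm, hv.st1.symm⟩) 1
    simp at this
  set y : K := x + σ x - τ x - (σ * τ) x with hy
  have e1 : σ (σ x) = x := by
    change (σ * σ) x = x
    rw [hv.ss]; rfl
  have e2 : τ (τ x) = x := by
    change (τ * τ) x = x
    rw [hv.tt]; rfl
  have e3 : τ (σ x) = σ (τ x) := by
    change (τ * σ) x = (σ * τ) x
    rw [hv.comm]
  have hmul : (σ * τ) x = σ (τ x) := rfl
  have hσ : σ y = y := by
    rw [hy, hmul]
    simp only [map_sub, map_add]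
    have e4 : σ (σ (τ x)) = τ x := by
      change (σ * σ) (τ x) = τ x
      rw [hv.ss]; rfl
    rw [e1, e4]; ring
  have hτ : τ y = -y := by
    rw [hy, hmul]
    simp only [map_sub, map_add]
    have e4 : τ (σ (τ x)) = σ x := by
      change (τ * (σ * τ)) x = σ x
      rw [hv.tst]
    rw [e2, e3, e4]; ring
  obtain ⟨q, hq⟩ : ∃ q : ℚ, y * y = q := by
    apply hv.fixed_rat
    · rw [map_mul, hσ]
    · rw [map_mul, hτ]; ring
  have hq0 : q ≠ 0 := by
    rintro rfl
    rw [Rat.cast_zero, mul_self_eq_zero] at hq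
    exact hx hq
  -- squarefree part
  set n : ℤ := q.num * q.den with hn
  have hn0 : n ≠ 0 := mul_ne_zero (Rat.num_ne_zero.2 hq0) (by exact_mod_cast q.den_nz)
  obtain ⟨a, b, hab, hsf⟩ := Nat.sq_mul_squarefree n.natAbs
  have hb0 : b ≠ 0 := by
    rintro rfl
    rw [zero_pow two_ne_zero, zero_mul] at hab
    exact hn0 (Int.natAbs_eq_zero.1 hab.symm)
  set D : ℤ := n.sign * a with hD
  have hnD : n = (b : ℤ) ^ 2 * D := by
    calc n = n.sign * n.natAbs := (Int.sign_mul_natAbs n).symm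
      _ = n.sign * ((b ^ 2 * a : ℕ) : ℤ) := by rw [hab]
      _ = _ := by rw [hD]; push_cast; ring
  have hDsf : Squarefree D := by
    rw [← Int.squarefree_natAbs, hD, Int.natAbs_mul, Int.natAbs_sign_of_ne_zero hn0, one_mul,
      Int.natAbs_natCast]
    exact hsf
  set s : K := y * q.den / b with hs
  have hden : (q.den : K) ≠ 0 := by exact_mod_cast q.den_nz
  have hbK : (b : K) ≠ 0 := by exact_mod_cast hb0
  have hss : s * s = (D : K) := by
    have h1 : (q : K) * q.den * q.den = (n : K) := by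
      have h2 : (q : ℚ) * q.den = q.num := Rat.mul_den_eq_num q
      have h3 : (q : ℚ) * q.den * q.den = (n : ℚ) := by rw [h2, hn]; push_cast; ring
      exact_mod_cast congrArg (fun z : ℚ => (z : K)) h3
    have h4 : s * s = (y * y) * q.den * q.den / (b * b) := by rw [hs]; ring
    rw [h4, hq, h1, hnD]
    push_cast
    field_simp
  obtain ⟨s', hs'⟩ : ∃ s' : 𝓞 K, (s' : K) = s := ⟨⟨s, isIntegral_of_sq hss⟩, rfl⟩
  refine ⟨D, s', ?_, ?_, ?_, hDsf⟩
  · apply RingOfIntegers.coe_injective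
    rw [map_mul]
    change (s' : K) * (s' : K) = _
    rw [hs', hss]; simp
  · apply RingOfIntegers.coe_injective
    change σ (s' : K) = (s' : K)
    rw [hs', hs, map_div₀, map_mul, hσ, map_natCast, map_natCast]
  · apply RingOfIntegers.coe_injective
    rw [map_neg]
    change τ (s' : K) = -(s' : K)
    rw [hs', hs, map_div₀, map_mul, hτ, map_natCast, map_natCast]; ring

/-- elements of `K` fixed by `σ` and negated by `τ` -/
theorem anti_K (hv : V4 σ τ) {D : ℤ} {s : 𝓞 K} (h : Rt σ τ D s) {x : K} (h1 : σ x = x)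
    (h2 : τ x = -x) : ∃ b : ℚ, x = (b : K) * (s : K) := by
  have hs : (s : K) ≠ 0 := by
    intro h0
    apply h.s_ne_zero
    exact_mod_cast h0
  have hfs : σ (s : K) = s := by rw [← ra_coe, h.fs]
  have hft : τ (s : K) = -s := by rw [← ra_coe, h.ft]; simp
  obtain ⟨c, hc⟩ : ∃ c : ℚ, x / (s : K) = c := by
    apply hv.fixed_rat
    · rw [map_div₀, h1, hfs]
    · rw [map_div₀, h2, hft, neg_div_neg_eq]
  exact ⟨c, by rw [← hc]; field_simp⟩

theorem rho_neg (hv : V4 σ τ) {D : ℤ} {s : 𝓞 K} (h : Rt σ τ D s) : ra (σ * τ) s = -s := by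
  rw [ra_mul, h.ft, map_neg, h.fs]

/-- decomposition with respect to `1, s₁, s₂, s₃`. -/
theorem decomp (hv : V4 σ τ) {D1 D2 D3 : ℤ} {s1 s2 s3 : 𝓞 K} (h1 : Rt σ τ D1 s1)
    (h2 : Rt τ σ D2 s2) (h3 : Rt (σ * τ) σ D3 s3) (x : K) :
    ∃ a b c d : ℚ, x = a + b * (s1 : K) + c * (s2 : K) + d * (s3 : K) := by
  have e1 : ∀ z, σ (σ z) = z := fun z => by
    change (σ * σ) z = z
    rw [hv.ss]; rfl
  have e2 : ∀ z, τ (τ z) = z := fun z => by
    change (τ * τ) z = z
    rw [hv.tt]; rfl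
  have e3 : ∀ z, τ (σ z) = σ (τ z) := fun z => by
    change (τ * σ) z = (σ * τ) z
    rw [hv.comm]
  have hmul : ∀ z, (σ * τ) z = σ (τ z) := fun z => rfl
  obtain ⟨a, ha⟩ : ∃ q : ℚ, x + σ x + τ x + σ (τ x) = q := by
    apply hv.fixed_rat
    · simp only [map_add, e1]; ring
    · simp only [map_add, e2, e3]; ring
  obtain ⟨b, hb⟩ : ∃ b : ℚ, x + σ x - τ x - σ (τ x) = (b : K) * (s1 : K) := by
    apply anti_K hv h1
    · simp only [map_add, map_sub, e1]; ring
    · simp only [map_add, map_sub, e2, e3]; ring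
  obtain ⟨c, hc⟩ : ∃ b : ℚ, x - σ x + τ x - σ (τ x) = (b : K) * (s2 : K) := by
    apply anti_K hv.symm h2
    · simp only [map_add, map_sub, e2, e3]; ring
    · simp only [map_add, map_sub, e1]; ring
  obtain ⟨d, hd⟩ : ∃ b : ℚ, x - σ x - τ x + σ (τ x) = (b : K) * (s3 : K) := by
    apply anti_K hv.right.symm h3
    · rw [hmul]; simp only [map_add, map_sub, e2, e3, e1]; ring
    · simp only [map_add, map_sub, e1]; ring
  refine ⟨a / 4, b / 4, c / 4, d / 4, ?_⟩
  push_cast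
  have : (4 : K) ≠ 0 := by norm_num
  field_simp
  calc _ = (x + σ x + τ x + σ (τ x)) + (x + σ x - τ x - σ (τ x)) + (x - σ x + τ x - σ (τ x)) +
      (x - σ x - τ x + σ (τ x)) := by ring
    _ = _ := by rw [ha, hb, hc, hd]

/-- elements with rational square -/
theorem sq_rat (hv : V4 σ τ) {D1 D2 D3 : ℤ} {s1 s2 s3 : 𝓞 K} (h1 : Rt σ τ D1 s1)
    (h2 : Rt τ σ D2 s2) (h3 : Rt (σ * τ) σ D3 s3) {x : K} {r : ℚ} (hr : x ^ 2 = (r : K)) :
    ∃ c : ℚ, x = c ∨ x = c * (s1 : K) ∨ x = c * (s2 : K) ∨ x = c * (s3 : K) := by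
  have key : ∀ g : K ≃ₐ[ℚ] K, g x = x ∨ g x = -x := by
    intro g
    have : (g x) ^ 2 = x ^ 2 := by rw [← map_pow, hr, map_ratCast]
    exact sq_eq_sq_iff_eq_or_eq_neg.1 this
  rcases key σ with hs | hs <;> rcases key τ with ht | ht
  · obtain ⟨q, hq⟩ := hv.fixed_rat hs ht
    exact ⟨q, Or.inl hq⟩
  · obtain ⟨b, hb⟩ := anti_K hv h1 hs ht
    exact ⟨b, Or.inr (Or.inl hb)⟩
  · obtain ⟨b, hb⟩ := anti_K hv.symm h2 ht hs
    exact ⟨b, Or.inr (Or.inr (Or.inl hb))⟩
  · have h4 : (σ * τ) x = x := by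
      change σ (τ x) = x
      rw [ht, map_neg, hs, neg_neg]
    obtain ⟨b, hb⟩ := anti_K hv.right.symm h3 h4 hs
    exact ⟨b, Or.inr (Or.inr (Or.inr hb))⟩

open Classical in
/-- the class of `(s)` modulo rational ideals -/
noncomputable def sc (s : 𝓞 K) : FI K ⧸ PQ K :=
  if h : s = 0 then 1 else QuotientGroup.mk (toPrincipalIdeal (𝓞 K) K (Units.mk0 (s : K) (by simpa using h)))

theorem sc_mk {s : 𝓞 K} (h : s ≠ 0) {c : ℚ} {κ : Kˣ} (hκ : (κ : K) = c * (s : K)) :
    (QuotientGroup.mk (toPrincipalIdeal (𝓞 K) K κ) : FI K ⧸ PQ K) = sc s := by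
  have hc : c ≠ 0 := by
    rintro rfl
    rw [Rat.cast_zero, zero_mul] at hκ
    exact κ.ne_zero hκ
  unfold sc
  rw [dif_neg h]
  have : κ = (Units.map (algebraMap ℚ K).toMonoidHom (Units.mk0 c hc)) * Units.mk0 (s : K) (by simpa using h) := by
    apply Units.ext
    rw [hκ]; simp
  rw [this, map_mul, QuotientGroup.mk_mul]
  have h2 : (QuotientGroup.mk (toPrincipalIdeal (𝓞 K) K (Units.map (algebraMap ℚ K).toMonoidHom (Units.mk0 c hc))) :
      FI K ⧸ PQ K) = 1 := by
    rw [QuotientGroup.eq_one_iff]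
    exact ⟨Units.mk0 c hc, rfl⟩
  rw [h2]
  exact one_mul (QuotientGroup.mk (toPrincipalIdeal (𝓞 K) K (Units.mk0 (s : K) (by simpa using h))) :
    FI K ⧸ PQ K)

theorem map_ker_subset (hv : V4 σ τ) {D1 D2 D3 : ℤ} {s1 s2 s3 : 𝓞 K} (h1 : Rt σ τ D1 s1)
    (h2 : Rt τ σ D2 s2) (h3 : Rt (σ * τ) σ D3 s3) {x : FI K ⧸ PQ K}
    (hx : x ∈ (hb (K := K)).ker.map (ha (K := K))) :
    x = 1 ∨ (x = sc s1 ∧ 0 < D1) ∨ (x = sc s2 ∧ 0 < D2) ∨ (x = sc s3 ∧ 0 < D3) := by
  obtain ⟨⟨⟨κ, ε⟩, ⟨r, hr, h4⟩⟩, h5, rfl⟩ := hx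
  have h6 : (QuotientGroup.mk ε : UQ K) = 1 := h5
  rw [QuotientGroup.eq_one_iff] at h6
  obtain ⟨u, hu⟩ := h6
  have hu' : u ^ 2 = ε := hu
  simp only at h4
  have huK : ((u : 𝓞 K) : K) ≠ 0 := by
    have := u.ne_zero
    simpa using this
  -- κ / u squared is r
  have h7 : ((κ : K) / ((u : 𝓞 K) : K)) ^ 2 = (r : K) := by
    rw [div_pow, h4, ← hu']
    push_cast
    field_simp
  have hsame : ∀ (κ' : Kˣ), (κ' : K) = (κ : K) / ((u : 𝓞 K) : K) →
      (QuotientGroup.mk (toPrincipalIdeal (𝓞 K) K κ) : FI K ⧸ PQ K) =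
      QuotientGroup.mk (toPrincipalIdeal (𝓞 K) K κ') := by
    intro κ' h8
    congr 1
    have hε : toPrincipalIdeal (𝓞 K) K (Units.map (algebraMap (𝓞 K) K).toMonoidHom u) = 1 := by
      rw [toPrincipalIdeal_eq_iff, Units.val_one]
      apply le_antisymm
      · rw [FractionalIdeal.spanSingleton_le_iff_mem, FractionalIdeal.mem_one_iff]
        exact ⟨u, rfl⟩
      · rw [FractionalIdeal.one_le, FractionalIdeal.mem_spanSingleton]
        refine ⟨((u⁻¹ : (𝓞 K)ˣ) : 𝓞 K), ?_⟩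
        rw [Algebra.smul_def]
        change algebraMap (𝓞 K) K ((u⁻¹ : (𝓞 K)ˣ) : 𝓞 K) * algebraMap (𝓞 K) K (u : 𝓞 K) = 1
        rw [← map_mul, Units.inv_mul, map_one]
    have h9 : κ = κ' * (Units.map (algebraMap (𝓞 K) K).toMonoidHom u) := by
      apply Units.ext
      rw [Units.val_mul, h8]
      simp
    rw [h9, map_mul, hε, mul_one]
  have hκ'0 : (κ : K) / ((u : 𝓞 K) : K) ≠ 0 := div_ne_zero κ.ne_zero huK
  set κ' : Kˣ := Units.mk0 _ hκ'0 with hκ'
  have hxe : (ha (K := K)) ⟨(κ, ε), ⟨r, hr, h4⟩⟩ = QuotientGroup.mk (toPrincipalIdeal (𝓞 K) K κ') :=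
    hsame κ' rfl
  rw [hxe]
  have hpos : ∀ (D : ℤ) (s : 𝓞 K) (c : ℚ), s * s = ((D : ℤ) : 𝓞 K) →
      (κ : K) / ((u : 𝓞 K) : K) = c * (s : K) → 0 < D := by
    intro D s c hs hc
    rw [hc, mul_pow] at h7
    have hsK : (s : K) ^ 2 = ((D : ℤ) : K) := by
      have := congrArg (algebraMap (𝓞 K) K) hs
      rw [map_mul] at this
      rw [sq]
      simpa using this
    rw [hsK] at h7
    have h10 : c ^ 2 * D = r := by exact_mod_cast h7
    by_contra hneg
    push Not at hneg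
    have h11 : c ^ 2 * (D : ℚ) ≤ 0 := mul_nonpos_of_nonneg_of_nonpos (sq_nonneg c) (by exact_mod_cast hneg)
    rw [h10] at h11
    exact absurd hr (not_lt.2 h11)
  obtain ⟨c, hc⟩ := sq_rat hv h1 h2 h3 h7
  rcases hc with hc | hc | hc | hc
  · left
    rw [QuotientGroup.eq_one_iff]
    have hc0 : c ≠ 0 := by
      rintro rfl
      rw [Rat.cast_zero] at hc
      exact hκ'0 hc
    refine ⟨Units.mk0 c hc0, ?_⟩
    unfold pq
    rw [MonoidHom.comp_apply]
    congr 1
    apply Units.ext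
    simp [hκ', hc]
  · right; left
    exact ⟨sc_mk h1.s_ne_zero (c := c) hc, hpos _ _ _ h1.sq hc⟩
  · right; right; left
    exact ⟨sc_mk h2.s_ne_zero (c := c) hc, hpos _ _ _ h2.sq hc⟩
  · right; right; right
    exact ⟨sc_mk h3.s_ne_zero (c := c) hc, hpos _ _ _ h3.sq hc⟩

end Pool.Agent.H471R2
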