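import Pool.Agent.H471R2.Bq.Lower2
set_option autoImplicit false
set_option linter.all false
open NumberField Ideal nonZeroDivisors

namespace Pool.Agent.H471R2

variable {K : Type*} [Field K] [NumberField K]

/-- the image of `1 + σ` on the 2-torsion of the class group -/
noncomputable def HI (σ : K ≃ₐ[ℚ] K) : Subgroup (ClassGroup (𝓞 K)) where
  carrier := {w | ∃ x : ClassGroup (𝓞 K), x ^ 2 = 1 ∧ w = x * ca σ x}
  one_mem' := ⟨1, one_pow 2, by rw [map_one, mul_one]⟩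
  mul_mem' := by
    rintro _ _ ⟨x, hx, rfl⟩ ⟨y, hy, rfl⟩
    refine ⟨x * y, by rw [mul_pow, hx, hy, mul_one], ?_⟩
    rw [map_mul]
    exact mul_mul_mul_comm _ _ _ _
  inv_mem' := by
    rintro _ ⟨x, hx, rfl⟩
    refine ⟨x⁻¹, by rw [inv_pow, hx, inv_one], ?_⟩
    rw [map_inv, mul_inv]

theorem HI_elt {σ : K ≃ₐ[ℚ] K} {w : ClassGroup (𝓞 K)} (hw : w ∈ HI σ) :
    ∃ (I : Ideal (𝓞 K)) (hI : I ≠ ⊥) (α : 𝓞 K), α ≠ 0 ∧ I ^ 2 = span {α} ∧
      w = cl (I * ia σ I) (mul_ne_zero hI (ia_ne_bot σ hI)) := by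
  obtain ⟨x, hx, rfl⟩ := hw
  obtain ⟨I, hI, rfl⟩ := cl_surj x
  have h1 : cl (I * I) (mul_ne_zero hI hI) = 1 := by rw [cl_mul _ _ hI hI, ← sq, hx]
  obtain ⟨α, hα, h2⟩ := (cl_eq_one_iff _ _).1 h1
  refine ⟨I, hI, α, hα, by rw [sq, h2], ?_⟩
  rw [cl_mul _ _ hI (ia_ne_bot σ hI), ca_cl]

variable [IsGalois ℚ K] {σ τ : K ≃ₐ[ℚ] K}

theorem norm_pm (hv : V4 σ τ) {I : Ideal (𝓞 K)} {α : 𝓞 K} (h : I ^ 2 = span {α}) :
    Algebra.intNorm ℤ (𝓞 K) α = (absNorm I : ℤ) ^ 2 ∨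
      Algebra.intNorm ℤ (𝓞 K) α = -(absNorm I : ℤ) ^ 2 := by
  have h1 : (span {((Algebra.intNorm ℤ (𝓞 K) α : ℤ) : 𝓞 K)} : Ideal (𝓞 K)) =
      span {(((absNorm I : ℤ) ^ 2 : ℤ) : 𝓞 K)} := by
    have h2 := hv.norm_ideal I
    rw [← hv.norm_elt α, ← Ideal.span_singleton_mul_span_singleton,
      ← Ideal.span_singleton_mul_span_singleton, ← Ideal.span_singleton_mul_span_singleton,
      ← ia_span σ, ← ia_span τ, ← ia_span (σ * τ), ← h, ia_pow, ia_pow, ia_pow, ← mul_pow, ← mul_pow,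
      ← mul_pow, h2, Ideal.span_singleton_pow]
    push_cast
    rfl
  have h3 := span_int_dvd (K := K) (a := Algebra.intNorm ℤ (𝓞 K) α) (b := (absNorm I : ℤ) ^ 2) (by rw [h1])
  have h4 := span_int_dvd (K := K) (b := Algebra.intNorm ℤ (𝓞 K) α) (a := (absNorm I : ℤ) ^ 2) (by rw [h1])
  rcases Int.associated_iff.1 (associated_of_dvd_dvd h3 h4) with h5 | h5
  · left; exact h5
  · right; exact h5

theorem absNorm_ne {I : Ideal (𝓞 K)} (hI : I ≠ ⊥) : ((absNorm I : ℕ) : ℤ) ≠ 0 := by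
  rw [Ne, Int.natCast_eq_zero, Ideal.absNorm_eq_zero_iff]
  exact hI

theorem good (hv : V4 σ τ) {D : ℤ} {s : 𝓞 K} (h : Rt σ τ D s) {I : Ideal (𝓞 K)} (hI : I ≠ ⊥)
    {α : 𝓞 K} (hα : α ≠ 0) (hsq : I ^ 2 = span {α})
    (hN : Algebra.intNorm ℤ (𝓞 K) α = (absNorm I : ℤ) ^ 2 ∨ UU σ τ) :
    cl (I * ia σ I) (mul_ne_zero hI (ia_ne_bot σ hI)) ∈ (MM K D).map θ := by
  -- find γ
  obtain ⟨γ, hγσ, hγn, hγ⟩ : ∃ γ : 𝓞 K, ra σ γ = γ ∧
      γ * ra τ γ = ((absNorm I : ℤ) : 𝓞 K) * ((absNorm I : ℤ) : 𝓞 K) ∧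
      (I * ia σ I) ^ 2 = span {γ} := by
    have e1 : ra σ (α * ra σ α) = α * ra σ α := by
      rw [map_mul, ← ra_mul, hv.ss, ra_one, mul_comm]
    have e2 : (α * ra σ α) * ra τ (α * ra σ α) = ((Algebra.intNorm ℤ (𝓞 K) α : ℤ) : 𝓞 K) := by
      rw [← hv.norm_elt α, map_mul, ← ra_mul τ σ, ← hv.comm]; ring
    have e3 : (I * ia σ I) ^ 2 = span {α * ra σ α} := by
      rw [mul_pow, ← ia_pow, hsq, ia_span, Ideal.span_singleton_mul_span_singleton]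
    rcases norm_pm hv hsq with h1 | h1
    · refine ⟨_, e1, ?_, e3⟩
      rw [e2, h1]; push_cast; ring
    · rcases hN with h2 | ⟨ε, u1, u2⟩
      · exfalso
        rw [h2] at h1
        have h3 : ((absNorm I : ℕ) : ℤ) ^ 2 = 0 := by linarith
        exact absNorm_ne hI (pow_eq_zero_iff two_ne_zero |>.1 h3)
      · refine ⟨α * ra σ α * (ε : 𝓞 K), ?_, ?_, ?_⟩
        · rw [map_mul, e1, u1]
        · rw [map_mul]
          calc _ = ((α * ra σ α) * ra τ (α * ra σ α)) * ((ε : 𝓞 K) * ra τ (ε : 𝓞 K)) := by ring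
            _ = _ := by rw [e2, h1, u2]; push_cast; ring
        · rw [e3, Ideal.span_singleton_eq_span_singleton]
          exact ⟨ε, rfl⟩
  obtain ⟨η, n, hη0, hησ, hn0, hηn, hJ⟩ := exists_rat_square hv h hγσ (absNorm_ne hI) hγn hγ
  have hτη0 : ra τ η ≠ 0 := by
    rw [Ne, map_eq_zero_iff (ra τ) (ra τ).injective]; exact hη0
  have hτησ : ra σ (ra τ η) = ra τ η := by rw [← ra_mul, hv.comm, ra_mul, hησ]
  set r : ℤ := (absNorm I : ℤ) * n with hr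
  have hr0 : r ≠ 0 := mul_ne_zero (absNorm_ne hI) hn0
  have hJ0 : I * ia σ I * span {ra τ η} ≠ ⊥ :=
    mul_ne_zero (mul_ne_zero hI (ia_ne_bot σ hI)) (span_ne_bot hτη0)
  have hJ2 : (I * ia σ I * span {ra τ η}) ^ 2 ≠ ⊥ := pow_ne_zero 2 hJ0
  refine ⟨QuotientGroup.mk (toFI _ hJ0), ⟨toFI _ hJ0, ⟨Units.mk0 (r : ℚ) (by exact_mod_cast hr0), ?_, ?_⟩,
    rfl⟩, ?_⟩
  · rw [← toFI_sq _ _ hJ2, toFI_congr hJ, toFI_span_int hr0]
  · rw [Units.val_mk0]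
    apply evenAt_of hr0
    intro p hp hp2 hpD k hk
    exact even_odd_prime hv h hI hτησ hr0 hJ hp hp2 hpD hk
  · rw [θ_mk, mk_toFI, cl_mul _ _ (mul_ne_zero hI (ia_ne_bot σ hI)) (span_ne_bot hτη0),
      cl_span hτη0, mul_one]

theorem unit_of_sq {z : K} {u : (𝓞 K)ˣ} (h : z ^ 2 = ((u : 𝓞 K) : K)) :
    ∃ v : (𝓞 K)ˣ, ((v : 𝓞 K) : K) = z := by
  have h1 : IsIntegral ℤ z := by
    apply IsIntegral.of_pow (n := 2) (by norm_num)
    rw [h]; exact (u : 𝓞 K).isIntegral_coe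
  have h6 : ((((u)⁻¹ : (𝓞 K)ˣ) : 𝓞 K) : K) * ((u : 𝓞 K) : K) = 1 := by
    have : (((u)⁻¹ : (𝓞 K)ˣ) : 𝓞 K) * ((u : (𝓞 K)ˣ) : 𝓞 K) = 1 := Units.inv_mul _
    have h7 := congrArg (algebraMap (𝓞 K) K) this
    rwa [map_mul, map_one] at h7
  have hz0 : z ≠ 0 := by
    rintro rfl
    rw [zero_pow two_ne_zero] at h
    rw [← h, mul_zero] at h6
    exact zero_ne_one h6
  have h2 : IsIntegral ℤ z⁻¹ := by
    apply IsIntegral.of_pow (n := 2) (by norm_num)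
    rw [inv_pow, h, ← eq_inv_of_mul_eq_one_left h6]
    exact ((u⁻¹ : (𝓞 K)ˣ) : 𝓞 K).isIntegral_coe
  obtain ⟨w, hw⟩ : ∃ w : 𝓞 K, (w : K) = z := ⟨⟨z, h1⟩, rfl⟩
  obtain ⟨w', hw'⟩ : ∃ w : 𝓞 K, (w : K) = z⁻¹ := ⟨⟨z⁻¹, h2⟩, rfl⟩
  have hww : w * w' = 1 := by
    apply RingOfIntegers.coe_injective
    rw [map_mul, map_one]
    change (w : K) * (w' : K) = 1
    rw [hw, hw', mul_inv_cancel₀ hz0]
  exact ⟨⟨w, w', hww, by rw [mul_comm]; exact hww⟩, hw⟩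

theorem norm_one_of (hv : V4 σ τ) (hU : ¬ UU σ τ) {z : K} {u : (𝓞 K)ˣ}
    (h : z ^ 2 = ((u : 𝓞 K) : K)) (hσ : σ z = z) : z * τ z = 1 := by
  obtain ⟨v, rfl⟩ := unit_of_sq h
  have h1 : ra σ (v : 𝓞 K) = v := by
    apply RingOfIntegers.coe_injective
    exact hσ
  rcases unit_norm hv h1 with h2 | h2
  · have := congrArg (algebraMap (𝓞 K) K) h2
    rw [map_mul, map_one] at this
    exact this
  · exact absurd ⟨v, h1, h2⟩ hU

theorem V4.e1 (hv : V4 σ τ) (z : K) : σ (σ z) = z := by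
  change (σ * σ) z = z
  rw [hv.ss]; rfl
theorem V4.e2 (hv : V4 σ τ) (z : K) : τ (τ z) = z := by
  change (τ * τ) z = z
  rw [hv.tt]; rfl
theorem V4.e3 (hv : V4 σ τ) (z : K) : τ (σ z) = σ (τ z) := by
  change (τ * σ) z = (σ * τ) z
  rw [hv.comm]

/-- positivity of the norm -/
theorem NB (hv : V4 σ τ) (hUτ : ¬ UU τ σ) (hUρ : ¬ UU (σ * τ) σ) {I I' : Ideal (𝓞 K)}
    (hI : I ≠ ⊥) (hI' : I' ≠ ⊥) {α β : 𝓞 K} (hα : α ≠ 0) (hβ : β ≠ 0)
    (h : I ^ 2 = span {α}) (h' : I' ^ 2 = span {β})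
    (hcl : cl (I * ia σ I) (mul_ne_zero hI (ia_ne_bot σ hI)) =
      cl (I' * ia τ I') (mul_ne_zero hI' (ia_ne_bot τ hI'))) :
    Algebra.intNorm ℤ (𝓞 K) β = (absNorm I' : ℤ) ^ 2 := by
  obtain ⟨x, y, hx, hy, hxy⟩ := (cl_eq_cl_iff _ _ _ _).1 hcl
  have h0 : ∀ (g : K ≃ₐ[ℚ] K) (z c : 𝓞 K) (L : Ideal (𝓞 K)), L ^ 2 = span {c} →
      (span {z ^ 2 * (c * ra g c)} : Ideal (𝓞 K)) = (span {z} * (L * ia g L)) ^ 2 := by
    intro g z c L hL
    rw [mul_pow, mul_pow, ← ia_pow, hL, ia_span, Ideal.span_singleton_pow,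
      Ideal.span_singleton_mul_span_singleton, Ideal.span_singleton_mul_span_singleton]
  have h1 : span {x ^ 2 * (α * ra σ α)} = (span {y ^ 2 * (β * ra τ β)} : Ideal (𝓞 K)) := by
    rw [h0 σ x α I h, h0 τ y β I' h', hxy]
  rw [Ideal.span_singleton_eq_span_singleton] at h1
  obtain ⟨u, hu⟩ := h1
  have E : (x : K) ^ 2 * ((α : K) * σ (α : K)) * ((u : 𝓞 K) : K) =
      (y : K) ^ 2 * ((β : K) * τ (β : K)) := by
    have := congrArg (algebraMap (𝓞 K) K) hu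
    simp only [map_mul, map_pow] at this
    exact this
  have Eτ : (τ (x : K)) ^ 2 * (τ (α : K) * σ (τ (α : K))) * τ ((u : 𝓞 K) : K) =
      (τ (y : K)) ^ 2 * (τ (β : K) * (β : K)) := by
    have := congrArg τ E
    simp only [map_mul, map_pow, hv.e2, hv.e3] at this
    exact this
  have Eρ : (σ (τ (x : K))) ^ 2 * (σ (τ (α : K)) * τ (α : K)) * σ (τ ((u : 𝓞 K) : K)) =
      (σ (τ (y : K))) ^ 2 * (σ (τ (β : K)) * σ (β : K)) := by
    have := congrArg (fun z => σ (τ z)) E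
    simp only [map_mul, map_pow, hv.e1, hv.e2, hv.e3] at this
    exact this
  have Nα : (α : K) * σ (α : K) * τ (α : K) * σ (τ (α : K)) =
      ((Algebra.intNorm ℤ (𝓞 K) α : ℤ) : K) := by
    have := congrArg (algebraMap (𝓞 K) K) (hv.norm_elt α)
    simp only [map_mul, map_intCast] at this
    exact this
  have Nβ : (β : K) * σ (β : K) * τ (β : K) * σ (τ (β : K)) =
      ((Algebra.intNorm ℤ (𝓞 K) β : ℤ) : K) := by
    have := congrArg (algebraMap (𝓞 K) K) (hv.norm_elt β)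
    simp only [map_mul, map_intCast] at this
    exact this
  have hne : ∀ (g : K ≃ₐ[ℚ] K) (z : 𝓞 K), z ≠ 0 → g (z : K) ≠ 0 := by
    intro g z hz
    rw [Ne, map_eq_zero]
    simpa using hz
  have hne1 : ∀ (z : 𝓞 K), z ≠ 0 → (z : K) ≠ 0 := fun z hz => by simpa using hz
  have hne2 : ∀ (z : 𝓞 K), z ≠ 0 → σ (τ (z : K)) ≠ 0 := by
    intro z hz
    rw [Ne, map_eq_zero]
    exact hne τ z hz
  set A : K := ((absNorm I : ℕ) : K) with hA
  set B : K := ((absNorm I' : ℕ) : K) with hB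
  have hA0 : A ≠ 0 := by
    have := absNorm_ne hI
    rw [hA]; exact_mod_cast this
  have hB0 : B ≠ 0 := by
    have := absNorm_ne hI'
    rw [hB]; exact_mod_cast this
  have hσA : σ A = A := by rw [hA, map_natCast]
  have hσB : σ B = B := by rw [hB, map_natCast]
  have hτA : τ A = A := by rw [hA, map_natCast]
  have hτB : τ B = B := by rw [hB, map_natCast]
  have x0 := hne1 x hx
  have x1 := hne σ x hx
  have x2 := hne τ x hx
  have x3 := hne2 x hx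
  have y0 := hne1 y hy
  have y1 := hne σ y hy
  have y2 := hne τ y hy
  have y3 := hne2 y hy
  have b0 := hne1 β hβ
  have b1 := hne σ β hβ
  have b2 := hne τ β hβ
  have b3 := hne2 β hβ
  -- signs as units
  obtain ⟨a, ha⟩ : ∃ a : (𝓞 K)ˣ, ((Algebra.intNorm ℤ (𝓞 K) α : ℤ) : K) = ((a : 𝓞 K) : K) * A ^ 2 := by
    rcases norm_pm hv h with h2 | h2
    · exact ⟨1, by rw [h2, hA]; simp⟩
    · exact ⟨-1, by rw [h2, hA]; simp⟩
  obtain ⟨b, hb, hbb⟩ : ∃ b : (𝓞 K)ˣ, ((Algebra.intNorm ℤ (𝓞 K) β : ℤ) : K) = ((b : 𝓞 K) : K) * B ^ 2 ∧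
      ((b : 𝓞 K) : K) * ((b : 𝓞 K) : K) = 1 := by
    rcases norm_pm hv h' with h2 | h2
    · exact ⟨1, by rw [h2, hB]; simp, by simp⟩
    · exact ⟨-1, by rw [h2, hB]; simp, by simp⟩
  rw [ha] at Nα
  rw [hb] at Nβ
  -- z_τ
  have hz1 : ((y : K) * τ (y : K) * (β : K) * τ (β : K)) / ((x : K) * τ (x : K) * A) *
      σ (((y : K) * τ (y : K) * (β : K) * τ (β : K)) / ((x : K) * τ (x : K) * A)) = 1 := by
    obtain ⟨uu, huu⟩ : ∃ uu : (𝓞 K)ˣ, ((uu : 𝓞 K) : K) =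
        ((a : 𝓞 K) : K) * (((u : 𝓞 K) : K) * τ ((u : 𝓞 K) : K)) := by
      refine ⟨a * (u * (Units.map (ra τ : 𝓞 K →* 𝓞 K) u)), ?_⟩
      push_cast
      rfl
    apply norm_one_of hv.symm hUτ (u := uu)
    · rw [huu, div_pow, div_eq_iff (by positivity)]
      calc _ = ((y : K) ^ 2 * ((β : K) * τ (β : K))) * ((τ (y : K)) ^ 2 * (τ (β : K) * (β : K))) := by ring
        _ = ((x : K) ^ 2 * ((α : K) * σ (α : K)) * ((u : 𝓞 K) : K)) *
          ((τ (x : K)) ^ 2 * (τ (α : K) * σ (τ (α : K))) * τ ((u : 𝓞 K) : K)) := by rw [E, Eτ]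
        _ = ((α : K) * σ (α : K) * τ (α : K) * σ (τ (α : K))) * ((x : K) * τ (x : K)) ^ 2 *
          (((u : 𝓞 K) : K) * τ ((u : 𝓞 K) : K)) := by ring
        _ = _ := by rw [Nα]; ring
    · simp only [map_div₀, map_mul, hv.e2, hτA]
      ring
  have hz2 : ((y : K) * σ (τ (y : K)) * B) / ((x : K) * σ (τ (x : K)) * A) *
      σ (((y : K) * σ (τ (y : K)) * B) / ((x : K) * σ (τ (x : K)) * A)) = 1 := by
    obtain ⟨uu, huu⟩ : ∃ uu : (𝓞 K)ˣ, ((uu : 𝓞 K) : K) =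
        ((a : 𝓞 K) : K) * ((b : 𝓞 K) : K) * (((u : 𝓞 K) : K) * σ (τ ((u : 𝓞 K) : K))) := by
      refine ⟨a * b * (u * (Units.map (ra (σ * τ) : 𝓞 K →* 𝓞 K) u)), ?_⟩
      push_cast
      rfl
    apply norm_one_of hv.right.symm hUρ (u := uu)
    · rw [huu, div_pow, div_eq_iff (by positivity)]
      have e5 : ((y : K) ^ 2 * ((β : K) * τ (β : K))) * ((σ (τ (y : K))) ^ 2 * (σ (τ (β : K)) * σ (β : K))) =
        ((x : K) ^ 2 * ((α : K) * σ (α : K)) * ((u : 𝓞 K) : K)) *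
          ((σ (τ (x : K))) ^ 2 * (σ (τ (α : K)) * τ (α : K)) * σ (τ ((u : 𝓞 K) : K))) := by rw [E, Eρ]
      have e6 : ((y : K) * σ (τ (y : K))) ^ 2 * ((β : K) * σ (β : K) * τ (β : K) * σ (τ (β : K))) =
        ((α : K) * σ (α : K) * τ (α : K) * σ (τ (α : K))) * ((x : K) * σ (τ (x : K))) ^ 2 *
          (((u : 𝓞 K) : K) * σ (τ ((u : 𝓞 K) : K))) := by linear_combination e5
      rw [Nα, Nβ] at e6
      calc _ = (((b : 𝓞 K) : K) * ((b : 𝓞 K) : K)) * (((y : K) * σ (τ (y : K))) ^ 2 * B ^ 2) := by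
            rw [hbb]; ring
        _ = ((b : 𝓞 K) : K) * (((y : K) * σ (τ (y : K))) ^ 2 * (((b : 𝓞 K) : K) * B ^ 2)) := by ring
        _ = _ := by rw [e6]; ring
    · change σ (τ _) = _
      simp only [map_div₀, map_mul, hv.e1, hv.e2, hv.e3, hτA, hτB, hσA, hσB]
      ring
  simp only [map_div₀, map_mul, hv.e1, hσA, hσB] at hz1 hz2
  have hfin : ((b : 𝓞 K) : K) = 1 := by
    have e7 : (y : K) * τ (y : K) * (σ (y : K) * σ (τ (y : K))) *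
        ((β : K) * σ (β : K) * τ (β : K) * σ (τ (β : K))) =
        (x : K) * τ (x : K) * (σ (x : K) * σ (τ (x : K))) * A ^ 2 := by
      field_simp at hz1
      linear_combination hz1
    have e8 : (y : K) * τ (y : K) * (σ (y : K) * σ (τ (y : K))) * B ^ 2 =
        (x : K) * τ (x : K) * (σ (x : K) * σ (τ (x : K))) * A ^ 2 := by
      field_simp at hz2
      linear_combination hz2
    rw [Nβ, ← e8] at e7
    have e9 : (y : K) * τ (y : K) * (σ (y : K) * σ (τ (y : K))) * B ^ 2 ≠ 0 := by positivity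
    apply mul_left_cancel₀ e9
    linear_combination e7
  rw [hfin, one_mul, hB] at hb
  exact_mod_cast hb

end Pool.Agent.H471R2
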