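import Pool.Agent.H471R2.Bq.Grp
set_option autoImplicit false
set_option linter.unusedSectionVars false
set_option linter.style.haveILetI false
open NumberField Ideal nonZeroDivisors

namespace Pool.Agent.H471R2

variable (K : Type*) [Field K] [NumberField K]

/-- units modulo squares -/
abbrev UQ := (𝓞 K)ˣ ⧸ (powMonoidHom 2 : (𝓞 K)ˣ →* (𝓞 K)ˣ).range

variable {K}

theorem mk_eq_of_sq {x y z : (𝓞 K)ˣ} (h : x = y * z ^ 2) :
    (QuotientGroup.mk x : UQ K) = QuotientGroup.mk y := by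
  rw [QuotientGroup.eq]
  refine ⟨z⁻¹, ?_⟩
  rw [h]
  change (z⁻¹) ^ 2 = (y * z ^ 2)⁻¹ * y
  group

variable (K) in
theorem card_UQ : Finite (UQ K) ∧ Nat.card (UQ K) ≤ 2 ^ (Units.rank K + 1) := by
  classical
  obtain ⟨ζ, hζ⟩ := IsCyclic.exists_generator (α := NumberField.Units.torsion K)
  let f : (Fin 2 × (Fin (Units.rank K) → Fin 2)) → UQ K := fun p =>
    QuotientGroup.mk ((ζ : (𝓞 K)ˣ) ^ (p.1 : ℕ) * ∏ i, Units.fundSystem K i ^ (p.2 i : ℕ))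
  have hf : Function.Surjective f := by
    intro q
    obtain ⟨x, rfl⟩ := QuotientGroup.mk_surjective q
    obtain ⟨⟨t, e⟩, hx, -⟩ := Units.exist_unique_eq_mul_prod K x
    obtain ⟨k, hk⟩ := hζ t
    simp only at hk hx
    refine ⟨(⟨(k % 2).toNat, by omega⟩, fun i => ⟨(e i % 2).toNat, by omega⟩), ?_⟩
    symm
    apply mk_eq_of_sq (z := (ζ : (𝓞 K)ˣ) ^ (k / 2) * ∏ i, Units.fundSystem K i ^ (e i / 2))
    rw [hx, ← hk]
    have h1 : ∀ (u : (𝓞 K)ˣ) (n : ℤ), u ^ n = u ^ ((n % 2).toNat) * (u ^ (n / 2)) ^ 2 := by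
      intro u n
      rw [← zpow_natCast u, ← zpow_natCast (u ^ (n / 2)), ← zpow_mul, ← zpow_add]
      congr 1
      push_cast
      rw [Int.toNat_of_nonneg (by omega)]
      omega
    push_cast
    rw [h1 (ζ : (𝓞 K)ˣ) k, mul_pow, ← Finset.prod_pow]
    rw [Finset.prod_congr rfl (fun i _ => h1 (Units.fundSystem K i) (e i)), Finset.prod_mul_distrib]
    simp only [mul_assoc, mul_left_comm]
  have hfin : Finite (UQ K) := Finite.of_surjective f hf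
  refine ⟨hfin, ?_⟩
  refine (Nat.card_le_card_of_surjective f hf).trans ?_
  rw [Nat.card_prod, Nat.card_fun]
  simp only [Nat.card_eq_fintype_card, Fintype.card_fin]
  rw [pow_succ, mul_comm]

/-- sign of a unit under a real embedding -/
noncomputable def sg (φ : K →+* ℝ) : (𝓞 K)ˣ →* ℤˣ where
  toFun x := if 0 < φ ((x : 𝓞 K) : K) then 1 else -1
  map_one' := by simp
  map_mul' x y := by
    have hx : φ ((x : 𝓞 K) : K) ≠ 0 := by
      intro h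
      rw [map_eq_zero] at h
      exact x.ne_zero (by exact_mod_cast h)
    have hy : φ ((y : 𝓞 K) : K) ≠ 0 := by
      intro h
      rw [map_eq_zero] at h
      exact y.ne_zero (by exact_mod_cast h)
    have hxy : φ (((x * y : (𝓞 K)ˣ) : 𝓞 K) : K) = φ ((x : 𝓞 K) : K) * φ ((y : 𝓞 K) : K) := by
      rw [← map_mul]
      congr 1
    rw [hxy]
    rcases lt_or_gt_of_ne hx with h1 | h1 <;> rcases lt_or_gt_of_ne hy with h2 | h2
    · have h3 := mul_pos_of_neg_of_neg h1 h2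
      rw [if_pos h3, if_neg (not_lt.2 h1.le), if_neg (not_lt.2 h2.le)]; rfl
    · have h3 := mul_neg_of_neg_of_pos h1 h2
      rw [if_neg (not_lt.2 h3.le), if_neg (not_lt.2 h1.le), if_pos h2]; rfl
    · have h3 := mul_neg_of_pos_of_neg h1 h2
      rw [if_neg (not_lt.2 h3.le), if_neg (not_lt.2 h2.le), if_pos h1]; rfl
    · have h3 := mul_pos h1 h2
      rw [if_pos h3, if_pos h1, if_pos h2]; rfl

theorem sg_eq_one {φ : K →+* ℝ} {x : (𝓞 K)ˣ} (h : 0 < φ ((x : 𝓞 K) : K)) : sg φ x = 1 := if_pos h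

theorem sg_eq_neg_one {φ : K →+* ℝ} {x : (𝓞 K)ˣ} (h : ¬ 0 < φ ((x : 𝓞 K) : K)) : sg φ x = -1 := if_neg h

theorem sg_pos_of {φ : K →+* ℝ} {x : (𝓞 K)ˣ} (h : sg φ x = 1) : 0 < φ ((x : 𝓞 K) : K) := by
  by_contra h1
  rw [sg_eq_neg_one h1] at h
  exact absurd h (by decide)

theorem sg_neg_one (φ : K →+* ℝ) : sg φ (-1) = -1 := by
  apply sg_eq_neg_one
  simp

theorem sg_sq (φ : K →+* ℝ) (x : (𝓞 K)ˣ) : sg φ (x ^ 2) = 1 := by
  rw [map_pow, Int.units_sq]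

/-- sign on units modulo squares -/
noncomputable def sgQ (φ : K →+* ℝ) : UQ K →* ℤˣ :=
  QuotientGroup.lift _ (sg φ) (by
    rintro _ ⟨x, rfl⟩
    exact sg_sq φ x)

theorem sgQ_mk (φ : K →+* ℝ) (x : (𝓞 K)ˣ) : sgQ φ (QuotientGroup.mk x) = sg φ x := rfl

/-- Abstract: a subgroup in the kernel of a surjection. -/
theorem card_ker_bound {Q T : Type*} [CommGroup Q] [CommGroup T] [Finite Q] (S : Q →* T)
    (hS : Function.Surjective S) (B : Subgroup Q) (hB : B ≤ S.ker) :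
    Nat.card B * Nat.card T ≤ Nat.card Q := by
  have h1 : Nat.card Q = Nat.card S.ker * Nat.card S.range := by
    rw [← Subgroup.index_ker, Subgroup.card_mul_index]
  have h2 : Nat.card S.range = Nat.card T := by
    rw [MonoidHom.range_eq_top.2 hS]
    exact Nat.card_congr (Subgroup.topEquiv.toEquiv)
  rw [h1, h2]
  exact Nat.mul_le_mul_right _ (Nat.card_le_card_of_injective _ (Subgroup.inclusion_injective hB))

variable (K) in
/-- pairs (κ, ε) with κ² = r ε, r a positive rational. -/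
noncomputable def HH : Subgroup (Kˣ × (𝓞 K)ˣ) where
  carrier := {p | ∃ r : ℚ, 0 < r ∧ (p.1 : K) ^ 2 = (r : K) * ((p.2 : 𝓞 K) : K)}
  one_mem' := ⟨1, one_pos, by simp⟩
  mul_mem' := by
    rintro x y ⟨r, h1, h2⟩ ⟨s, h3, h4⟩
    refine ⟨r * s, mul_pos h1 h3, ?_⟩
    simp only [Prod.fst_mul, Prod.snd_mul, Units.val_mul, mul_pow, h2, h4, map_mul]
    push_cast
    ring
  inv_mem' := by
    rintro x ⟨r, h1, h2⟩
    refine ⟨r⁻¹, inv_pos.2 h1, ?_⟩
    have h5 : (((x.2)⁻¹ : (𝓞 K)ˣ) : 𝓞 K) = (((x.2)⁻¹ : (𝓞 K)ˣ) : 𝓞 K) := rfl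
    have h6 : ((((x.2)⁻¹ : (𝓞 K)ˣ) : 𝓞 K) : K) * ((x.2 : 𝓞 K) : K) = 1 := by
      have : (((x.2)⁻¹ : (𝓞 K)ˣ) : 𝓞 K) * ((x.2 : (𝓞 K)ˣ) : 𝓞 K) = 1 := Units.inv_mul _
      have h7 := congrArg (algebraMap (𝓞 K) K) this
      rwa [map_mul, map_one] at h7
    have h7 : ((((x.2)⁻¹ : (𝓞 K)ˣ) : 𝓞 K) : K) = (((x.2 : 𝓞 K) : K))⁻¹ := eq_inv_of_mul_eq_one_left h6
    simp only [Prod.fst_inv, Prod.snd_inv, Units.val_inv_eq_inv_val, inv_pow, h2, mul_inv]
    rw [h7]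
    push_cast
    ring

/-- first projection to ideals modulo rational ideals -/
noncomputable def ha : HH K →* (FI K ⧸ PQ K) :=
  (QuotientGroup.mk' (PQ K)).comp ((toPrincipalIdeal (𝓞 K) K).comp
    ((MonoidHom.fst _ _).comp (HH K).subtype))

/-- second projection to units modulo squares -/
noncomputable def hb : HH K →* UQ K :=
  (QuotientGroup.mk' _).comp ((MonoidHom.snd _ _).comp (HH K).subtype)

theorem unit_of_tpi_eq {x y : Kˣ} (h : toPrincipalIdeal (𝓞 K) K x = toPrincipalIdeal (𝓞 K) K y) :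
    ∃ u : (𝓞 K)ˣ, (x : K) = (y : K) * ((u : 𝓞 K) : K) := by
  have i1 : ∀ w : Kˣ, toPrincipalIdeal (𝓞 K) K w = 1 → ∃ z : 𝓞 K, (z : K) = w := by
    intro w hw
    rw [toPrincipalIdeal_eq_iff] at hw
    have : (w : K) ∈ (1 : FractionalIdeal (𝓞 K)⁰ K) := by
      rw [← Units.val_one, ← hw]; exact FractionalIdeal.mem_spanSingleton_self _ _
    rw [FractionalIdeal.mem_one_iff] at this
    exact this
  have h1 : toPrincipalIdeal (𝓞 K) K (x / y) = 1 := by rw [map_div, h, div_self']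
  have h2 : toPrincipalIdeal (𝓞 K) K (y / x) = 1 := by rw [map_div, h, div_self']
  obtain ⟨a, ha⟩ := i1 _ h1
  obtain ⟨b, hb⟩ := i1 _ h2
  have hab : a * b = 1 := by
    apply RingOfIntegers.coe_injective
    rw [map_mul, map_one]
    change (a : K) * (b : K) = 1
    rw [ha, hb, ← Units.val_mul]
    simp
  refine ⟨⟨a, b, hab, by rw [mul_comm]; exact hab⟩, ?_⟩
  change (x : K) = (y : K) * (a : K)
  rw [ha, Units.val_div_eq_div_val]
  field_simp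

theorem rat_unit_pos {q : ℚ} (hq : 0 < q) {u : (𝓞 K)ˣ} (h : ((u : 𝓞 K) : K) = (q : K)) : q = 1 := by
  have i1 : IsIntegral ℤ q := by
    have hint : IsIntegral ℤ ((q : ℚ) : K) := by rw [← h]; exact (u : 𝓞 K).isIntegral_coe
    exact (isIntegral_algebraMap_iff (R := ℤ) (A := ℚ) (B := K) (algebraMap ℚ K).injective (x := q)).1 hint
  have h6 : ((((u)⁻¹ : (𝓞 K)ˣ) : 𝓞 K) : K) * ((u : 𝓞 K) : K) = 1 := by
    have : (((u)⁻¹ : (𝓞 K)ˣ) : 𝓞 K) * ((u : (𝓞 K)ˣ) : 𝓞 K) = 1 := Units.inv_mul _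
    have h7 := congrArg (algebraMap (𝓞 K) K) this
    rwa [map_mul, map_one] at h7
  have h7 : ((((u)⁻¹ : (𝓞 K)ˣ) : 𝓞 K) : K) = ((q⁻¹ : ℚ) : K) := by
    rw [h] at h6
    push_cast
    exact eq_inv_of_mul_eq_one_left h6
  have i2 : IsIntegral ℤ (q⁻¹ : ℚ) := by
    have hint : IsIntegral ℤ ((q⁻¹ : ℚ) : K) := by
      rw [← h7]; exact (((u)⁻¹ : (𝓞 K)ˣ) : 𝓞 K).isIntegral_coe
    exact (isIntegral_algebraMap_iff (R := ℤ) (A := ℚ) (B := K) (algebraMap ℚ K).injective (x := q⁻¹)).1 hint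
  obtain ⟨a, ha⟩ := IsIntegrallyClosed.isIntegral_iff.1 i1
  obtain ⟨b, hb⟩ := IsIntegrallyClosed.isIntegral_iff.1 i2
  have ha' : (a : ℚ) = q := ha
  have hb' : (b : ℚ) = q⁻¹ := hb
  have hab : a * b = 1 := by
    have : (a : ℚ) * (b : ℚ) = 1 := by
      rw [ha', hb', mul_inv_cancel₀ hq.ne']
    exact_mod_cast this
  rcases Int.eq_one_or_neg_one_of_mul_eq_one hab with h | h
  · rw [← ha', h]; norm_num
  · exfalso
    rw [← ha', h] at hq
    norm_num at hq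

theorem ker_ha_le : (ha (K := K)).ker ≤ (hb (K := K)).ker := by
  rintro ⟨⟨κ, ε⟩, ⟨r, hr, h1⟩⟩ h2
  rw [MonoidHom.mem_ker] at h2
  have h3 : toPrincipalIdeal (𝓞 K) K κ ∈ PQ K := by
    rw [← QuotientGroup.eq_one_iff]; exact h2
  obtain ⟨q, hq⟩ := h3
  unfold pq at hq
  rw [MonoidHom.comp_apply] at hq
  obtain ⟨u, hu⟩ := unit_of_tpi_eq hq.symm
  rw [MonoidHom.mem_ker]
  change (QuotientGroup.mk ε : UQ K) = 1
  rw [QuotientGroup.eq_one_iff]
  -- κ = q u ; κ² = r ε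
  have hqK : ((Units.map (algebraMap ℚ K).toMonoidHom q : Kˣ) : K) = ((q : ℚ) : K) := by simp
  rw [hqK] at hu
  simp only at h1
  rw [hu, mul_pow] at h1
  have hrK : (r : K) ≠ 0 := by exact_mod_cast hr.ne'
  have hu6 : ((((u)⁻¹ : (𝓞 K)ˣ) : 𝓞 K) : K) * ((u : 𝓞 K) : K) = 1 := by
    have : (((u)⁻¹ : (𝓞 K)ˣ) : 𝓞 K) * ((u : (𝓞 K)ˣ) : 𝓞 K) = 1 := Units.inv_mul _
    have h7 := congrArg (algebraMap (𝓞 K) K) this
    rwa [map_mul, map_one] at h7
  have h4 : (((ε * (u⁻¹) ^ 2 : (𝓞 K)ˣ) : 𝓞 K) : K) = (((q : ℚ) ^ 2 / r : ℚ) : K) := by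
    have e1 : (((ε * (u⁻¹) ^ 2 : (𝓞 K)ˣ) : 𝓞 K) : K) = ((ε : 𝓞 K) : K) * ((((u)⁻¹ : (𝓞 K)ˣ) : 𝓞 K) : K) ^ 2 := by
      push_cast
      rfl
    rw [e1]
    push_cast
    rw [eq_div_iff hrK]
    calc _ = ((r : K) * ((ε : 𝓞 K) : K)) * ((((u)⁻¹ : (𝓞 K)ˣ) : 𝓞 K) : K) ^ 2 := by ring
      _ = ((q : ℚ) : K) ^ 2 * (((((u)⁻¹ : (𝓞 K)ˣ) : 𝓞 K) : K) * ((u : 𝓞 K) : K)) ^ 2 := by
        rw [← h1]; ring
      _ = _ := by rw [hu6]; ring
  have h5 : (0 : ℚ) < (q : ℚ) ^ 2 / r := div_pos (by have := q.ne_zero; positivity) hr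
  have h6 := rat_unit_pos h5 h4
  rw [h6] at h4
  have h7 : ε * (u⁻¹) ^ 2 = 1 := by
    apply Units.ext
    apply RingOfIntegers.coe_injective
    change (((ε * (u⁻¹) ^ 2 : (𝓞 K)ˣ) : 𝓞 K) : K) = ((1 : 𝓞 K) : K)
    rw [h4]
    simp
  refine ⟨u, ?_⟩
  change u ^ 2 = ε
  rw [inv_pow, mul_inv_eq_one] at h7
  exact h7.symm

theorem range_ha : (ha (K := K)).range = NN K := by
  ext x
  constructor
  · rintro ⟨⟨⟨κ, ε⟩, ⟨r, hr, h1⟩⟩, rfl⟩
    refine ⟨toPrincipalIdeal (𝓞 K) K κ, ⟨?_, ?_⟩, rfl⟩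
    · change (toPrincipalIdeal (𝓞 K) K κ) ^ 2 ∈ PQ K
      refine ⟨Units.mk0 r hr.ne', ?_⟩
      unfold pq
      rw [MonoidHom.comp_apply, ← map_pow]
      have hε : toPrincipalIdeal (𝓞 K) K (Units.map (algebraMap (𝓞 K) K).toMonoidHom ε) = 1 := by
        rw [toPrincipalIdeal_eq_iff, Units.val_one]
        apply le_antisymm
        · rw [FractionalIdeal.spanSingleton_le_iff_mem, FractionalIdeal.mem_one_iff]
          exact ⟨ε, rfl⟩
        · rw [FractionalIdeal.one_le, FractionalIdeal.mem_spanSingleton]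
          refine ⟨((ε⁻¹ : (𝓞 K)ˣ) : 𝓞 K), ?_⟩
          rw [Algebra.smul_def]
          change algebraMap (𝓞 K) K ((ε⁻¹ : (𝓞 K)ˣ) : 𝓞 K) * algebraMap (𝓞 K) K (ε : 𝓞 K) = 1
          rw [← map_mul, Units.inv_mul, map_one]
      have h2 : κ ^ 2 = (Units.map (algebraMap ℚ K).toMonoidHom (Units.mk0 r hr.ne')) *
          (Units.map (algebraMap (𝓞 K) K).toMonoidHom ε) := by
        apply Units.ext
        rw [Units.val_pow_eq_pow_val, h1]
        simp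
      rw [h2, map_mul, hε, mul_one]
    · exact mk_tpi κ
  · rintro ⟨J, ⟨⟨q, hq⟩, h2⟩, rfl⟩
    obtain ⟨κ, rfl⟩ := exists_tpi h2
    -- choose the positive generator
    have hpos : ∃ r : ℚ, ∃ hr : 0 < r, pq K (Units.mk0 r hr.ne') = (toPrincipalIdeal (𝓞 K) K κ) ^ 2 := by
      rcases lt_or_gt_of_ne q.ne_zero with h | h
      · refine ⟨-(q : ℚ), neg_pos.2 h, ?_⟩
        have : Units.mk0 (-(q : ℚ)) (neg_pos.2 h).ne' = -q := by
          apply Units.ext; simp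
        rw [this, pq_neg]; exact hq
      · refine ⟨(q : ℚ), h, ?_⟩
        have : Units.mk0 ((q : ℚ)) h.ne' = q := by
          apply Units.ext; simp
        rw [this]; exact hq
    obtain ⟨r, hr, hrq⟩ := hpos
    unfold pq at hrq
    rw [MonoidHom.comp_apply, ← map_pow] at hrq
    obtain ⟨u, hu⟩ := unit_of_tpi_eq hrq.symm
    refine ⟨⟨(κ, u), ⟨r, hr, ?_⟩⟩, rfl⟩
    rw [Units.val_pow_eq_pow_val] at hu
    simp only
    rw [hu]
    simp

theorem card_NN [Finite (UQ K)] (hfin : Finite ((hb (K := K)).ker.map (ha (K := K)))) :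
    Finite (NN K) ∧ Nat.card (NN K) =
      Nat.card ((hb (K := K)).ker.map (ha (K := K))) * Nat.card (hb (K := K)).range := by
  have h1 : (ha (K := K)).ker.index = Nat.card (NN K) := by
    rw [Subgroup.index_ker, range_ha]
  have h2 := Subgroup.relIndex_mul_index (ker_ha_le (K := K))
  rw [Subgroup.relIndex_ker, Subgroup.index_ker, h1] at h2
  refine ⟨?_, h2.symm⟩
  apply Nat.finite_of_card_ne_zero
  rw [← h2]
  exact mul_ne_zero Nat.card_pos.ne' Nat.card_pos.ne'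

end Pool.Agent.H471R2
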