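import Pool.Agent.H471R2.Bq.Basic
set_option autoImplicit false
set_option linter.unusedSectionVars false
open NumberField Ideal nonZeroDivisors

namespace Pool.Agent.H471R2

variable {K : Type*} [Field K] [NumberField K]

/-- `σ, τ` generate the Galois group, which is a Klein four group. -/
structure V4 (σ τ : K ≃ₐ[ℚ] K) : Prop where
  ss : σ * σ = 1
  tt : τ * τ = 1
  comm : σ * τ = τ * σ
  all : ∀ ρ : K ≃ₐ[ℚ] K, ρ = 1 ∨ ρ = σ ∨ ρ = τ ∨ ρ = σ * τ
  s1 : σ ≠ 1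
  t1 : τ ≠ 1
  st : σ ≠ τ

namespace V4
variable {σ τ : K ≃ₐ[ℚ] K}

theorem symm (h : V4 σ τ) : V4 τ σ where
  ss := h.tt
  tt := h.ss
  comm := h.comm.symm
  all := fun ρ => by
    rcases h.all ρ with h1 | h1 | h1 | h1
    · exact Or.inl h1
    · exact Or.inr (Or.inr (Or.inl h1))
    · exact Or.inr (Or.inl h1)
    · exact Or.inr (Or.inr (Or.inr (h1.trans h.comm)))
  s1 := h.t1
  t1 := h.s1
  st := h.st.symm

theorem st1 (h : V4 σ τ) : σ * τ ≠ 1 := by
  intro h1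
  apply h.st
  calc σ = σ * (τ * τ) := by rw [h.tt, mul_one]
    _ = (σ * τ) * τ := (mul_assoc _ _ _).symm
    _ = τ := by rw [h1, one_mul]

theorem sts (h : V4 σ τ) : σ * (σ * τ) = τ := by
  rw [← mul_assoc, h.ss, one_mul]

theorem tst (h : V4 σ τ) : τ * (σ * τ) = σ := by
  rw [h.comm, ← mul_assoc, h.tt, one_mul]

/-- the pair `σ, στ`. -/
theorem right (h : V4 σ τ) : V4 σ (σ * τ) where
  ss := h.ss
  tt := by rw [mul_assoc, h.tst, h.ss]
  comm := by rw [h.sts, mul_assoc, ← h.comm, h.sts]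
  all := fun ρ => by
    rw [h.sts]
    rcases h.all ρ with h1 | h1 | h1 | h1
    · exact Or.inl h1
    · exact Or.inr (Or.inl h1)
    · exact Or.inr (Or.inr (Or.inr h1))
    · exact Or.inr (Or.inr (Or.inl h1))
  s1 := h.s1
  t1 := h.st1
  st := by
    intro h1
    apply h.t1
    calc τ = σ * (σ * τ) := h.sts.symm
      _ = σ * σ := by rw [← h1]
      _ = 1 := h.ss

theorem univ_eq (h : V4 σ τ) [DecidableEq (K ≃ₐ[ℚ] K)] : (Finset.univ : Finset (K ≃ₐ[ℚ] K)) = {1, σ, τ, σ * τ} := by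
  symm
  rw [Finset.eq_univ_iff_forall]
  intro ρ
  simp only [Finset.mem_insert, Finset.mem_singleton]
  exact h.all ρ

theorem prod_univ {M : Type*} [CommMonoid M] (h : V4 σ τ) (f : (K ≃ₐ[ℚ] K) → M) :
    ∏ ρ : K ≃ₐ[ℚ] K, f ρ = f 1 * f σ * f τ * f (σ * τ) := by
  classical
  rw [h.univ_eq, Finset.prod_insert, Finset.prod_insert, Finset.prod_insert, Finset.prod_singleton]
  · simp only [mul_assoc]
  · simp only [Finset.mem_singleton]
    intro h1
    apply h.s1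
    have : σ * τ = 1 * τ := by rw [one_mul]; exact h1.symm
    exact mul_right_cancel this
  · simp only [Finset.mem_insert, Finset.mem_singleton, not_or]
    refine ⟨h.st, ?_⟩
    intro h1
    apply h.t1
    have : σ * τ = σ * 1 := by rw [mul_one]; exact h1.symm
    exact mul_left_cancel this
  · simp only [Finset.mem_insert, Finset.mem_singleton, not_or]
    exact ⟨h.s1.symm, h.t1.symm, h.st1.symm⟩

variable [IsGalois ℚ K]

theorem norm_ideal (h : V4 σ τ) (I : Ideal (𝓞 K)) :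
    I * ia σ I * ia τ I * ia (σ * τ) I = span {((absNorm I : ℕ) : 𝓞 K)} := by
  rw [← prod_ia, h.prod_univ, ia_one]

theorem norm_elt (h : V4 σ τ) (x : 𝓞 K) :
    x * ra σ x * ra τ x * ra (σ * τ) x = ((Algebra.intNorm ℤ (𝓞 K) x : ℤ) : 𝓞 K) := by
  have := intNorm_eq_prod x
  rw [h.prod_univ, ra_one] at this
  rw [← this]
  simp

theorem fixed_rat (h : V4 σ τ) {x : K} (h1 : σ x = x) (h2 : τ x = x) : ∃ q : ℚ, x = q := by
  have : x ∈ (⊥ : IntermediateField ℚ K) := by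
    rw [← IsGalois.fixedField_top (F := ℚ) (E := K)]
    intro g
    obtain ⟨g, _⟩ := g
    change g x = x
    rcases h.all g with rfl | rfl | rfl | rfl
    · rfl
    · exact h1
    · exact h2
    · change σ (τ x) = x
      rw [h2, h1]
  rw [IntermediateField.mem_bot] at this
  obtain ⟨q, hq⟩ := this
  exact ⟨q, by rw [← hq]; rfl⟩

theorem fixed_int (h : V4 σ τ) {x : 𝓞 K} (h1 : ra σ x = x) (h2 : ra τ x = x) :
    ∃ n : ℤ, x = (n : 𝓞 K) := by
  have h1' : σ (x : K) = x := by rw [← ra_coe, h1]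
  have h2' : τ (x : K) = x := by rw [← ra_coe, h2]
  obtain ⟨q, hq⟩ := h.fixed_rat h1' h2'
  have hx : IsIntegral ℤ (x : K) := x.isIntegral_coe
  rw [hq] at hx
  have hq2 : IsIntegral ℤ q := by
    have := (isIntegral_algebraMap_iff (R := ℤ) (A := ℚ) (B := K) (algebraMap ℚ K).injective (x := q)).1
    exact this hx
  obtain ⟨n, hn⟩ := IsIntegrallyClosed.isIntegral_iff.1 hq2
  refine ⟨n, ?_⟩
  apply RingOfIntegers.ext
  rw [hq, ← hn]
  simp

end V4

theorem int_dvd_of_coe {a b : ℤ} (h : ((a : ℤ) : 𝓞 K) ∣ ((b : ℤ) : 𝓞 K)) : a ∣ b := by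
  by_cases ha : a = 0
  · subst ha
    rw [Int.cast_zero, zero_dvd_iff] at h
    have : b = 0 := by exact_mod_cast h
    rw [this]
  obtain ⟨c, hc⟩ := h
  have hcK : (c : K) = ((b / a : ℚ) : K) := by
    have h1 : ((b : ℤ) : K) = (a : K) * (c : K) := by
      have := congrArg (algebraMap (𝓞 K) K) hc
      simpa using this
    have ha' : ((a : ℤ) : K) ≠ 0 := by exact_mod_cast ha
    push_cast
    rw [h1]
    field_simp
  have hx : IsIntegral ℤ (c : K) := c.isIntegral_coe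
  rw [hcK] at hx
  have hq2 : IsIntegral ℤ (b / a : ℚ) :=
    (isIntegral_algebraMap_iff (R := ℤ) (A := ℚ) (B := K) (algebraMap ℚ K).injective (x := (b / a : ℚ))).1 hx
  obtain ⟨n, hn⟩ := IsIntegrallyClosed.isIntegral_iff.1 hq2
  refine ⟨n, ?_⟩
  have ha' : (a : ℚ) ≠ 0 := by exact_mod_cast ha
  have : (b : ℚ) = a * n := by
    have h2 : (n : ℚ) = b / a := hn
    rw [h2]; field_simp
  exact_mod_cast this

theorem span_int_dvd {a b : ℤ} (h : span {((a : ℤ) : 𝓞 K)} ∣ span {((b : ℤ) : 𝓞 K)}) : a ∣ b := by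
  rw [Ideal.dvd_iff_le, Ideal.span_singleton_le_span_singleton] at h
  exact int_dvd_of_coe h

theorem ideal_sq_inj {I J : Ideal (𝓞 K)} (h : I ^ 2 = J ^ 2) : I = J := by
  have h1 : I ∣ J := (UniqueFactorizationMonoid.pow_dvd_pow_iff_dvd (two_ne_zero)).1 (h ▸ dvd_rfl)
  have h2 : J ∣ I := (UniqueFactorizationMonoid.pow_dvd_pow_iff_dvd (two_ne_zero)).1 (h ▸ dvd_rfl)
  exact dvd_antisymm h1 h2

theorem ia_int (σ : K ≃ₐ[ℚ] K) (n : ℤ) : ia σ (span {((n : ℤ) : 𝓞 K)}) = span {((n : ℤ) : 𝓞 K)} := by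
  rw [ia_span, map_intCast]

end Pool.Agent.H471R2
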